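import Mathlib
import Pool.Agent.Helper59.VDual.Basic

/-!
# Birationally isomorphic matrix representations
-/

set_option linter.unusedSectionVars false

open MvPolynomial Matrix VDual

namespace VSum

variable {k : Type*} [Field k] {G : Type*} [Group G]
variable {ι : Type*} [Fintype ι] [DecidableEq ι] {ι' : Type*} [Fintype ι'] [DecidableEq ι']
variable {ι'' : Type*} [Fintype ι''] [DecidableEq ι'']

/-- the coordinate functions -/
noncomputable def xc (k ι : Type*) [Field k] (i : ι) : FF k ι :=
  algebraMap (MvPolynomial ι k) (FF k ι) (X i)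

/-- two matrix representations are birationally isomorphic -/
def Bir (R : G →* GL ι k) (R' : G →* GL ι' k) : Prop :=
  ∃ Θ : FF k ι' ≃ₐ[k] FF k ι, ∀ (g : G) (f : FF k ι'),
    Θ (ffSub (R' g) f) = ffSub (R g) (Θ f)

theorem Bir.symm {R : G →* GL ι k} {R' : G →* GL ι' k} (h : Bir R R') : Bir R' R := by
  obtain ⟨Θ, hΘ⟩ := h
  refine ⟨Θ.symm, ?_⟩
  intro g f
  apply Θ.injective
  rw [hΘ, AlgEquiv.apply_symm_apply, AlgEquiv.apply_symm_apply]

theorem Bir.trans {R : G →* GL ι k} {R' : G →* GL ι' k} {R'' : G →* GL ι'' k} (h : Bir R R')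
    (h' : Bir R' R'') : Bir R R'' := by
  obtain ⟨Θ, hΘ⟩ := h
  obtain ⟨Θ', hΘ'⟩ := h'
  refine ⟨Θ'.trans Θ, ?_⟩
  intro g f
  rw [AlgEquiv.trans_apply, AlgEquiv.trans_apply, hΘ', hΘ]

theorem ffSub_xc (M : GL ι k) (i : ι) :
    ffSub M (xc k ι i) = ∑ j, algebraMap k (FF k ι) ((M : Matrix ι ι k) i j) * xc k ι j := by
  rw [xc, ffSub_algebraMap, linSub_X, map_sum]
  refine Finset.sum_congr rfl fun j _ => ?_
  rw [map_mul]
  congr 1

theorem xc_injective_aeval : Function.Injective (aeval (xc k ι) : MvPolynomial ι k →ₐ[k] FF k ι) := by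
  have : (aeval (xc k ι) : MvPolynomial ι k →ₐ[k] FF k ι) =
      IsScalarTower.toAlgHom k (MvPolynomial ι k) (FF k ι) := by
    apply MvPolynomial.algHom_ext
    intro i
    rw [aeval_X]
    rfl
  rw [this]
  exact IsFractionRing.injective (MvPolynomial ι k) (FF k ι)

/-- a generating family of the right cardinality is algebraically independent -/
theorem algebraicIndependent_of_adjoin (y : ι' → FF k ι) (hcard : Fintype.card ι' = Fintype.card ι)
    (hgen : IntermediateField.adjoin k (Set.range y) = ⊤) : AlgebraicIndependent k y := by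
  have hx : AlgebraicIndependent k (xc k ι) := xc_injective_aeval
  have halg : Algebra.IsAlgebraic (Algebra.adjoin k (Set.range y)) (FF k ι) := by
    constructor
    intro r
    have hr : r ∈ IntermediateField.adjoin k (Set.range y) := by
      rw [hgen]
      exact IntermediateField.mem_top
    rw [IntermediateField.mem_adjoin_range_iff] at hr
    obtain ⟨P, Q, hPQ⟩ := hr
    have hmem : ∀ P : MvPolynomial ι' k, aeval y P ∈ Algebra.adjoin k (Set.range y) := by
      intro P
      rw [Algebra.adjoin_range_eq_range_aeval]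
      exact ⟨P, rfl⟩
    have h1 : ∀ P : MvPolynomial ι' k, IsAlgebraic (Algebra.adjoin k (Set.range y)) (aeval y P) := by
      intro P
      have := isAlgebraic_algebraMap (R := Algebra.adjoin k (Set.range y)) (A := FF k ι)
        (⟨aeval y P, hmem P⟩ : Algebra.adjoin k (Set.range y))
      exact this
    rw [hPQ, div_eq_mul_inv]
    exact (h1 P).mul (h1 Q).inv
  have h1 := hx.lift_cardinalMk_le_trdeg
  have h2 : ((Fintype.card ι : ℕ) : Cardinal) ≤ Algebra.trdeg k (FF k ι) := by
    rw [Cardinal.mk_fintype] at h1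
    simpa using h1
  refine (Algebra.IsAlgebraic.isTranscendenceBasis_of_lift_le_trdeg_of_finite k y ?_).1
  rw [Cardinal.mk_fintype, hcard]
  simpa using h2

/-- construction of birational isomorphisms -/
theorem Bir.mk (R : G →* GL ι k) (R' : G →* GL ι' k) (y : ι' → FF k ι)
    (hcard : Fintype.card ι' = Fintype.card ι)
    (hgen : IntermediateField.adjoin k (Set.range y) = ⊤)
    (heq : ∀ g i, ffSub (R g) (y i) = ∑ j, algebraMap k (FF k ι) ((R' g : Matrix ι' ι' k) i j) * y j) :
    Bir R R' := by
  have hy := algebraicIndependent_of_adjoin y hcard hgen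
  let Θ0 : FF k ι' →ₐ[k] FF k ι := IsFractionRing.liftAlgHom (K := FF k ι') (g := aeval y) hy
  have h0 : ∀ p, Θ0 (algebraMap (MvPolynomial ι' k) (FF k ι') p) = aeval y p := by
    intro p
    exact IsFractionRing.lift_algebraMap hy p
  have hinj : Function.Injective Θ0 := Θ0.toRingHom.injective
  have hsurj : Function.Surjective Θ0 := by
    have h1 : IntermediateField.adjoin k (Set.range y) ≤ Θ0.fieldRange := by
      rw [IntermediateField.adjoin_le_iff]
      rintro _ ⟨i, rfl⟩
      refine ⟨xc k ι' i, ?_⟩
      change Θ0 (xc k ι' i) = y i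
      rw [xc, h0, aeval_X]
    rw [hgen, top_le_iff] at h1
    intro f
    have h2 : f ∈ Θ0.fieldRange := by rw [h1]; exact IntermediateField.mem_top
    exact h2
  refine ⟨AlgEquiv.ofBijective Θ0 ⟨hinj, hsurj⟩, ?_⟩
  intro g f
  have : Θ0.comp ((ffSub (R' g) : FF k ι' ≃ₐ[k] FF k ι') : FF k ι' →ₐ[k] FF k ι') =
      ((ffSub (R g) : FF k ι ≃ₐ[k] FF k ι) : FF k ι →ₐ[k] FF k ι).comp Θ0 := by
    apply ff_hom_ext
    intro i
    change Θ0 (ffSub (R' g) (xc k ι' i)) = ffSub (R g) (Θ0 (xc k ι' i))
    have h1 : ∀ i, Θ0 (xc k ι' i) = y i := by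
      intro i
      rw [xc, h0, aeval_X]
    rw [ffSub_xc, map_sum, h1, heq]
    refine Finset.sum_congr rfl fun j _ => ?_
    rw [map_mul, h1, AlgHom.commutes]
  exact DFunLike.congr_fun this f

theorem Bir.refl (R : G →* GL ι k) : Bir R R := ⟨AlgEquiv.refl, fun _ _ => rfl⟩

theorem adjoin_xc : IntermediateField.adjoin k (Set.range (xc k ι)) = ⊤ := by
  rw [eq_top_iff]
  intro f _
  rw [IntermediateField.mem_adjoin_range_iff]
  obtain ⟨p, q, hq, rfl⟩ := IsFractionRing.div_surjective (A := MvPolynomial ι k) f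
  refine ⟨p, q, ?_⟩
  have : (aeval (xc k ι) : MvPolynomial ι k →ₐ[k] FF k ι) =
      IsScalarTower.toAlgHom k (MvPolynomial ι k) (FF k ι) := by
    apply MvPolynomial.algHom_ext
    intro i
    rw [aeval_X]
    rfl
  rw [this]
  rfl

/-- it suffices that the old coordinates are rational functions of the new ones -/
theorem adjoin_eq_top_of_xc_mem (y : ι' → FF k ι)
    (h : ∀ i, xc k ι i ∈ IntermediateField.adjoin k (Set.range y)) :
    IntermediateField.adjoin k (Set.range y) = ⊤ := by
  rw [eq_top_iff, ← adjoin_xc, IntermediateField.adjoin_le_iff]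
  rintro _ ⟨i, rfl⟩
  exact h i

/-- equivalent representations are birationally isomorphic -/
theorem Bir.of_conj (R : G →* GL ι k) (R' : G →* GL ι' k) (e : ι' ≃ ι)
    (T : Matrix ι' ι' k) (T' : Matrix ι' ι' k) (hT : T' * T = 1)
    (h : ∀ g, T * ((R g : Matrix ι ι k).submatrix e e) = (R' g : Matrix ι' ι' k) * T) : Bir R R' := by
  refine Bir.mk R R' (fun i => ∑ j, algebraMap k (FF k ι) (T i j) * xc k ι (e j))
    (Fintype.card_congr e) ?_ ?_
  · apply adjoin_eq_top_of_xc_mem
    intro i
    have h1 : xc k ι i = ∑ l, algebraMap k (FF k ι) (T' (e.symm i) l) *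
        ∑ j, algebraMap k (FF k ι) (T l j) * xc k ι (e j) := by
      have h2 : ∀ j, ∑ l, T' (e.symm i) l * T l j = (1 : Matrix ι' ι' k) (e.symm i) j := by
        intro j
        rw [← hT, Matrix.mul_apply]
      calc xc k ι i = ∑ j, algebraMap k (FF k ι) ((1 : Matrix ι' ι' k) (e.symm i) j) * xc k ι (e j) := by
            rw [Finset.sum_eq_single (e.symm i)]
            · simp
            · intro j _ hj
              rw [Matrix.one_apply_ne hj.symm, map_zero, zero_mul]
            · simp
        _ = ∑ j, ∑ l, algebraMap k (FF k ι) (T' (e.symm i) l) *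
              (algebraMap k (FF k ι) (T l j) * xc k ι (e j)) := by
            refine Finset.sum_congr rfl fun j _ => ?_
            rw [← h2, map_sum, Finset.sum_mul]
            refine Finset.sum_congr rfl fun l _ => ?_
            rw [map_mul, mul_assoc]
        _ = _ := by
            rw [Finset.sum_comm]
            refine Finset.sum_congr rfl fun l _ => ?_
            rw [Finset.mul_sum]
    rw [h1]
    refine sum_mem fun l _ => mul_mem (IntermediateField.algebraMap_mem _ _) ?_
    exact IntermediateField.subset_adjoin k _ ⟨l, rfl⟩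
  · intro g i
    have h1 : ∀ l, ∑ j, T i j * (R g : Matrix ι ι k) (e j) (e l) = ∑ j, (R' g : Matrix ι' ι' k) i j * T j l := by
      intro l
      have := congrFun (congrFun (h g) i) l
      rw [Matrix.mul_apply, Matrix.mul_apply] at this
      exact this
    calc ffSub (R g) (∑ j, algebraMap k (FF k ι) (T i j) * xc k ι (e j))
        = ∑ j, algebraMap k (FF k ι) (T i j) *
            ∑ l, algebraMap k (FF k ι) ((R g : Matrix ι ι k) (e j) (e l)) * xc k ι (e l) := by
          rw [map_sum]
          refine Finset.sum_congr rfl fun j _ => ?_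
          rw [map_mul, AlgEquiv.commutes, ffSub_xc]
          congr 1
          exact (Equiv.sum_comp e (fun l => algebraMap k (FF k ι) ((R g : Matrix ι ι k) (e j) l) * xc k ι l)).symm
      _ = ∑ l, algebraMap k (FF k ι) (∑ j, T i j * (R g : Matrix ι ι k) (e j) (e l)) * xc k ι (e l) := by
          simp only [Finset.mul_sum, map_sum, Finset.sum_mul, map_mul]
          rw [Finset.sum_comm]
          refine Finset.sum_congr rfl fun l _ => Finset.sum_congr rfl fun j _ => ?_
          rw [mul_assoc]
      _ = _ := by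
          simp only [h1, Finset.mul_sum, map_sum, Finset.sum_mul, map_mul]
          rw [Finset.sum_comm]
          refine Finset.sum_congr rfl fun l _ => Finset.sum_congr rfl fun j _ => ?_
          rw [mul_assoc]

end VSum
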