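import Mathlib
import Pool.Agent.Helper59.VDual.ClaimX

/-!
# Claim R

Rational functions on affine space, regular where `w ≠ 0`: a function `r` whose value is
determined, generically, by the values of the functions `z i` is a rational function of them.
-/

set_option linter.unusedSectionVars false

open scoped TensorProduct
open MvPolynomial

namespace VSum

variable {k : Type*} [Field k] {σ : Type*}

/-- evaluation of a regular function on `w ≠ 0` at a point -/
noncomputable def evL (w : MvPolynomial σ k) (v : σ → k) (hv : eval v w ≠ 0) :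
    Localization.Away w →ₐ[k] k :=
  IsLocalization.liftAlgHom (M := Submonoid.powers w) (S := Localization.Away w)
    (f := (aeval v : MvPolynomial σ k →ₐ[k] k)) (by
      rintro ⟨_, N, rfl⟩
      change IsUnit (aeval v (w ^ N))
      rw [map_pow]
      exact (isUnit_iff_ne_zero.mpr hv).pow N)

theorem evL_algebraMap (w : MvPolynomial σ k) (v : σ → k) (hv : eval v w ≠ 0)
    (p : MvPolynomial σ k) :
    evL w v hv (algebraMap (MvPolynomial σ k) (Localization.Away w) p) = eval v p := by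
  rw [evL, IsLocalization.liftAlgHom_apply, IsLocalization.lift_eq]
  rfl

theorem away_isDomain (w : MvPolynomial σ k) (hw : w ≠ 0) : IsDomain (Localization.Away w) :=
  IsLocalization.isDomain_localization (powers_le_nonZeroDivisors_of_noZeroDivisors hw)

theorem away_injective (w : MvPolynomial σ k) (hw : w ≠ 0) :
    Function.Injective (algebraMap (MvPolynomial σ k) (Localization.Away w)) :=
  IsLocalization.injective _ (powers_le_nonZeroDivisors_of_noZeroDivisors hw)

theorem claimR [IsAlgClosed k] [CharZero k] [Finite σ] {τ : Type*} (w D : MvPolynomial σ k)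
    (hw : w ≠ 0) (hD : D ≠ 0) (z : τ → Localization.Away w) (r : Localization.Away w)
    (h : ∀ (v v' : σ → k) (hv : eval v w ≠ 0) (hv' : eval v' w ≠ 0), eval v D ≠ 0 →
      eval v' D ≠ 0 → (∀ i, evL w v hv (z i) = evL w v' hv' (z i)) →
      evL w v hv r = evL w v' hv' r) :
    ∃ P Q : MvPolynomial τ k, aeval z Q ≠ 0 ∧ r * aeval z Q = aeval z P := by
  classical
  let S := MvPolynomial σ k
  let Sw := Localization.Away w
  have : IsDomain Sw := away_isDomain w hw
  let E := FractionRing Sw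
  have hSw : Function.Injective (algebraMap S Sw) := away_injective w hw
  have hinjE : Function.Injective (algebraMap Sw E) := IsFractionRing.injective Sw E
  -- numerators
  have hnum : ∀ s : Sw, ∃ (N : ℕ) (a : S), s * algebraMap S Sw w ^ N = algebraMap S Sw a := by
    intro s
    exact IsLocalization.Away.surj w s
  choose N a hNa using hnum
  have hval : ∀ (s : Sw) (v : σ → k) (hv : eval v w ≠ 0),
      evL w v hv s * (eval v w) ^ (N s) = eval v (a s) := by
    intro s v hv
    have h1 := congrArg (evL w v hv) (hNa s)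
    rw [map_mul, map_pow, evL_algebraMap, evL_algebraMap] at h1
    exact h1
  let ιE : S → E := fun p => algebraMap Sw E (algebraMap S Sw p)
  have hιE : ∀ p, p ≠ 0 → ιE p ≠ 0 := by
    intro p hp h0
    apply hp
    apply hSw
    apply hinjE
    rw [map_zero, map_zero]
    exact h0
  have hwE : ιE w ≠ 0 := hιE w hw
  have hDE : ιE D ≠ 0 := hιE D hD
  let zE : τ → E := fun i => algebraMap Sw E (z i)
  let rE : E := algebraMap Sw E r
  let F : IntermediateField k E := IntermediateField.adjoin k (Set.range zE)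
  let A := E ⊗[F] E
  -- the Nullstellensatz
  let T := MvPolynomial (σ ⊕ σ) k
  let j1 : S →ₐ[k] T := rename Sum.inl
  let j2 : S →ₐ[k] T := rename Sum.inr
  let J : Ideal T := Ideal.span (Set.range fun i =>
    j1 (a (z i)) * j2 (w ^ N (z i)) - j2 (a (z i)) * j1 (w ^ N (z i)))
  let H : T := j1 D * j2 D * (j1 w * j2 w) * (j1 (a r) * j2 (w ^ N r) - j2 (a r) * j1 (w ^ N r))
  have hev1 : ∀ (v : σ ⊕ σ → k) (p : S), eval v (j1 p) = eval (fun i => v (Sum.inl i)) p := by
    intro v p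
    change eval v (rename Sum.inl p) = _
    rw [eval_rename]
    rfl
  have hev2 : ∀ (v : σ ⊕ σ → k) (p : S), eval v (j2 p) = eval (fun i => v (Sum.inr i)) p := by
    intro v p
    change eval v (rename Sum.inr p) = _
    rw [eval_rename]
    rfl
  have hH : H ∈ J.radical := by
    rw [← vanishingIdeal_zeroLocus_eq_radical (K := k), mem_vanishingIdeal_iff]
    intro v hv
    rw [mem_zeroLocus_iff] at hv
    have hv' : ∀ i, eval v (j1 (a (z i))) * eval v (j2 (w ^ N (z i))) =
        eval v (j2 (a (z i))) * eval v (j1 (w ^ N (z i))) := by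
      intro i
      have h1 := hv _ (Ideal.subset_span ⟨i, rfl⟩)
      rw [map_sub, map_mul, map_mul, sub_eq_zero] at h1
      exact h1
    change eval v H = 0
    simp only [H, map_mul, map_sub]
    by_cases h1 : eval v (j1 D) = 0
    · simp [h1]
    by_cases h2 : eval v (j2 D) = 0
    · simp [h2]
    by_cases h3 : eval v (j1 w) = 0
    · simp [h3]
    by_cases h4 : eval v (j2 w) = 0
    · simp [h4]
    rw [hev1] at h1 h3
    rw [hev2] at h2 h4
    have h5 := h _ _ h3 h4 h1 h2 (by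
      intro i
      have h6 := hv' i
      rw [hev1, hev1, hev2, hev2, map_pow, map_pow, ← hval (z i) _ h3, ← hval (z i) _ h4] at h6
      have h7 : (eval (fun i => v (Sum.inl i)) w) ^ N (z i) *
          (eval (fun i => v (Sum.inr i)) w) ^ N (z i) ≠ 0 :=
        mul_ne_zero (pow_ne_zero _ h3) (pow_ne_zero _ h4)
      apply mul_right_cancel₀ h7
      linear_combination h6)
    have h8 : eval v (j1 (a r)) * eval v (j2 (w ^ N r)) - eval v (j2 (a r)) * eval v (j1 (w ^ N r)) = 0 := by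
      rw [hev1, hev1, hev2, hev2, map_pow, map_pow, ← hval r _ h3, ← hval r _ h4, h5]
      ring
    rw [h8, mul_zero]
  -- the point with values in `E ⊗ E`
  let pt : σ ⊕ σ → A := Sum.elim (fun c => (ιE (X c)) ⊗ₜ[F] (1 : E))
      (fun c => (1 : E) ⊗ₜ[F] (ιE (X c)))
  have hF : ∀ i, zE i ∈ F := fun i => IntermediateField.subset_adjoin k _ ⟨i, rfl⟩
  have hswap : ∀ e : E, e ∈ F → e ⊗ₜ[F] (1 : E) = (1 : E) ⊗ₜ[F] e := by
    intro e he
    have : e = (⟨e, he⟩ : F) • (1 : E) := by
      rw [IntermediateField.smul_def, smul_eq_mul, mul_one]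
    rw [this, TensorProduct.smul_tmul]
  let ιa : S →ₐ[k] E := (IsScalarTower.toAlgHom k Sw E).comp (IsScalarTower.toAlgHom k S Sw)
  have hιa : ∀ p, ιa p = ιE p := fun _ => rfl
  have hp1 : ∀ p : S, aeval pt (j1 p) = (ιE p) ⊗ₜ[F] (1 : E) := by
    intro p
    have : (aeval pt).comp j1 =
        ((Algebra.TensorProduct.includeLeft : E →ₐ[k] A).comp ιa) := by
      apply MvPolynomial.algHom_ext
      intro a
      simp only [j1, pt, AlgHom.comp_apply, rename_X, aeval_X, Sum.elim_inl]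
      rfl
    exact DFunLike.congr_fun this p
  have hp2 : ∀ p : S, aeval pt (j2 p) = (1 : E) ⊗ₜ[F] (ιE p) := by
    intro p
    have : (aeval pt).comp j2 =
        (((Algebra.TensorProduct.includeRight : E →ₐ[F] A).restrictScalars k).comp ιa) := by
      apply MvPolynomial.algHom_ext
      intro a
      simp only [j2, pt, AlgHom.comp_apply, rename_X, aeval_X, Sum.elim_inr]
      rfl
    exact DFunLike.congr_fun this p
  have hnumE : ∀ s : Sw, ιE (a s) = algebraMap Sw E s * ιE w ^ N s := by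
    intro s
    change algebraMap Sw E (algebraMap S Sw (a s)) = _
    rw [← hNa s, map_mul, map_pow]
  have hιpow : ∀ M : ℕ, ιE (w ^ M) = ιE w ^ M := by
    intro M
    change algebraMap Sw E (algebraMap S Sw (w ^ M)) = _
    rw [map_pow, map_pow]
  have t1 : ∀ x y : E, (x ⊗ₜ[F] (1 : E) : A) * ((1 : E) ⊗ₜ[F] y) = x ⊗ₜ[F] y := by
    intro x y
    rw [Algebra.TensorProduct.tmul_mul_tmul, mul_one, one_mul]
  have t2 : ∀ x y : E, ((1 : E) ⊗ₜ[F] y : A) * (x ⊗ₜ[F] (1 : E)) = x ⊗ₜ[F] y := by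
    intro x y
    rw [Algebra.TensorProduct.tmul_mul_tmul, mul_one, one_mul]
  have hJ : J ≤ RingHom.ker (aeval pt : T →ₐ[k] A) := by
    rw [Ideal.span_le]
    rintro _ ⟨i, rfl⟩
    rw [SetLike.mem_coe, RingHom.mem_ker, map_sub, map_mul, map_mul, hp1, hp2, hp1, hp2, hnumE, hιpow,
      t1, t2, sub_eq_zero]
    have h1 := hswap _ (hF i)
    have h2 : ((algebraMap Sw E (z i)) * ιE w ^ N (z i)) ⊗ₜ[F] (ιE w ^ N (z i)) =
        ((ιE w ^ N (z i)) ⊗ₜ[F] (ιE w ^ N (z i)) : A) * ((algebraMap Sw E (z i)) ⊗ₜ[F] (1 : E)) := by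
      rw [Algebra.TensorProduct.tmul_mul_tmul, mul_one, mul_comm]
    have h3 : (ιE w ^ N (z i)) ⊗ₜ[F] ((algebraMap Sw E (z i)) * ιE w ^ N (z i)) =
        ((ιE w ^ N (z i)) ⊗ₜ[F] (ιE w ^ N (z i)) : A) * ((1 : E) ⊗ₜ[F] (algebraMap Sw E (z i))) := by
      rw [Algebra.TensorProduct.tmul_mul_tmul, mul_one, mul_comm (algebraMap Sw E (z i))]
    rw [h2, h3]
    congr 1
  have hnil : IsNilpotent (aeval pt H : A) := by
    obtain ⟨M, hM⟩ := hH
    refine ⟨M, ?_⟩
    rw [← map_pow]
    exact hJ hM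
  have hHval : (aeval pt H : A) =
      ((ιE D) ⊗ₜ[F] (ιE D)) * ((ιE w) ⊗ₜ[F] (ιE w)) * (((ιE w ^ N r) ⊗ₜ[F] (ιE w ^ N r)) *
        (rE ⊗ₜ[F] (1 : E) - (1 : E) ⊗ₜ[F] rE)) := by
    simp only [H, map_mul, map_sub]
    rw [hp1, hp2, hp1, hp2, hp1, hp2, hp1, hp2, hnumE, hιpow, t1, t1, t1, t2,
      mul_sub ((ιE w ^ N r) ⊗ₜ[F] (ιE w ^ N r))]
    have h2 : ((ιE w ^ N r) ⊗ₜ[F] (ιE w ^ N r) : A) * (rE ⊗ₜ[F] (1 : E)) =
        ((algebraMap Sw E r) * ιE w ^ N r) ⊗ₜ[F] (ιE w ^ N r) := by
      rw [Algebra.TensorProduct.tmul_mul_tmul, mul_one, mul_comm]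
    have h3 : ((ιE w ^ N r) ⊗ₜ[F] (ιE w ^ N r) : A) * ((1 : E) ⊗ₜ[F] rE) =
        (ιE w ^ N r) ⊗ₜ[F] ((algebraMap Sw E r) * ιE w ^ N r) := by
      rw [Algebra.TensorProduct.tmul_mul_tmul, mul_one, mul_comm rE]
    rw [h2, h3]
  have hunit : ∀ a b : E, a ≠ 0 → b ≠ 0 → IsUnit (a ⊗ₜ[F] b : A) := by
    intro a b ha hb
    refine IsUnit.of_mul_eq_one ((a⁻¹) ⊗ₜ[F] (b⁻¹)) ?_
    rw [Algebra.TensorProduct.tmul_mul_tmul, mul_inv_cancel₀ ha, mul_inv_cancel₀ hb]
    rfl
  have hnil2 : IsNilpotent (rE ⊗ₜ[F] (1 : E) - (1 : E) ⊗ₜ[F] rE : A) := by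
    rw [hHval] at hnil
    obtain ⟨M, hM⟩ := hnil
    refine ⟨M, ?_⟩
    rw [mul_pow, (((hunit _ _ hDE hDE).mul (hunit _ _ hwE hwE)).pow M).mul_right_eq_zero, mul_pow,
      ((hunit _ _ (pow_ne_zero _ hwE) (pow_ne_zero _ hwE)).pow M).mul_right_eq_zero] at hM
    exact hM
  obtain ⟨c, hc⟩ := VDual.mem_range_of_nilpotent rE hnil2
  have hrF : rE ∈ IntermediateField.adjoin k (Set.range zE) := by
    rw [← hc]
    exact c.2
  rw [IntermediateField.mem_adjoin_range_iff] at hrF
  obtain ⟨P, Q, hPQ⟩ := hrF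
  have haev : ∀ p : MvPolynomial τ k, aeval zE p = algebraMap Sw E (aeval z p) := by
    intro p
    have : aeval zE = (IsScalarTower.toAlgHom k Sw E).comp (aeval z) := by
      apply MvPolynomial.algHom_ext
      intro i
      simp [zE]
    rw [this]
    rfl
  by_cases hQ : aeval z Q = 0
  · refine ⟨0, 1, by simp, ?_⟩
    have hr0 : rE = 0 := by
      rw [hPQ, haev Q, hQ, map_zero, div_zero]
    have hr : r = 0 := hinjE (by rw [map_zero]; exact hr0)
    simp [hr]
  · refine ⟨P, Q, hQ, ?_⟩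
    apply hinjE
    have hQE : algebraMap Sw E (aeval z Q) ≠ 0 := by
      intro h0
      exact hQ (hinjE (by rw [h0, map_zero]))
    rw [haev P, haev Q] at hPQ
    change algebraMap Sw E r = _ at hPQ
    rw [map_mul, hPQ, div_mul_cancel₀ _ hQE]

end VSum
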