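import Mathlib
import Pool.Agent.Helper59.VSum.Bir
import Pool.Agent.Helper59.VSum.ClaimR
import Pool.Agent.Helper59.VDual.Descent
import Pool.Agent.Helper59.VDual.SLRep

/-!
# The no-name lemma for quotients of `∏ SL_{n_i}`
-/

set_option linter.unusedSectionVars false
set_option linter.style.haveILetI false

open MvPolynomial Matrix VDual MulOpposite

namespace VSum

section general

variable {k : Type*} [Field k] {G : Type*} [Group G]
variable {ι : Type*} [Fintype ι] [DecidableEq ι] {κ : Type*} [Fintype κ] [DecidableEq κ]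

/-- the action of the opposite group on the function field -/
noncomputable def actHom (R : G →* GL ι k) : Gᵐᵒᵖ →* (FF k ι ≃ₐ[k] FF k ι) where
  toFun g := ffSub (R g.unop)
  map_one' := by
    ext f
    rw [unop_one, map_one]
    exact ffSub_one f
  map_mul' g h := by
    ext f
    rw [unop_mul, map_mul, ffSub_mul]
    rfl

/-- the action of the opposite group on the function field -/
@[reducible] noncomputable def actInst (R : G →* GL ι k) : MulSemiringAction Gᵐᵒᵖ (FF k ι) :=
  MulSemiringAction.compHom _ (actHom R)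

/-- `g ↦ p(x, g x)` -/
noncomputable def Fn (R : G →* GL ι k) (p : MvPolynomial (ι ⊕ ι) k) : Gᵐᵒᵖ → FF k ι :=
  fun g => aeval (Sum.elim (xc k ι) (fun t => ffSub (R g.unop) (xc k ι t))) p

theorem Fn_mem (R : G →* GL ι k) (p : MvPolynomial (ι ⊕ ι) k) :
    letI := actInst R
    Fn R p ∈ RR Gᵐᵒᵖ := by
  letI := actInst R
  induction p using MvPolynomial.induction_on with
  | C a =>
    have : Fn R (C a) = (algebraMap k (FF k ι) a) • orb Gᵐᵒᵖ (1 : FF k ι) := by
      funext g
      simp only [Fn, orb, Pi.smul_apply, smul_one]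
      rw [aeval_C, smul_eq_mul, mul_one]
    rw [this]
    exact Submodule.smul_mem _ _ (orb_mem _ _)
  | add p q hp hq =>
    have : Fn R (p + q) = Fn R p + Fn R q := by
      funext g
      simp only [Fn, Pi.add_apply, map_add]
    rw [this]
    exact Submodule.add_mem _ hp hq
  | mul_X p t hp =>
    have : Fn R (p * X t) = Fn R p * Fn R (X t) := by
      funext g
      simp only [Fn, Pi.mul_apply, map_mul]
    rw [this]
    apply mul_mem_RR hp
    rcases t with t | t
    · have : Fn R (X (Sum.inl t)) = (xc k ι t) • orb Gᵐᵒᵖ (1 : FF k ι) := by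
        funext g
        simp only [Fn, orb, Pi.smul_apply, smul_one]
        rw [aeval_X, smul_eq_mul, mul_one]
        rfl
      rw [this]
      exact Submodule.smul_mem _ _ (orb_mem _ _)
    · have : Fn R (X (Sum.inr t)) = orb Gᵐᵒᵖ (xc k ι t) := by
        funext g
        simp only [Fn, orb]
        rw [aeval_X]
        rfl
      rw [this]
      exact orb_mem _ _

theorem Fn_mul (R : G →* GL ι k) (p q : MvPolynomial (ι ⊕ ι) k) (g : Gᵐᵒᵖ) :
    Fn R (p * q) g = Fn R p g * Fn R q g := by
  simp only [Fn, map_mul]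

/-- invertible covariant matrices -/
theorem exists_covariants (R : G →* GL ι k) (RW : G →* GL κ k)
    (h : ∀ a b : κ, ∃ P Q : MvPolynomial (ι ⊕ ι) k, (∃ g, Fn R Q g ≠ 0) ∧
      ∀ g : G, algebraMap k (FF k ι) ((RW g : Matrix κ κ k) a b) * Fn R Q (op g) = Fn R P (op g))
    (hprod : ∀ s : Finset (κ × κ), ∀ Q : κ × κ → MvPolynomial (ι ⊕ ι) k,
      (∀ e, ∃ g, Fn R (Q e) g ≠ 0) → ∃ g, Fn R (∏ e ∈ s, Q e) g ≠ 0) :
    ∃ (B B' : Matrix κ κ (FF k ι)), B * B' = 1 ∧
      ∀ g : G, ((RW g : Matrix κ κ k)ᵀ).map (algebraMap k (FF k ι)) * B.map (ffSub (R g)) = B := by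
  classical
  letI := actInst R
  choose P Q hQ hPQ using h
  let τ : Gᵐᵒᵖ → Matrix κ κ (FF k ι) := fun g =>
    ((RW g.unop : Matrix κ κ k)ᵀ).map (algebraMap k (FF k ι))
  have hτ1 : τ 1 = 1 := by
    simp only [τ, unop_one, map_one, Units.val_one, Matrix.transpose_one]
    exact Matrix.map_one _ (map_zero _) (map_one _)
  have hτ : ∀ g h, τ (g * h) = τ g * τ h := by
    intro g h
    simp only [τ, unop_mul, map_mul, Units.val_mul, Matrix.transpose_mul]
    exact Matrix.map_mul
  have hspan := span_cov (G := Gᵐᵒᵖ) τ hτ1 hτ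
    (by
      intro g h i j
      exact (ffSub (R g.unop)).commutes _)
    (Fn R (∏ e : κ × κ, Q e.1 e.2)) (Fn_mem R _)
    (by
      intro h0
      obtain ⟨g, hg⟩ := hprod Finset.univ (fun e => Q e.1 e.2) (fun e => hQ e.1 e.2)
      exact hg (congrFun h0 g))
    (by
      intro i j
      have h1 : (fun g : Gᵐᵒᵖ => Fn R (∏ e : κ × κ, Q e.1 e.2) g * τ g i j) =
          Fn R (P j i * ∏ e ∈ Finset.univ.erase (j, i), Q e.1 e.2) := by
        funext g
        obtain ⟨g, rfl⟩ : ∃ g', g = op g' := ⟨g.unop, rfl⟩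
        have e1 : (∏ e : κ × κ, Q e.1 e.2) = Q j i * ∏ e ∈ Finset.univ.erase (j, i), Q e.1 e.2 :=
          (Finset.mul_prod_erase _ (fun e : κ × κ => Q e.1 e.2) (Finset.mem_univ (j, i))).symm
        rw [e1, Fn_mul, Fn_mul, ← hPQ]
        change Fn R (Q j i) (op g) * _ * algebraMap k (FF k ι) ((RW g : Matrix κ κ k) j i) = _
        ring
      rw [h1]
      exact Fn_mem R _)
  obtain ⟨f, hf, _, hli⟩ := Submodule.exists_fun_fin_finrank_span_eq (FF k ι)
    {w : κ → FF k ι | IsCov (G := Gᵐᵒᵖ) τ w}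
  have hfin : Module.finrank (FF k ι) (Submodule.span (FF k ι) {w : κ → FF k ι | IsCov (G := Gᵐᵒᵖ) τ w}) =
      Fintype.card κ := by
    rw [hspan, finrank_top, Module.finrank_fintype_fun_eq_card]
  let e : κ ≃ Fin (Module.finrank (FF k ι) (Submodule.span (FF k ι)
      {w : κ → FF k ι | IsCov (G := Gᵐᵒᵖ) τ w})) :=
    Fintype.equivOfCardEq (by rw [Fintype.card_fin, hfin])
  let Bt : Matrix κ κ (FF k ι) := Matrix.of fun l => f (e l)
  have hBt : LinearIndependent (FF k ι) Bt.row := hli.comp e e.injective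
  have hunit : IsUnit Bt := Matrix.linearIndependent_rows_iff_isUnit.mp hBt
  have hunitT : IsUnit Btᵀ := by
    rw [Matrix.isUnit_iff_isUnit_det, Matrix.det_transpose, ← Matrix.isUnit_iff_isUnit_det]
    exact hunit
  obtain ⟨U, hU⟩ := hunitT
  refine ⟨Btᵀ, ((U⁻¹ : (Matrix κ κ (FF k ι))ˣ) : Matrix κ κ (FF k ι)), by rw [← hU, Units.mul_inv], ?_⟩
  intro g
  ext i l
  have h1 := congrFun (hf (e l) (op g)) i
  -- `g c = τ(g⁻¹) c`
  have h2 : ∀ j, (ffSub (R g)) (f (e l) j) = (τ (op g)⁻¹ *ᵥ f (e l)) j := fun j =>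
    congrFun (hf (e l) (op g)) j
  have h3 : ((RW g : Matrix κ κ k)ᵀ).map (algebraMap k (FF k ι)) = τ (op g) := rfl
  rw [h3, Matrix.mul_apply]
  have h4 : ∑ j, τ (op g) i j * (Btᵀ.map (ffSub (R g))) j l = (τ (op g) *ᵥ (τ (op g)⁻¹ *ᵥ f (e l))) i := by
    rw [Matrix.mulVec, dotProduct]
    refine Finset.sum_congr rfl fun j _ => ?_
    rw [← h2]
    rfl
  rw [h4, Matrix.mulVec_mulVec, ← hτ, mul_inv_cancel, hτ1, Matrix.one_mulVec]
  rfl

/-- direct sum of two matrix representations -/
def dsum (R : G →* GL ι k) (RW : G →* GL κ k) : G →* GL (ι ⊕ κ) k where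
  toFun g :=
    { val := Matrix.fromBlocks (R g : Matrix ι ι k) 0 0 (RW g : Matrix κ κ k)
      inv := Matrix.fromBlocks (R g⁻¹ : Matrix ι ι k) 0 0 (RW g⁻¹ : Matrix κ κ k)
      val_inv := by
        rw [Matrix.fromBlocks_multiply, ← Units.val_mul, ← Units.val_mul, ← map_mul, ← map_mul,
          mul_inv_cancel, map_one, map_one]
        simp
      inv_val := by
        rw [Matrix.fromBlocks_multiply, ← Units.val_mul, ← Units.val_mul, ← map_mul, ← map_mul,
          inv_mul_cancel, map_one, map_one]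
        simp }
  map_one' := by
    apply Units.ext
    change Matrix.fromBlocks (R 1 : Matrix ι ι k) 0 0 (RW 1 : Matrix κ κ k) = 1
    rw [map_one, map_one, Units.val_one, Units.val_one, Matrix.fromBlocks_one]
  map_mul' g h := by
    apply Units.ext
    change Matrix.fromBlocks (R (g * h) : Matrix ι ι k) 0 0 (RW (g * h) : Matrix κ κ k) =
      Matrix.fromBlocks (R g : Matrix ι ι k) 0 0 (RW g : Matrix κ κ k) *
      Matrix.fromBlocks (R h : Matrix ι ι k) 0 0 (RW h : Matrix κ κ k)
    rw [Matrix.fromBlocks_multiply, map_mul, map_mul, Units.val_mul, Units.val_mul]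
    simp

theorem dsum_val (R : G →* GL ι k) (RW : G →* GL κ k) (g : G) :
    (dsum R RW g : Matrix (ι ⊕ κ) (ι ⊕ κ) k) =
      Matrix.fromBlocks (R g : Matrix ι ι k) 0 0 (RW g : Matrix κ κ k) := rfl

theorem incL_inj (k ι κ : Type*) [Field k] : Function.Injective
    (aeval (fun i => xc k (ι ⊕ κ) (Sum.inl i)) : MvPolynomial ι k →ₐ[k] FF k (ι ⊕ κ)) := by
  have h1 : (aeval (fun i => xc k (ι ⊕ κ) (Sum.inl i)) : MvPolynomial ι k →ₐ[k] FF k (ι ⊕ κ)) =
      (IsScalarTower.toAlgHom k (MvPolynomial (ι ⊕ κ) k) (FF k (ι ⊕ κ))).comp (rename Sum.inl) := by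
    apply MvPolynomial.algHom_ext
    intro i
    rw [AlgHom.comp_apply, aeval_X, rename_X]
    rfl
  rw [h1]
  exact (IsFractionRing.injective (MvPolynomial (ι ⊕ κ) k) (FF k (ι ⊕ κ))).comp
    (rename_injective _ Sum.inl_injective)

/-- inclusion of function fields -/
noncomputable def incL (k ι κ : Type*) [Field k] : FF k ι →ₐ[k] FF k (ι ⊕ κ) :=
  IsFractionRing.liftAlgHom (K := FF k ι) (g := aeval fun i => xc k (ι ⊕ κ) (Sum.inl i))
    (incL_inj k ι κ)

theorem incL_algebraMap (p : MvPolynomial ι k) :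
    incL k ι κ (algebraMap (MvPolynomial ι k) (FF k ι) p) =
      aeval (fun i => xc k (ι ⊕ κ) (Sum.inl i)) p :=
  IsFractionRing.lift_algebraMap (incL_inj k ι κ) p

theorem incL_xc (i : ι) : incL k ι κ (xc k ι i) = xc k (ι ⊕ κ) (Sum.inl i) := by
  rw [xc, incL_algebraMap, aeval_X]

theorem ffSub_dsum_inl (R : G →* GL ι k) (RW : G →* GL κ k) (g : G) (i : ι) :
    ffSub (dsum R RW g) (xc k (ι ⊕ κ) (Sum.inl i)) =
      ∑ j, algebraMap k (FF k (ι ⊕ κ)) ((R g : Matrix ι ι k) i j) * xc k (ι ⊕ κ) (Sum.inl j) := by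
  rw [ffSub_xc, Fintype.sum_sum_type, dsum_val]
  simp

theorem ffSub_dsum_inr (R : G →* GL ι k) (RW : G →* GL κ k) (g : G) (i : κ) :
    ffSub (dsum R RW g) (xc k (ι ⊕ κ) (Sum.inr i)) =
      ∑ j, algebraMap k (FF k (ι ⊕ κ)) ((RW g : Matrix κ κ k) i j) * xc k (ι ⊕ κ) (Sum.inr j) := by
  rw [ffSub_xc, Fintype.sum_sum_type, dsum_val]
  simp

theorem ffSub_incL (R : G →* GL ι k) (RW : G →* GL κ k) (g : G) (f : FF k ι) :
    ffSub (dsum R RW g) (incL k ι κ f) = incL k ι κ (ffSub (R g) f) := by
  have : ((ffSub (dsum R RW g) : FF k (ι ⊕ κ) ≃ₐ[k] FF k (ι ⊕ κ)) :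
      FF k (ι ⊕ κ) →ₐ[k] FF k (ι ⊕ κ)).comp (incL k ι κ) =
      (incL k ι κ).comp ((ffSub (R g) : FF k ι ≃ₐ[k] FF k ι) : FF k ι →ₐ[k] FF k ι) := by
    apply ff_hom_ext
    intro i
    change ffSub (dsum R RW g) (incL k ι κ (xc k ι i)) = incL k ι κ (ffSub (R g) (xc k ι i))
    rw [incL_xc, ffSub_dsum_inl, ffSub_xc, map_sum]
    refine Finset.sum_congr rfl fun j _ => ?_
    rw [map_mul, incL_xc, AlgHom.commutes]
  exact DFunLike.congr_fun this f

/-- from covariants to the birational trivialisation -/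
theorem noname_of_covariants (R : G →* GL ι k) (RW : G →* GL κ k)
    (B B' : Matrix κ κ (FF k ι)) (hB : B * B' = 1)
    (hcov : ∀ g : G, ((RW g : Matrix κ κ k)ᵀ).map (algebraMap k (FF k ι)) * B.map (ffSub (R g)) = B) :
    Bir (dsum R RW) (dsum R (1 : G →* GL κ k)) := by
  have hB2 : B' * B = 1 := mul_eq_one_comm.mp hB
  let y : ι ⊕ κ → FF k (ι ⊕ κ) := Sum.elim (fun i => xc k (ι ⊕ κ) (Sum.inl i))
    (fun l => ∑ j, incL k ι κ (B j l) * xc k (ι ⊕ κ) (Sum.inr j))
  refine Bir.mk _ _ y rfl ?_ ?_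
  · apply adjoin_eq_top_of_xc_mem
    have hl : ∀ i, xc k (ι ⊕ κ) (Sum.inl i) ∈ IntermediateField.adjoin k (Set.range y) := fun i =>
      IntermediateField.subset_adjoin k _ ⟨Sum.inl i, rfl⟩
    have hL : ∀ f : FF k ι, incL k ι κ f ∈ IntermediateField.adjoin k (Set.range y) := by
      intro f
      have h1 : f ∈ IntermediateField.adjoin k (Set.range (xc k ι)) := by
        rw [adjoin_xc]; exact IntermediateField.mem_top
      have h2 : incL k ι κ f ∈ (IntermediateField.adjoin k (Set.range (xc k ι))).map (incL k ι κ) :=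
        ⟨f, h1, rfl⟩
      rw [IntermediateField.adjoin_map] at h2
      refine IntermediateField.adjoin_le_iff.mpr ?_ h2
      rintro _ ⟨_, ⟨i, rfl⟩, rfl⟩
      change incL k ι κ (xc k ι i) ∈ _
      rw [incL_xc]
      exact hl i
    rintro (i | i)
    · exact hl i
    · have h1 : xc k (ι ⊕ κ) (Sum.inr i) = ∑ l, incL k ι κ (B' l i) * y (Sum.inr l) := by
        have h2 : ∀ j, ∑ l, B j l * B' l i = (1 : Matrix κ κ (FF k ι)) j i := by
          intro j
          rw [← hB, Matrix.mul_apply]
        calc xc k (ι ⊕ κ) (Sum.inr i)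
            = ∑ j, incL k ι κ ((1 : Matrix κ κ (FF k ι)) j i) * xc k (ι ⊕ κ) (Sum.inr j) := by
              rw [Finset.sum_eq_single i]
              · simp
              · intro j _ hj
                rw [Matrix.one_apply_ne hj, map_zero, zero_mul]
              · simp
          _ = ∑ j, ∑ l, incL k ι κ (B' l i) * (incL k ι κ (B j l) * xc k (ι ⊕ κ) (Sum.inr j)) := by
              refine Finset.sum_congr rfl fun j _ => ?_
              rw [← h2, map_sum, Finset.sum_mul]
              refine Finset.sum_congr rfl fun l _ => ?_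
              rw [map_mul]
              ring
          _ = _ := by
              rw [Finset.sum_comm]
              refine Finset.sum_congr rfl fun l _ => ?_
              rw [← Finset.mul_sum]
              rfl
      rw [h1]
      refine sum_mem fun l _ => mul_mem (hL _) ?_
      exact IntermediateField.subset_adjoin k _ ⟨Sum.inr l, rfl⟩
  · intro g
    rintro (i | i)
    · change ffSub (dsum R RW g) (xc k (ι ⊕ κ) (Sum.inl i)) = _
      rw [ffSub_dsum_inl, Fintype.sum_sum_type, dsum_val]
      simp [y]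
    · have h1 : ∀ j, ∑ l, (algebraMap k (FF k ι) ((RW g : Matrix κ κ k) l j)) * ffSub (R g) (B l i) = B j i := by
        intro j
        have := congrFun (congrFun (hcov g) j) i
        rw [Matrix.mul_apply] at this
        exact this
      calc ffSub (dsum R RW g) (y (Sum.inr i))
          = ∑ j, incL k ι κ (ffSub (R g) (B j i)) *
              ∑ l, algebraMap k (FF k (ι ⊕ κ)) ((RW g : Matrix κ κ k) j l) * xc k (ι ⊕ κ) (Sum.inr l) := by
            change ffSub (dsum R RW g) (∑ j, incL k ι κ (B j i) * xc k (ι ⊕ κ) (Sum.inr j)) = _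
            rw [map_sum]
            refine Finset.sum_congr rfl fun j _ => ?_
            rw [map_mul, ffSub_incL, ffSub_dsum_inr]
        _ = ∑ l, incL k ι κ (∑ j, (algebraMap k (FF k ι) ((RW g : Matrix κ κ k) j l)) * ffSub (R g) (B j i)) *
              xc k (ι ⊕ κ) (Sum.inr l) := by
            simp only [Finset.mul_sum, map_sum, Finset.sum_mul]
            rw [Finset.sum_comm]
            refine Finset.sum_congr rfl fun l _ => Finset.sum_congr rfl fun j _ => ?_
            rw [map_mul, AlgHom.commutes]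
            ring
        _ = y (Sum.inr i) := by
            change _ = ∑ j, incL k ι κ (B j i) * xc k (ι ⊕ κ) (Sum.inr j)
            refine Finset.sum_congr rfl fun j _ => ?_
            rw [h1]
        _ = _ := by
            rw [Fintype.sum_sum_type, dsum_val]
            have h3 : ((1 : G →* GL κ k) g : Matrix κ κ k) = 1 := rfl
            simp only [Matrix.fromBlocks_apply₂₁, Matrix.fromBlocks_apply₂₂, Matrix.zero_apply, map_zero,
              zero_mul, Finset.sum_const_zero, zero_add, h3]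
            rw [Finset.sum_eq_single i]
            · simp
            · intro j _ hj
              rw [Matrix.one_apply_ne hj.symm, map_zero, zero_mul]
            · simp

end general

section SL

variable {k : Type*} [Field k]
variable {I : Type*} [Fintype I] [DecidableEq I] {n : I → ℕ}
variable {ι : Type*} [Fintype ι] [DecidableEq ι] {κ : Type*} [Fintype κ] [DecidableEq κ]

/-- index set of the matrix entries -/
abbrev En (n : I → ℕ) : Type _ := Ent (fun i => Fin (n i))

/-- rationality of a matrix representation of `∏ SL_{n_i}(k)` -/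
def IsRt (R : SLP k n →* GL ι k) : Prop :=
  ∃ P : Matrix ι ι (MvPolynomial (En n) k), ∀ g, (R g : Matrix ι ι k) = ev P (toT g)

/-- multiply the column `z i` by `δ i` -/
def scl {S : Type*} [CommRing S] (z : ∀ i, Fin (n i)) (δ : I → S) (h : MatT (fun i => Fin (n i)) S) :
    MatT (fun i => Fin (n i)) S :=
  fun i => h i * Matrix.diagonal (Function.update 1 (z i) (δ i))

theorem scl_det {S : Type*} [CommRing S] (z : ∀ i, Fin (n i)) (δ : I → S)
    (h : MatT (fun i => Fin (n i)) S) (i : I) : (scl z δ h i).det = (h i).det * δ i := by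
  rw [scl, Matrix.det_mul, Matrix.det_diagonal]
  congr 1
  rw [Finset.prod_eq_single (z i)]
  · simp
  · intro j _ hj
    simp [Function.update_of_ne hj]
  · simp

theorem scl_one {S : Type*} [CommRing S] (z : ∀ i, Fin (n i)) (δ : I → S) (hδ : ∀ i, δ i = 1)
    (h : MatT (fun i => Fin (n i)) S) : scl z δ h = h := by
  funext i
  rw [scl, hδ]
  have : Function.update (1 : Fin (n i) → S) (z i) 1 = 1 := by
    funext j
    by_cases hj : j = z i
    · subst hj; simp
    · rw [Function.update_of_ne hj]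
  rw [this, Matrix.diagonal_one', Matrix.mul_one]

theorem mapT_scl {S T : Type*} [CommRing S] [CommRing T] (φ : S →+* T) (z : ∀ i, Fin (n i)) (δ : I → S)
    (h : MatT (fun i => Fin (n i)) S) : mapT φ (scl z δ h) = scl z (fun i => φ (δ i)) (mapT φ h) := by
  funext i
  change (h i * Matrix.diagonal (Function.update 1 (z i) (δ i))).map φ = _
  rw [Matrix.map_mul]
  change (h i).map φ * _ = (h i).map φ * _
  congr 1
  rw [Matrix.diagonal_map (map_zero φ)]
  congr 1
  funext j
  by_cases hj : j = z i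
  · subst hj; simp
  · simp [Function.update_of_ne hj]

end SL

end VSum
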