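import Mathlib
import Pool.Agent.Helper59.VSum.NoName

/-!
# Birational isomorphisms from parametrizations
-/

set_option linter.unusedSectionVars false
set_option linter.style.haveILetI false

open MvPolynomial Matrix VDual

namespace VSum

variable {k : Type*} [Field k] {G : Type*} [Group G]
variable {κ1 κ2 : Type*} [Fintype κ1] [DecidableEq κ1] [Fintype κ2] [DecidableEq κ2]

theorem bir_of_param (R : G →* GL κ1 k) (R' : G →* GL κ2 k) (hcard : Fintype.card κ2 = Fintype.card κ1)
    {S : Type*} [CommRing S] [IsDomain S] [Algebra k S] (u : κ1 → S) (ψ : κ2 → S)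
    (hinj : ∀ p : MvPolynomial κ1 k, aeval u p = 0 → p = 0)
    (h1 : ∀ t, ∃ P Q : MvPolynomial κ1 k, aeval u Q ≠ 0 ∧ ψ t * aeval u Q = aeval u P)
    (h2 : ∀ t, ∃ P Q : MvPolynomial κ2 k, aeval ψ Q ≠ 0 ∧ u t * aeval ψ Q = aeval ψ P)
    (α : G → S →ₐ[k] S)
    (hα1 : ∀ g t, α g (u t) = ∑ j, algebraMap k S ((R g : Matrix κ1 κ1 k) t j) * u j)
    (hα2 : ∀ g t, α g (ψ t) = ∑ j, algebraMap k S ((R' g : Matrix κ2 κ2 k) t j) * ψ j) :
    Bir R R' := by
  classical
  let E := FractionRing S
  have hinjE : Function.Injective (algebraMap S E) := IsFractionRing.injective S E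
  choose P Q hQ hPQ using h1
  let uE : κ1 → E := fun t => algebraMap S E (u t)
  have hauE : ∀ p : MvPolynomial κ1 k, aeval uE p = algebraMap S E (aeval u p) := by
    intro p
    have : aeval uE = (IsScalarTower.toAlgHom k S E).comp (aeval u) := by
      apply MvPolynomial.algHom_ext
      intro i
      simp [uE]
    rw [this]
    rfl
  have hinjU : Function.Injective (aeval uE : MvPolynomial κ1 k →ₐ[k] E) := by
    rw [injective_iff_map_eq_zero]
    intro p hp
    rw [hauE] at hp
    exact hinj p (hinjE (by rw [hp, map_zero]))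
  let j : FF k κ1 →ₐ[k] E := IsFractionRing.liftAlgHom (K := FF k κ1) (g := aeval uE) hinjU
  have hj : ∀ p : MvPolynomial κ1 k, j (algebraMap (MvPolynomial κ1 k) (FF k κ1) p) =
      algebraMap S E (aeval u p) := by
    intro p
    rw [← hauE]
    exact IsFractionRing.lift_algebraMap hinjU p
  have hjinj : Function.Injective j := j.toRingHom.injective
  have hjxc : ∀ t, j (xc k κ1 t) = algebraMap S E (u t) := by
    intro t
    rw [xc, hj, aeval_X]
  let Ψ : κ2 → FF k κ1 := fun t =>
    algebraMap (MvPolynomial κ1 k) (FF k κ1) (P t) / algebraMap (MvPolynomial κ1 k) (FF k κ1) (Q t)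
  have hjΨ : ∀ t, j (Ψ t) = algebraMap S E (ψ t) := by
    intro t
    simp only [Ψ]
    rw [map_div₀, hj, hj, ← hPQ, map_mul, mul_div_assoc, div_self, mul_one]
    intro h0
    exact hQ t (hinjE (by rw [h0, map_zero]))
  have hjaΨ : ∀ p : MvPolynomial κ2 k, j (aeval Ψ p) = algebraMap S E (aeval ψ p) := by
    intro p
    have : j.comp (aeval Ψ) = (IsScalarTower.toAlgHom k S E).comp (aeval ψ) := by
      apply MvPolynomial.algHom_ext
      intro i
      rw [AlgHom.comp_apply, AlgHom.comp_apply, aeval_X, aeval_X, hjΨ]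
      rfl
    exact DFunLike.congr_fun this p
  refine Bir.mk R R' Ψ hcard ?_ ?_
  · apply adjoin_eq_top_of_xc_mem
    intro t
    obtain ⟨P2, Q2, hQ2, hPQ2⟩ := h2 t
    rw [IntermediateField.mem_adjoin_range_iff]
    refine ⟨P2, Q2, ?_⟩
    apply hjinj
    rw [map_div₀, hjaΨ, hjaΨ, ← hPQ2, map_mul, mul_div_assoc, div_self, mul_one, hjxc]
    intro h0
    exact hQ2 (hinjE (by rw [h0, map_zero]))
  · intro g t
    -- polynomial level equivariance
    have hα : ∀ p : MvPolynomial κ1 k, aeval u (linSub (R g : Matrix κ1 κ1 k) p) = α g (aeval u p) := by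
      intro p
      have : (aeval u).comp (linSub (R g : Matrix κ1 κ1 k)) = (α g).comp (aeval u) := by
        apply MvPolynomial.algHom_ext
        intro i
        rw [AlgHom.comp_apply, AlgHom.comp_apply, aeval_X, hα1, linSub_X, map_sum]
        refine Finset.sum_congr rfl fun j _ => ?_
        rw [map_mul, aeval_C, aeval_X]
      exact DFunLike.congr_fun this p
    have hQne : aeval u (linSub (R g : Matrix κ1 κ1 k) (Q t)) ≠ 0 := by
      intro h0
      have h3 := hinj _ h0
      have h4 : Q t = 0 := by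
        have h5 : linSubEquiv (R g) (Q t) = linSub (R g : Matrix κ1 κ1 k) (Q t) := rfl
        rw [← h5] at h3
        exact (map_eq_zero_iff _ (linSubEquiv (R g)).injective).mp h3
      exact hQ t (by rw [h4, map_zero])
    apply hjinj
    have h3 : j (ffSub (R g) (Ψ t)) = algebraMap S E (α g (ψ t)) := by
      simp only [Ψ]
      rw [map_div₀, ffSub_algebraMap, ffSub_algebraMap, map_div₀, hj, hj, hα, hα, ← hPQ, map_mul,
        map_mul, mul_div_assoc, div_self, mul_one]
      rw [← hα]
      intro h0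
      exact hQne (hinjE (by rw [h0, map_zero]))
    rw [h3, hα2, map_sum, map_sum]
    refine Finset.sum_congr rfl fun l _ => ?_
    rw [map_mul, map_mul, hjΨ, AlgHom.commutes]
    congr 1

/-- a birational isomorphism extends by trivial summands -/
theorem Bir.addTriv {R : G →* GL κ1 k} {R' : G →* GL κ2 k} (h : Bir R R')
    (hcard : Fintype.card κ2 = Fintype.card κ1) (κ : Type*) [Fintype κ] [DecidableEq κ] :
    Bir (dsum R (1 : G →* GL κ k)) (dsum R' (1 : G →* GL κ k)) := by
  obtain ⟨Θ, hΘ⟩ := h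
  let y : κ2 ⊕ κ → FF k (κ1 ⊕ κ) := Sum.elim (fun i => incL k κ1 κ (Θ (xc k κ2 i)))
    (fun j => xc k (κ1 ⊕ κ) (Sum.inr j))
  refine Bir.mk _ _ y (by rw [Fintype.card_sum, Fintype.card_sum, hcard]) ?_ ?_
  · apply adjoin_eq_top_of_xc_mem
    rintro (i | i)
    · let ζ : FF k κ2 →ₐ[k] FF k (κ1 ⊕ κ) := (incL k κ1 κ).comp (Θ : FF k κ2 →ₐ[k] FF k κ1)
      have h1 : xc k (κ1 ⊕ κ) (Sum.inl i) = ζ (Θ.symm (xc k κ1 i)) := by
        change _ = incL k κ1 κ (Θ (Θ.symm (xc k κ1 i)))
        rw [AlgEquiv.apply_symm_apply, incL_xc]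
      rw [h1]
      have h2 : Θ.symm (xc k κ1 i) ∈ IntermediateField.adjoin k (Set.range (xc k κ2)) := by
        rw [adjoin_xc]
        exact IntermediateField.mem_top
      have h3 : ζ (Θ.symm (xc k κ1 i)) ∈ (IntermediateField.adjoin k (Set.range (xc k κ2))).map ζ :=
        ⟨_, h2, rfl⟩
      rw [IntermediateField.adjoin_map] at h3
      refine IntermediateField.adjoin_le_iff.mpr ?_ h3
      rintro _ ⟨_, ⟨l, rfl⟩, rfl⟩
      exact IntermediateField.subset_adjoin k _ ⟨Sum.inl l, rfl⟩
    · exact IntermediateField.subset_adjoin k _ ⟨Sum.inr i, rfl⟩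
  · intro g
    rintro (i | i)
    · change ffSub (dsum R 1 g) (incL k κ1 κ (Θ (xc k κ2 i))) = _
      rw [ffSub_incL, ← hΘ, ffSub_xc, map_sum, map_sum, Fintype.sum_sum_type, dsum_val]
      simp only [Matrix.fromBlocks_apply₁₁, Matrix.fromBlocks_apply₁₂, Matrix.zero_apply, map_zero,
        zero_mul, Finset.sum_const_zero, add_zero]
      refine Finset.sum_congr rfl fun l _ => ?_
      rw [map_mul, map_mul, AlgEquiv.commutes, AlgHom.commutes]
      rfl
    · change ffSub (dsum R 1 g) (xc k (κ1 ⊕ κ) (Sum.inr i)) = _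
      rw [ffSub_dsum_inr, Fintype.sum_sum_type, dsum_val]
      have h3 : ((1 : G →* GL κ k) g : Matrix κ κ k) = 1 := rfl
      simp only [Matrix.fromBlocks_apply₂₁, Matrix.fromBlocks_apply₂₂, Matrix.zero_apply, map_zero,
        zero_mul, Finset.sum_const_zero, zero_add, h3]
      rfl

end VSum
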