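import Mathlib
import Pool.Agent.Helper59.VDual.TraceTr
import Pool.Agent.Helper59.VSum.NoName

/-!
# Weight projections of a polynomial representation of `∏ Mat_{n_i}`
-/

set_option linter.unusedSectionVars false
set_option linter.style.haveILetI false

open MvPolynomial Matrix VDual

namespace VSum

variable {k : Type*} [Field k]
variable {I : Type*} [Fintype I] [DecidableEq I] {n : I → ℕ}
variable {ι : Type*} [Fintype ι] [DecidableEq ι]

/-- index set of the diagonal entries -/
abbrev Tn (n : I → ℕ) : Type _ := Σ i, Fin (n i)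

/-- diagonal tuples -/
def diagT {S : Type*} [CommRing S] (t : Tn n → S) : MatT (fun i => Fin (n i)) S :=
  fun i => Matrix.diagonal fun p => t ⟨i, p⟩

theorem mapT_diagT {S T : Type*} [CommRing S] [CommRing T] (φ : S →+* T) (t : Tn n → S) :
    mapT φ (diagT t) = diagT (fun e => φ (t e)) := by
  funext i
  exact Matrix.diagonal_map (map_zero φ)

theorem diagT_mul {S : Type*} [CommRing S] (s t : Tn n → S) :
    diagT s * diagT t = diagT (fun e => s e * t e) := by
  funext i
  exact Matrix.diagonal_mul_diagonal _ _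

theorem diagT_one {S : Type*} [CommRing S] : diagT (fun _ => (1 : S)) = (1 : MatT (fun i => Fin (n i)) S) := by
  funext i
  exact Matrix.diagonal_one

theorem trT_diagT {S : Type*} [CommRing S] (t : Tn n → S) : trT (diagT t) = diagT t := by
  funext i
  exact Matrix.diagonal_transpose _

variable (ρ : PolyRep k (fun i => Fin (n i)) ι)

/-- `ρ(diag(X))` -/
noncomputable def FX : Matrix ι ι (MvPolynomial (Tn n) k) := ev ρ.P (diagT X)

/-- weight projections -/
noncomputable def Pw (ν : Tn n →₀ ℕ) : Matrix ι ι k := (FX ρ).map (coeff ν)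

/-- the set of weights -/
noncomputable def wts : Finset (Tn n →₀ ℕ) :=
  Finset.univ.biUnion fun a => Finset.univ.biUnion fun b => (FX ρ a b).support

theorem mem_wts (ν : Tn n →₀ ℕ) : ν ∈ wts ρ ↔ Pw ρ ν ≠ 0 := by
  constructor
  · intro h h0
    simp only [wts, Finset.mem_biUnion, Finset.mem_univ, true_and, mem_support_iff] at h
    obtain ⟨a, b, h⟩ := h
    exact h (congrFun (congrFun h0 a) b)
  · intro h
    by_contra hcon
    apply h
    ext a b
    simp only [wts, Finset.mem_biUnion, Finset.mem_univ, true_and, mem_support_iff, not_exists,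
      not_not] at hcon
    exact hcon a b

theorem FX_eval (t : Tn n → k) : (FX ρ).map (eval t) = ev ρ.P (diagT t) := by
  have h1 := ev_map (aeval t : MvPolynomial (Tn n) k →ₐ[k] k) ρ.P (diagT X)
  have h2 := mapT_diagT ((aeval t : MvPolynomial (Tn n) k →ₐ[k] k) : MvPolynomial (Tn n) k →+* k)
    (X : Tn n → MvPolynomial (Tn n) k)
  have h3 : (fun e => ((aeval t : MvPolynomial (Tn n) k →ₐ[k] k) : MvPolynomial (Tn n) k →+* k) (X e)) = t := by
    funext e
    exact aeval_X _ _
  rw [h3] at h2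
  have h4 : mapT (aeval t : MvPolynomial (Tn n) k →ₐ[k] k) (diagT X) = diagT t := h2
  rw [h4] at h1
  exact h1

theorem ev_diagT (t : Tn n → k) :
    ev ρ.P (diagT t) = ∑ ν ∈ wts ρ, (ν.prod fun e c => t e ^ c) • Pw ρ ν := by
  rw [← FX_eval]
  ext a b
  rw [Matrix.map_apply, Matrix.sum_apply]
  conv_lhs => rw [(FX ρ a b).as_sum, map_sum]
  have h1 : (FX ρ a b).support ⊆ wts ρ := by
    intro ν hν
    simp only [wts, Finset.mem_biUnion, Finset.mem_univ, true_and]
    exact ⟨a, b, hν⟩
  rw [Finset.sum_subset h1]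
  · refine Finset.sum_congr rfl fun ν _ => ?_
    rw [eval_monomial, Matrix.smul_apply, smul_eq_mul, mul_comm]
    rfl
  · intro ν _ hν
    rw [notMem_support_iff.mp hν, monomial_zero, map_zero]

theorem sum_Pw : ∑ ν ∈ wts ρ, Pw ρ ν = 1 := by
  have h1 := ev_diagT ρ (fun _ => 1)
  rw [diagT_one, ρ.one] at h1
  rw [h1]
  refine Finset.sum_congr rfl fun ν _ => ?_
  rw [Finsupp.prod]
  simp

theorem coeff_scale (s : Tn n → k) (f : MvPolynomial (Tn n) k) (ν : Tn n →₀ ℕ) :
    coeff ν (aeval (fun e => C (s e) * X e : Tn n → MvPolynomial (Tn n) k) f) =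
      (ν.prod fun e c => s e ^ c) * coeff ν f := by
  classical
  induction f using MvPolynomial.induction_on' with
  | monomial μ a =>
    have h1 : aeval (fun e => C (s e) * X e : Tn n → MvPolynomial (Tn n) k) (monomial μ a) =
        monomial μ ((μ.prod fun e c => s e ^ c) * a) := by
      rw [aeval_monomial]
      have h2 : (μ.prod fun e c => (C (s e) * X e : MvPolynomial (Tn n) k) ^ c) =
          C (μ.prod fun e c => s e ^ c) * monomial μ 1 := by
        simp only [Finsupp.prod, mul_pow, Finset.prod_mul_distrib, map_prod, map_pow]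
        congr 1
        rw [monomial_eq, map_one, one_mul]
        rfl
      rw [h2, ← mul_assoc, MvPolynomial.algebraMap_eq, ← map_mul, C_mul_monomial, mul_one, mul_comm a]
    rw [h1, coeff_monomial, coeff_monomial]
    split_ifs with h
    · rw [h]
    · rw [mul_zero]
  | add p q hp hq => rw [map_add, coeff_add, coeff_add, hp, hq, mul_add]

theorem Pw_mul_ev [Infinite k] (ν : Tn n →₀ ℕ) (s : Tn n → k) :
    Pw ρ ν * ev ρ.P (diagT s) = (ν.prod fun e c => s e ^ c) • Pw ρ ν := by
  -- `F(X) F(s) = F(X s)`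
  have h1 : FX ρ * (ev ρ.P (diagT s)).map (C : k →+* MvPolynomial (Tn n) k) =
      (FX ρ).map (aeval (fun e => C (s e) * X e : Tn n → MvPolynomial (Tn n) k)) := by
    have h2 : (ev ρ.P (diagT s)).map (C : k →+* MvPolynomial (Tn n) k) =
        ev ρ.P (diagT (fun e => (C (s e) : MvPolynomial (Tn n) k))) := by
      have h3 := ev_map (Algebra.ofId k (MvPolynomial (Tn n) k)) ρ.P (diagT s)
      have h4 := mapT_diagT (C : k →+* MvPolynomial (Tn n) k) s
      refine h3.trans ?_
      congr 1
    have h5 : (FX ρ).map (aeval (fun e => C (s e) * X e : Tn n → MvPolynomial (Tn n) k)) =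
        ev ρ.P (diagT (fun e => (C (s e) * X e : MvPolynomial (Tn n) k))) := by
      have h3 := ev_map (aeval (fun e => C (s e) * X e : Tn n → MvPolynomial (Tn n) k)) ρ.P (diagT X)
      have h4 := mapT_diagT ((aeval (fun e => C (s e) * X e : Tn n → MvPolynomial (Tn n) k) :
        MvPolynomial (Tn n) k →ₐ[k] MvPolynomial (Tn n) k) : MvPolynomial (Tn n) k →+* MvPolynomial (Tn n) k)
        (X : Tn n → MvPolynomial (Tn n) k)
      refine h3.trans ?_
      congr 1
      refine h4.trans ?_
      congr 1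
      funext e
      exact aeval_X _ _
    rw [h2, h5, FX, ← ρ.mul', diagT_mul]
    congr 1
    congr 1
    funext e
    exact mul_comm _ _
  ext a b
  have h2 := congrArg (coeff ν) (congrFun (congrFun h1 a) b)
  rw [Matrix.map_apply, coeff_scale, Matrix.mul_apply, coeff_sum] at h2
  rw [Matrix.mul_apply, Matrix.smul_apply, smul_eq_mul]
  refine Eq.trans ?_ h2
  refine Finset.sum_congr rfl fun c _ => ?_
  rw [Matrix.map_apply, mul_comm (FX ρ a c), coeff_C_mul, mul_comm]
  rfl

theorem Pw_mul_Pw [Infinite k] [DecidableEq (Tn n →₀ ℕ)] (ν μ : Tn n →₀ ℕ) :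
    Pw ρ ν * Pw ρ μ = if μ = ν then Pw ρ ν else 0 := by
  ext a b
  have h1 : ∑ c, C (Pw ρ ν a c) * FX ρ c b = monomial ν (Pw ρ ν a b) := by
    apply MvPolynomial.funext
    intro s
    rw [map_sum, eval_monomial]
    have h2 := congrFun (congrFun (Pw_mul_ev ρ ν s) a) b
    rw [Matrix.mul_apply, Matrix.smul_apply, smul_eq_mul, mul_comm] at h2
    refine Eq.trans ?_ h2
    refine Finset.sum_congr rfl fun c _ => ?_
    rw [map_mul, eval_C]
    congr 1
    exact congrFun (congrFun (FX_eval ρ s) c) b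
  have h3 := congrArg (coeff μ) h1
  rw [coeff_sum, coeff_monomial] at h3
  rw [Matrix.mul_apply]
  have h4 : ∑ c, Pw ρ ν a c * Pw ρ μ c b = ∑ c, coeff μ (C (Pw ρ ν a c) * FX ρ c b) := by
    refine Finset.sum_congr rfl fun c _ => ?_
    rw [coeff_C_mul]
    rfl
  rw [h4, h3]
  by_cases h : μ = ν
  · rw [if_pos h, if_pos h.symm]
  · rw [if_neg h, if_neg (fun h' => h h'.symm)]
    rfl

theorem Pw_mul_self [Infinite k] (ν : Tn n →₀ ℕ) : Pw ρ ν * Pw ρ ν = Pw ρ ν := by
  classical
  rw [Pw_mul_Pw, if_pos rfl]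

theorem Pw_mul_ne [Infinite k] {ν μ : Tn n →₀ ℕ} (h : μ ≠ ν) : Pw ρ ν * Pw ρ μ = 0 := by
  classical
  rw [Pw_mul_Pw, if_neg h]

theorem ev_mul_Pw [Infinite k] (ν : Tn n →₀ ℕ) (s : Tn n → k) :
    ev ρ.P (diagT s) * Pw ρ ν = (ν.prod fun e c => s e ^ c) • Pw ρ ν := by
  classical
  rw [ev_diagT, Finset.sum_mul]
  by_cases hν : ν ∈ wts ρ
  · rw [Finset.sum_eq_single ν]
    · rw [Matrix.smul_mul, Pw_mul_self]
    · intro μ _ hμ
      rw [Matrix.smul_mul, Pw_mul_ne ρ (Ne.symm hμ), smul_zero]
    · intro h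
      exact absurd hν h
  · rw [mem_wts, not_not] at hν
    rw [hν, smul_zero]
    apply Finset.sum_eq_zero
    intro μ _
    rw [mul_zero]

/-- the permutation of the diagonal entries -/
def permT (π : ∀ i, Equiv.Perm (Fin (n i))) : Equiv.Perm (Tn n) := Equiv.sigmaCongrRight π

theorem Pw_monomial [Infinite k] (m : MatT (fun i => Fin (n i)) k) (π : ∀ i, Equiv.Perm (Fin (n i)))
    (hm : ∀ i p q, m i p q ≠ 0 → q = π i p) (ν : Tn n →₀ ℕ) :
    Pw ρ ν * ev ρ.P m = ev ρ.P m * Pw ρ (ν.mapDomain (permT π)) := by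
  let cm : MatT (fun i => Fin (n i)) (MvPolynomial (Tn n) k) := mapT (C : k →+* MvPolynomial (Tn n) k) m
  have h1 : cm * diagT X = diagT (fun e => X (permT π e)) * cm := by
    funext i
    ext1 p q
    change (cm i * Matrix.diagonal (fun p => (X (⟨i, p⟩ : Tn n) : MvPolynomial (Tn n) k))) p q =
      (Matrix.diagonal (fun p => (X (permT π ⟨i, p⟩) : MvPolynomial (Tn n) k)) * cm i) p q
    rw [Matrix.mul_diagonal, Matrix.diagonal_mul]
    by_cases h : m i p q = 0
    · have h2 : cm i p q = 0 := by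
        change C (m i p q) = 0
        rw [h, map_zero]
      rw [h2, zero_mul, mul_zero]
    · have h2 := hm i p q h
      have h3 : permT π ⟨i, p⟩ = ⟨i, q⟩ := by
        rw [h2]
        rfl
      rw [h3, mul_comm]
  have h2 : ev ρ.P cm = (ev ρ.P m).map (C : k →+* MvPolynomial (Tn n) k) :=
    (ev_map (Algebra.ofId k (MvPolynomial (Tn n) k)) ρ.P m).symm
  have h3 : ev ρ.P (diagT (fun e => (X (permT π e) : MvPolynomial (Tn n) k))) = (FX ρ).map (rename (permT π)) := by
    have h4 := mapT_diagT ((rename (permT π) : MvPolynomial (Tn n) k →ₐ[k] MvPolynomial (Tn n) k) :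
      MvPolynomial (Tn n) k →+* MvPolynomial (Tn n) k) (X : Tn n → MvPolynomial (Tn n) k)
    refine Eq.trans ?_ (ev_map (rename (permT π)) ρ.P (diagT X)).symm
    congr 1
    refine Eq.trans ?_ h4.symm
    congr 1
    funext e
    exact (rename_X _ _).symm
  have h4 : (ev ρ.P m).map (C : k →+* MvPolynomial (Tn n) k) * FX ρ =
      (FX ρ).map (rename (permT π)) * (ev ρ.P m).map (C : k →+* MvPolynomial (Tn n) k) := by
    rw [← h3, ← h2, FX, ← ρ.mul', ← ρ.mul', h1]
  ext a b
  have h5 := congrArg (coeff (ν.mapDomain (permT π))) (congrFun (congrFun h4 a) b)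
  rw [Matrix.mul_apply, Matrix.mul_apply, coeff_sum, coeff_sum] at h5
  rw [Matrix.mul_apply, Matrix.mul_apply]
  calc ∑ j, Pw ρ ν a j * ev ρ.P m j b
      = ∑ j, coeff (ν.mapDomain (permT π)) ((FX ρ).map (rename (permT π)) a j *
          (ev ρ.P m).map (C : k →+* MvPolynomial (Tn n) k) j b) := by
        refine Finset.sum_congr rfl fun j _ => ?_
        rw [Matrix.map_apply, Matrix.map_apply, mul_comm (rename (permT π) (FX ρ a j)), coeff_C_mul,
          coeff_rename_mapDomain _ (permT π).injective, mul_comm]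
        rfl
    _ = ∑ j, coeff (ν.mapDomain (permT π)) ((ev ρ.P m).map (C : k →+* MvPolynomial (Tn n) k) a j *
          FX ρ j b) := h5.symm
    _ = _ := by
        refine Finset.sum_congr rfl fun j _ => ?_
        rw [Matrix.map_apply, coeff_C_mul]
        rfl

end VSum
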