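import Mathlib
import Pool.Agent.Helper59.VSum.Param
import Pool.Agent.Helper59.VSum.Weights

/-!
# The adjoint representation, on tuples of matrices modulo scalars
-/

set_option linter.unusedSectionVars false
set_option linter.style.haveILetI false

open MvPolynomial Matrix VDual

namespace VSum

variable {k : Type*} [Field k]
variable {I : Type*} [Fintype I] [DecidableEq I] {n : I → ℕ}

/-- index set of the coordinates modulo scalars -/
abbrev E0 (z : ∀ i, Fin (n i)) : Type _ := {e : En n // e ≠ ⟨e.1, (z e.1, z e.1)⟩}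

/-- coordinates modulo scalars -/
def co {S : Type*} [CommRing S] (z : ∀ i, Fin (n i)) (A : MatT (fun i => Fin (n i)) S) (e : En n) : S :=
  A e.1 e.2.1 e.2.2 - if e.2.1 = e.2.2 then A e.1 (z e.1) (z e.1) else 0

/-- matrix units -/
def unitT (S : Type*) [CommRing S] (f : En n) : MatT (fun i => Fin (n i)) S :=
  unpt (fun e => if e = f then 1 else 0)

theorem co_add {S : Type*} [CommRing S] (z : ∀ i, Fin (n i)) (A B : MatT (fun i => Fin (n i)) S) (e : En n) :
    co z (A + B) e = co z A e + co z B e := by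
  simp only [co, Pi.add_apply, Matrix.add_apply]
  split_ifs <;> ring

theorem co_smul {S : Type*} [CommRing S] (z : ∀ i, Fin (n i)) (c : S) (A : MatT (fun i => Fin (n i)) S) (e : En n) :
    co z (c • A) e = c * co z A e := by
  simp only [co, Pi.smul_apply, Matrix.smul_apply, smul_eq_mul]
  split_ifs <;> ring

theorem co_sum {S : Type*} [CommRing S] {ζ : Type*} (s : Finset ζ) (z : ∀ i, Fin (n i))
    (A : ζ → MatT (fun i => Fin (n i)) S) (e : En n) :
    co z (∑ x ∈ s, A x) e = ∑ x ∈ s, co z (A x) e := by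
  classical
  induction s using Finset.induction_on with
  | empty => simp [co]
  | insert a s ha ih => rw [Finset.sum_insert ha, Finset.sum_insert ha, co_add, ih]

theorem co_scal {S : Type*} [CommRing S] (z : ∀ i, Fin (n i)) (c : I → S) (e : En n) :
    co z (scal c) e = 0 := by
  simp only [co, scal, Matrix.smul_apply, smul_eq_mul, Matrix.one_apply_eq]
  split_ifs with h
  · rw [h, Matrix.one_apply_eq, sub_self]
  · rw [Matrix.one_apply_ne h, mul_zero, sub_zero]

theorem co_zz {S : Type*} [CommRing S] (z : ∀ i, Fin (n i)) (A : MatT (fun i => Fin (n i)) S) (i : I) :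
    co z A (⟨i, (z i, z i)⟩ : En n) = 0 := by
  simp [co]

theorem eq_sum_co {S : Type*} [CommRing S] (z : ∀ i, Fin (n i)) (A : MatT (fun i => Fin (n i)) S) :
    A = (∑ f : E0 z, co z A f.1 • unitT S f.1) + scal (fun i => A i (z i) (z i)) := by
  have h1 : A - scal (fun i => A i (z i) (z i)) = ∑ f : En n, co z A f • unitT S f := by
    funext i
    ext1 p q
    rw [Finset.sum_apply, Matrix.sum_apply, Finset.sum_eq_single (⟨i, (p, q)⟩ : En n)]
    · have h2 : unitT S (⟨i, (p, q)⟩ : En n) i p q = 1 := by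
        change (if (⟨i, (p, q)⟩ : En n) = ⟨i, (p, q)⟩ then (1 : S) else 0) = 1
        rw [if_pos rfl]
      change A i p q - (A i (z i) (z i) • (1 : Matrix (Fin (n i)) (Fin (n i)) S)) p q =
        co z A (⟨i, (p, q)⟩ : En n) * unitT S (⟨i, (p, q)⟩ : En n) i p q
      rw [h2, mul_one, Matrix.smul_apply, smul_eq_mul]
      simp only [co]
      split_ifs with h
      · rw [h, Matrix.one_apply_eq, mul_one]
      · rw [Matrix.one_apply_ne h, mul_zero]
    · intro f _ hf
      have h2 : unitT S f i p q = 0 := by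
        change (if (⟨i, (p, q)⟩ : En n) = f then (1 : S) else 0) = 0
        rw [if_neg (Ne.symm hf)]
      change co z A f * unitT S f i p q = 0
      rw [h2, mul_zero]
    · intro h
      exact absurd (Finset.mem_univ _) h
  have h2 : ∑ f : En n, co z A f • unitT S f = ∑ f : E0 z, co z A f.1 • unitT S f.1 := by
    have h3 : ∑ f : E0 z, co z A f.1 • unitT S f.1 =
        ∑ f ∈ Finset.univ.filter (fun e : En n => e ≠ ⟨e.1, (z e.1, z e.1)⟩), co z A f • unitT S f := by
      symm
      apply Finset.sum_subtype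
      intro x
      simp
    rw [h3, Finset.sum_filter]
    refine Finset.sum_congr rfl fun f _ => ?_
    split_ifs with h
    · rfl
    · rw [not_not] at h
      rw [h, co_zz, zero_smul]
  rw [← h2, ← h1, sub_add_cancel]

/-- the matrix of the conjugation `A ↦ g A g'` modulo scalars -/
def AdM {S : Type*} [CommRing S] (z : ∀ i, Fin (n i)) (g g' : MatT (fun i => Fin (n i)) S) :
    Matrix (E0 z) (E0 z) S :=
  Matrix.of fun e f => co z (g * unitT S f.1 * g') e.1

theorem AdM_apply {S : Type*} [CommRing S] (z : ∀ i, Fin (n i)) (g g' : MatT (fun i => Fin (n i)) S)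
    (hg : g * g' = 1) (A : MatT (fun i => Fin (n i)) S) (e : E0 z) :
    co z (g * A * g') e.1 = ∑ f, AdM z g g' e f * co z A f.1 := by
  conv_lhs => rw [eq_sum_co z A]
  have h1 : g * scal (fun i => A i (z i) (z i)) * g' = scal (fun i => A i (z i) (z i)) := by
    rw [mul_scal]
    funext i
    change (A i (z i) (z i) • g i) * g' i = A i (z i) (z i) • 1
    rw [Matrix.smul_mul]
    congr 1
    exact congrFun hg i
  rw [mul_add, add_mul, co_add, h1, co_scal, add_zero, Finset.mul_sum, Finset.sum_mul, co_sum]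
  refine Finset.sum_congr rfl fun f _ => ?_
  have h2 : g * (co z A f.1 • unitT S f.1) * g' = co z A f.1 • (g * unitT S f.1 * g') := by
    funext i
    change g i * (co z A f.1 • unitT S f.1 i) * g' i = co z A f.1 • (g i * unitT S f.1 i * g' i)
    rw [Matrix.mul_smul, Matrix.smul_mul]
  rw [h2, co_smul, mul_comm]
  rfl

theorem AdM_mul {S : Type*} [CommRing S] (z : ∀ i, Fin (n i)) (g g' h h' : MatT (fun i => Fin (n i)) S)
    (hg : g * g' = 1) : AdM z (g * h) (h' * g') = AdM z g g' * AdM z h h' := by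
  ext e f
  rw [Matrix.mul_apply]
  have h1 := AdM_apply z g g' hg (h * unitT S f.1 * h') e
  have h2 : g * (h * unitT S f.1 * h') * g' = g * h * unitT S f.1 * (h' * g') := by
    simp only [mul_assoc]
  rw [h2] at h1
  exact h1

theorem unitT_zz_ne (z : ∀ i, Fin (n i)) (f : E0 z) (i : I) : (⟨i, (z i, z i)⟩ : En n) ≠ f.1 := by
  intro h
  apply f.2
  rw [← h]

theorem AdM_one {S : Type*} [CommRing S] (z : ∀ i, Fin (n i)) :
    AdM z (1 : MatT (fun i => Fin (n i)) S) 1 = 1 := by
  ext e f
  change co z (1 * unitT S f.1 * 1) e.1 = _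
  rw [one_mul, mul_one]
  simp only [co]
  have h1 : unitT S f.1 e.1.1 (z e.1.1) (z e.1.1) = 0 := by
    change (if (⟨e.1.1, (z e.1.1, z e.1.1)⟩ : En n) = f.1 then (1 : S) else 0) = 0
    rw [if_neg (unitT_zz_ne z f _)]
  rw [h1, ite_self, sub_zero]
  change (if (⟨e.1.1, (e.1.2.1, e.1.2.2)⟩ : En n) = f.1 then (1 : S) else 0) = _
  by_cases h : e = f
  · rw [h, Matrix.one_apply_eq, if_pos rfl]
  · rw [Matrix.one_apply_ne h, if_neg]
    intro h2
    exact h (Subtype.ext h2)

theorem map_co {S T : Type*} [CommRing S] [CommRing T] (φ : S →+* T) (z : ∀ i, Fin (n i))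
    (A : MatT (fun i => Fin (n i)) S) (e : En n) : φ (co z A e) = co z (mapT φ A) e := by
  simp only [co, map_sub]
  congr 1
  split_ifs
  · rfl
  · exact map_zero φ

theorem mapT_unitT {S T : Type*} [CommRing S] [CommRing T] (φ : S →+* T) (f : En n) :
    mapT φ (unitT S f) = unitT T f := by
  funext i
  ext1 p q
  change φ (if (⟨i, (p, q)⟩ : En n) = f then (1 : S) else 0) = if (⟨i, (p, q)⟩ : En n) = f then (1 : T) else 0
  split_ifs
  · exact map_one φ
  · exact map_zero φ

theorem map_AdM {S T : Type*} [CommRing S] [CommRing T] (φ : S →+* T) (z : ∀ i, Fin (n i))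
    (g g' : MatT (fun i => Fin (n i)) S) : (AdM z g g').map φ = AdM z (mapT φ g) (mapT φ g') := by
  ext e f
  change φ (co z (g * unitT S f.1 * g') e.1) = co z (mapT φ g * unitT T f.1 * mapT φ g') e.1
  rw [map_co, mapT_mul, mapT_mul, mapT_unitT]

/-- the adjugate of a tuple -/
def adjT {S : Type*} [CommRing S] (g : MatT (fun i => Fin (n i)) S) : MatT (fun i => Fin (n i)) S :=
  fun i => (g i).adjugate

theorem mapT_adjT {S T : Type*} [CommRing S] [CommRing T] (φ : S →+* T)
    (g : MatT (fun i => Fin (n i)) S) : mapT φ (adjT g) = adjT (mapT φ g) := by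
  funext i
  exact RingHom.map_adjugate φ (g i)

theorem toT_inv (g : SLP k n) : toT g⁻¹ = adjT (toT g) := by
  funext i
  exact Matrix.SpecialLinearGroup.coe_inv (g i)

/-- the adjoint representation -/
def Ad0 (k : Type*) [Field k] (z : ∀ i, Fin (n i)) : SLP k n →* GL (E0 z) k where
  toFun g :=
    { val := AdM z (toT g) (toT g⁻¹)
      inv := AdM z (toT g⁻¹) (toT g)
      val_inv := by
        rw [← AdM_mul z _ _ _ _ (by rw [← toT_mul, mul_inv_cancel, toT_one]), ← toT_mul, mul_inv_cancel,
          toT_one, AdM_one]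
      inv_val := by
        rw [← AdM_mul z _ _ _ _ (by rw [← toT_mul, inv_mul_cancel, toT_one]), ← toT_mul, inv_mul_cancel,
          toT_one, AdM_one] }
  map_one' := by
    apply Units.ext
    change AdM z (toT 1) (toT 1⁻¹) = 1
    rw [inv_one, toT_one, AdM_one]
  map_mul' g h := by
    apply Units.ext
    change AdM z (toT (g * h)) (toT (g * h)⁻¹) = AdM z (toT g) (toT g⁻¹) * AdM z (toT h) (toT h⁻¹)
    rw [← AdM_mul z _ _ _ _ (by rw [← toT_mul, mul_inv_cancel, toT_one]), ← toT_mul, ← toT_mul, _root_.mul_inv_rev]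

theorem Ad0_val (z : ∀ i, Fin (n i)) (g : SLP k n) :
    (Ad0 k z g : Matrix (E0 z) (E0 z) k) = AdM z (toT g) (toT g⁻¹) := rfl

theorem Ad0_isRt (z : ∀ i, Fin (n i)) : IsRt (Ad0 k z) := by
  refine ⟨AdM z (gen (fun i => Fin (n i)) k) (adjT (gen (fun i => Fin (n i)) k)), ?_⟩
  intro g
  rw [Ad0_val, toT_inv]
  have h1 := map_AdM ((aeval (pt (toT g)) : MvPolynomial (En n) k →ₐ[k] k) : MvPolynomial (En n) k →+* k) z
    (gen (fun i => Fin (n i)) k) (adjT (gen (fun i => Fin (n i)) k))
  rw [mapT_adjT] at h1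
  have h2 : mapT ((aeval (pt (toT g)) : MvPolynomial (En n) k →ₐ[k] k) : MvPolynomial (En n) k →+* k)
      (gen (fun i => Fin (n i)) k) = toT g := by
    funext i
    ext1 p q
    change aeval (pt (toT g)) (X (⟨i, (p, q)⟩ : En n)) = toT g i p q
    rw [aeval_X]
    rfl
  rw [h2] at h1
  exact h1.symm

/-- central elements act trivially -/
theorem Ad0_central (z : ∀ i, Fin (n i)) (g : SLP k n) (c : I → k) (hc : toT g = scal c) :
    Ad0 k z g = 1 := by
  apply Units.ext
  rw [Ad0_val, Units.val_one]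
  have h1 : toT g * toT g⁻¹ = 1 := by rw [← toT_mul, mul_inv_cancel, toT_one]

  rw [← AdM_one z]
  ext e f
  change co z (toT g * unitT k f.1 * toT g⁻¹) e.1 = co z (1 * unitT k f.1 * 1) e.1
  have h3 : toT g * unitT k f.1 * toT g⁻¹ = unitT k f.1 := by
    have h4 : toT g * unitT k f.1 = unitT k f.1 * toT g := by
      rw [hc, scal_mul, mul_scal]
    rw [h4, mul_assoc, h1, mul_one]
  rw [h3, one_mul, mul_one]

theorem card_E0 (z : ∀ i, Fin (n i)) : Fintype.card (E0 z) = ∑ i, (n i ^ 2 - 1) := by
  classical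
  have h1 : Fintype.card (E0 z) = Fintype.card (Σ i, {pq : Fin (n i) × Fin (n i) // pq ≠ (z i, z i)}) := by
    apply Fintype.card_congr
    refine
      { toFun := fun e => ⟨e.1.1, ⟨e.1.2, ?_⟩⟩
        invFun := fun x => ⟨⟨x.1, x.2.1⟩, ?_⟩
        left_inv := ?_
        right_inv := ?_ }
    · intro h
      apply e.2
      obtain ⟨⟨i, pq⟩, he⟩ := e
      exact congrArg (Sigma.mk i) h
    · intro h
      apply x.2.2
      exact eq_of_heq (Sigma.mk.inj h).2
    · intro e
      rfl
    · intro x
      rfl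
  rw [h1, Fintype.card_sigma]
  refine Finset.sum_congr rfl fun i _ => ?_
  rw [Fintype.card_subtype_compl, Fintype.card_prod, Fintype.card_fin, Fintype.card_subtype_eq, sq]

end VSum
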