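import Mathlib
import Pool.Agent.Helper59.VSum.AdRep

/-!
# Generic diagonalizability
-/

set_option linter.unusedSectionVars false
set_option linter.style.haveILetI false

open MvPolynomial Matrix VDual

namespace VSum

variable {k : Type*} [Field k]
variable {I : Type*} [Fintype I] [DecidableEq I] {n : I → ℕ}

section single

variable {N : ℕ}

/-- the discriminant of the characteristic polynomial -/
noncomputable def rsn {S : Type*} [CommRing S] (A : Matrix (Fin N) (Fin N) S) : S :=
  Polynomial.resultant A.charpoly (Polynomial.derivative A.charpoly) N (N - 1)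

theorem map_rsn {S T : Type*} [CommRing S] [CommRing T] (φ : S →+* T) (A : Matrix (Fin N) (Fin N) S) :
    φ (rsn A) = rsn (A.map φ) := by
  rw [rsn, rsn, ← Polynomial.resultant_map_map, ← Polynomial.derivative_map, Matrix.charpoly_map]

theorem rsn_ne_zero_iff [CharZero k] (A : Matrix (Fin N) (Fin N) k) :
    rsn A ≠ 0 ↔ A.charpoly.Separable := by
  have h1 : A.charpoly.natDegree = N := by
    rw [Matrix.charpoly_natDegree_eq_dim, Fintype.card_fin]
  have h2 : (Polynomial.derivative A.charpoly).natDegree = N - 1 := by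
    rw [Polynomial.natDegree_derivative, h1]
  have h3 : rsn A = Polynomial.resultant A.charpoly (Polynomial.derivative A.charpoly) := by
    rw [rsn, h1, h2]
  rw [h3, Polynomial.Separable, Ne, Polynomial.resultant_eq_zero_iff]
  have h4 : A.charpoly ≠ 0 := (Matrix.charpoly_monic A).ne_zero
  constructor
  · intro h
    by_contra hcon
    exact h ⟨Or.inl h4, hcon⟩
  · intro h hcon
    exact hcon.2 h

theorem rsn_diagonal [CharZero k] (d : Fin N → k) (hd : Function.Injective d) :
    rsn (Matrix.diagonal d) ≠ 0 := by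
  rw [rsn_ne_zero_iff, Matrix.charpoly_diagonal]
  exact Polynomial.separable_prod_X_sub_C_iff.mpr hd

theorem exists_diag [IsAlgClosed k] [CharZero k] (A : Matrix (Fin N) (Fin N) k) (hA : rsn A ≠ 0) :
    ∃ (h h' : Matrix (Fin N) (Fin N) k) (l : Fin N → k), h * h' = 1 ∧ Function.Injective l ∧
      A = h * Matrix.diagonal l * h' := by
  classical
  rw [rsn_ne_zero_iff] at hA
  have h1 : A.charpoly.roots.Nodup := Polynomial.nodup_roots hA
  have h2 : A.charpoly.roots.card = N := by
    rw [← (IsAlgClosed.splits A.charpoly).natDegree_eq_card_roots, Matrix.charpoly_natDegree_eq_dim,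
      Fintype.card_fin]
  have h3 : Fintype.card (A.charpoly.roots.toFinset) = Fintype.card (Fin N) := by
    rw [Fintype.card_coe, Multiset.toFinset_card_of_nodup h1, h2, Fintype.card_fin]
  let e : Fin N ≃ A.charpoly.roots.toFinset := (Fintype.equivOfCardEq h3).symm
  let l : Fin N → k := fun p => (e p).1
  have hl : Function.Injective l := Subtype.val_injective.comp e.injective
  have hev : ∀ p, Module.End.HasEigenvalue (Matrix.toLin' A) (l p) := by
    intro p
    rw [Module.End.hasEigenvalue_iff_isRoot_charpoly, Matrix.charpoly_toLin']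
    have := (e p).2
    rw [Multiset.mem_toFinset, Polynomial.mem_roots (Matrix.charpoly_monic A).ne_zero] at this
    exact this
  choose x hx using fun p => (hev p).exists_hasEigenvector
  have hli : LinearIndependent k x :=
    Module.End.eigenvectors_linearIndependent' (Matrix.toLin' A) l hl x hx
  let B : Matrix (Fin N) (Fin N) k := Matrix.of x
  have hB : IsUnit B := Matrix.linearIndependent_rows_iff_isUnit.mp hli
  have hBt : IsUnit Bᵀ := by
    rw [Matrix.isUnit_iff_isUnit_det, Matrix.det_transpose, ← Matrix.isUnit_iff_isUnit_det]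
    exact hB
  obtain ⟨U, hU⟩ := hBt
  refine ⟨Bᵀ, ((U⁻¹ : (Matrix (Fin N) (Fin N) k)ˣ) : Matrix (Fin N) (Fin N) k), l, ?_, hl, ?_⟩
  · rw [← hU, Units.mul_inv]
  · have h4 : A * Bᵀ = Bᵀ * Matrix.diagonal l := by
      ext p q
      rw [Matrix.mul_diagonal, Matrix.mul_apply]
      have h5 := congrFun (hx q).apply_eq_smul p
      rw [Matrix.toLin'_apply, Pi.smul_apply, smul_eq_mul] at h5
      change ∑ s, A p s * x q s = x q p * l q
      rw [mul_comm, ← h5]
      rfl
    rw [← h4, Matrix.mul_assoc, ← hU, Units.mul_inv, Matrix.mul_one]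

theorem exists_perm (m m' : Matrix (Fin N) (Fin N) k) (hm : m * m' = 1) (l l' : Fin N → k)
    (hl : Function.Injective l) (hl' : Function.Injective l') (c : k)
    (h : m * Matrix.diagonal l = Matrix.diagonal (fun p => l' p + c) * m) :
    ∃ π : Equiv.Perm (Fin N), ∀ p q, m p q ≠ 0 → q = π p := by
  classical
  have h1 : ∀ p q, m p q ≠ 0 → l q = l' p + c := by
    intro p q hpq
    have h2 := congrFun (congrFun h p) q
    rw [Matrix.mul_diagonal, Matrix.diagonal_mul, mul_comm] at h2
    exact mul_right_cancel₀ hpq h2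
  have h2 : ∀ p, ∃ q, m p q ≠ 0 := by
    intro p
    by_contra hcon
    push Not at hcon
    have h3 := congrFun (congrFun hm p) p
    rw [Matrix.mul_apply, Matrix.one_apply_eq, Finset.sum_eq_zero] at h3
    · exact zero_ne_one h3
    · intro s _
      rw [hcon s, zero_mul]
  choose π hπ using h2
  have hinj : Function.Injective π := by
    intro p p' hpp
    have h3 := h1 p _ (hπ p)
    have h4 := h1 p' _ (hπ p')
    rw [hpp, h4] at h3
    exact (hl' (add_right_cancel h3)).symm
  refine ⟨Equiv.ofBijective π (Finite.injective_iff_bijective.mp hinj), ?_⟩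
  intro p q hpq
  apply hl
  rw [h1 p q hpq]
  exact (h1 p _ (hπ p)).symm

end single

/-- monomial tuples -/
theorem monomial_tuple (m m' : MatT (fun i => Fin (n i)) k) (hm : m * m' = 1)
    (π : ∀ i, Equiv.Perm (Fin (n i))) (hπ : ∀ i p q, m i p q ≠ 0 → q = π i p) :
    ∃ d : Tn n → k, trT m * m = diagT d ∧ ∀ e, d e ≠ 0 := by
  classical
  refine ⟨fun e => (trT m * m) e.1 e.2 e.2, ?_, ?_⟩
  · funext i
    ext1 p q
    change _ = (Matrix.diagonal fun p => (trT m * m) i p p) p q
    rw [Matrix.diagonal_apply]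
    split_ifs with h
    · rw [h]
    · rw [Pi.mul_apply, Matrix.mul_apply]
      apply Finset.sum_eq_zero
      intro s _
      change m i s p * m i s q = 0
      by_contra hne
      have h1 := hπ i s p (left_ne_zero_of_mul hne)
      have h2 := hπ i s q (right_ne_zero_of_mul hne)
      exact h (h1.trans h2.symm)
  · rintro ⟨i, p⟩ h0
    have h1 : (trT m * m) i p p = ∑ s, m i s p * m i s p := rfl
    change (trT m * m) i p p = 0 at h0
    rw [h1, Finset.sum_eq_single ((π i).symm p)] at h0
    · have h2 : m i ((π i).symm p) p = 0 := mul_self_eq_zero.mp h0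
      -- the column vanishes
      have h3 : ∀ s, m i s p = 0 := by
        intro s
        by_contra hne
        have h4 := hπ i s p hne
        have h5 : s = (π i).symm p := by rw [h4, Equiv.symm_apply_apply]
        rw [h5] at hne
        exact hne h2
      have h4 : m' i * m i = 1 := mul_eq_one_comm.mp (congrFun hm i)
      have h5 := congrFun (congrFun h4 p) p
      rw [Matrix.mul_apply, Matrix.one_apply_eq, Finset.sum_eq_zero] at h5
      · exact zero_ne_one h5
      · intro s _
        rw [h3, mul_zero]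
    · intro s _ hs
      by_contra hne
      apply hs
      have h4 := hπ i s p (left_ne_zero_of_mul hne)
      rw [h4, Equiv.symm_apply_apply]
    · intro h
      exact absurd (Finset.mem_univ _) h

/-- the matrix tuple with given coordinates modulo scalars -/
def embT {S : Type*} [CommRing S] (z : ∀ i, Fin (n i)) (a : E0 z → S) : MatT (fun i => Fin (n i)) S :=
  unpt (fun e => if h : e ≠ ⟨e.1, (z e.1, z e.1)⟩ then a ⟨e, h⟩ else 0)

theorem embT_zz {S : Type*} [CommRing S] (z : ∀ i, Fin (n i)) (a : E0 z → S) (i : I) :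
    embT z a i (z i) (z i) = 0 := by
  change (if h : (⟨i, (z i, z i)⟩ : En n) ≠ ⟨i, (z i, z i)⟩ then a ⟨_, h⟩ else 0) = 0
  rw [dif_neg (fun h => h rfl)]

theorem co_embT {S : Type*} [CommRing S] (z : ∀ i, Fin (n i)) (a : E0 z → S) (e : E0 z) :
    co z (embT z a) e.1 = a e := by
  simp only [co]
  rw [embT_zz, ite_self, sub_zero]
  change (if h : e.1 ≠ ⟨e.1.1, (z e.1.1, z e.1.1)⟩ then a ⟨e.1, h⟩ else 0) = a e
  rw [dif_pos e.2]

theorem mapT_embT {S T : Type*} [CommRing S] [CommRing T] (φ : S →+* T) (z : ∀ i, Fin (n i))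
    (a : E0 z → S) : mapT φ (embT z a) = embT z (fun e => φ (a e)) := by
  funext i
  ext1 p q
  change φ (if h : (⟨i, (p, q)⟩ : En n) ≠ ⟨i, (z i, z i)⟩ then a ⟨_, h⟩ else 0) =
    if h : (⟨i, (p, q)⟩ : En n) ≠ ⟨i, (z i, z i)⟩ then φ (a ⟨_, h⟩) else 0
  split_ifs
  · rfl
  · exact map_zero φ

/-- the discriminant on the coordinates modulo scalars -/
noncomputable def disc0 (k : Type*) [Field k] (z : ∀ i, Fin (n i)) : MvPolynomial (E0 z) k :=
  ∏ i, rsn (embT z (X : E0 z → MvPolynomial (E0 z) k) i)

theorem eval_disc0 (z : ∀ i, Fin (n i)) (a : E0 z → k) : eval a (disc0 k z) = ∏ i, rsn (embT z a i) := by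
  rw [disc0, map_prod]
  refine Finset.prod_congr rfl fun i _ => ?_
  have h1 := mapT_embT (eval a : MvPolynomial (E0 z) k →+* k) z X
  have h2 : (fun e => eval a (X e : MvPolynomial (E0 z) k)) = a := by
    funext e
    exact eval_X _
  rw [h2] at h1
  rw [map_rsn]
  congr 1
  exact congrFun h1 i

theorem disc0_ne_zero [CharZero k] (z : ∀ i, Fin (n i)) : disc0 k z ≠ 0 := by
  classical
  intro h0
  let l : Tn n → k := fun e => (e.2.val : k) - ((z e.1).val : k)
  have h1 := eval_disc0 z (fun e : E0 z => (diagT l : MatT (fun i => Fin (n i)) k) e.1.1 e.1.2.1 e.1.2.2)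
  rw [h0, map_zero] at h1
  have h2 : embT z (fun e : E0 z => (diagT l : MatT (fun i => Fin (n i)) k) e.1.1 e.1.2.1 e.1.2.2) = diagT l := by
    funext i
    ext1 p q
    change (if h : (⟨i, (p, q)⟩ : En n) ≠ ⟨i, (z i, z i)⟩ then (diagT l : MatT (fun i => Fin (n i)) k) i p q else 0) = _
    split_ifs with h
    · rfl
    · rw [not_not] at h
      have h3 := eq_of_heq (Sigma.mk.inj h).2
      rw [Prod.mk.injEq] at h3
      rw [h3.1, h3.2]
      change 0 = (Matrix.diagonal fun p => l ⟨i, p⟩) (z i) (z i)
      rw [Matrix.diagonal_apply_eq]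
      simp [l]
  rw [h2] at h1
  have h3 : ∏ i, rsn ((diagT l : MatT (fun i => Fin (n i)) k) i) ≠ 0 := by
    rw [Finset.prod_ne_zero_iff]
    intro i _
    apply rsn_diagonal
    intro p q hpq
    have h4 : (p.val : k) - ((z i).val : k) = (q.val : k) - ((z i).val : k) := hpq
    have h5 : (p.val : k) = (q.val : k) := by linear_combination h4
    exact Fin.ext (Nat.cast_injective h5)
  exact h3 h1.symm

theorem exists_diagT [IsAlgClosed k] [CharZero k] (z : ∀ i, Fin (n i)) (a : E0 z → k)
    (ha : eval a (disc0 k z) ≠ 0) :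
    ∃ (h h' : MatT (fun i => Fin (n i)) k) (l : Tn n → k), h * h' = 1 ∧
      (∀ i, Function.Injective fun p => l ⟨i, p⟩) ∧ embT z a = h * diagT l * h' := by
  rw [eval_disc0, Finset.prod_ne_zero_iff] at ha
  choose h h' l h1 h2 h3 using fun i => exists_diag (embT z a i) (ha i (Finset.mem_univ i))
  refine ⟨h, h', fun e => l e.1 e.2, ?_, ?_, ?_⟩
  · funext i
    exact h1 i
  · intro i
    exact h2 i
  · funext i
    exact h3 i

end VSum
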