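import Mathlib
import Pool.Agent.Helper59.VSum.NoName

/-!
# The no-name lemma for quotients of `∏ SL_{n_i}`
-/

set_option linter.unusedSectionVars false
set_option linter.style.haveILetI false

open MvPolynomial Matrix VDual MulOpposite

namespace VSum

variable {k : Type*} [Field k]
variable {I : Type*} [Fintype I] [DecidableEq I] {n : I → ℕ}
variable {ι : Type*} [Fintype ι] [DecidableEq ι] {κ : Type*} [Fintype κ] [DecidableEq κ]

/-- a non-zero regular function on `w ≠ 0` has a point where it does not vanish -/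
theorem exists_evL_ne_zero [Infinite k] {σ : Type*} (w : MvPolynomial σ k) (hw : w ≠ 0)
    (s : Localization.Away w) (hs : s ≠ 0) : ∃ (v : σ → k) (hv : eval v w ≠ 0), evL w v hv s ≠ 0 := by
  obtain ⟨N, a, hNa⟩ := IsLocalization.Away.surj w s
  have ha : a ≠ 0 := by
    intro h0
    rw [h0, map_zero] at hNa
    haveI := away_isDomain w hw
    rcases mul_eq_zero.mp hNa with h1 | h1
    · exact hs h1
    · have h3 : algebraMap (MvPolynomial σ k) (Localization.Away w) w ≠ 0 := by
        intro h4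
        exact hw (away_injective w hw (by rw [h4, map_zero]))
      exact (pow_ne_zero N h3) h1
  have h1 : a * w ≠ 0 := mul_ne_zero ha hw
  obtain ⟨v, hv⟩ : ∃ v, eval v (a * w) ≠ 0 := by
    by_contra hcon
    push Not at hcon
    exact h1 (MvPolynomial.funext fun v => by rw [hcon v, map_zero])
  rw [map_mul] at hv
  have hvw := right_ne_zero_of_mul hv
  refine ⟨v, hvw, ?_⟩
  intro h0
  have h2 := congrArg (evL w v hvw) hNa
  rw [map_mul, h0, zero_mul, evL_algebraMap] at h2
  exact left_ne_zero_of_mul hv h2.symm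

section

variable (σ0 : Type*) (k n)

/-- the denominator: the product of the determinants -/
noncomputable def wD : MvPolynomial (σ0 ⊕ En n) k := rename Sum.inr (omg (fun i => Fin (n i)) k)

theorem wD_def : wD k n σ0 = rename Sum.inr (omg (fun i => Fin (n i)) k) := rfl

theorem wD_ne_zero : wD k n σ0 ≠ 0 := by
  intro h
  exact omg_ne_zero k (rename_injective _ Sum.inr_injective (by rw [map_zero]; exact h))

variable {k n σ0}

/-- the matrix part of a point -/
def hpt (v : σ0 ⊕ En n → k) : MatT (fun i => Fin (n i)) k := unpt fun e => v (Sum.inr e)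

theorem eval_wD (v : σ0 ⊕ En n → k) : eval v (wD k n σ0) = ∏ i, (hpt v i).det := by
  have h1 := omg_eval (S := k) (hpt v)
  rw [wD_def, eval_rename]
  exact h1

theorem hpt_det (v : σ0 ⊕ En n → k) (hv : eval v (wD k n σ0) ≠ 0) (i : I) : (hpt v i).det ≠ 0 := by
  rw [eval_wD] at hv
  exact Finset.prod_ne_zero_iff.mp hv i (Finset.mem_univ i)

/-- the group element attached to a point -/
noncomputable def gpt (z : ∀ i, Fin (n i)) (v : σ0 ⊕ En n → k) (hv : eval v (wD k n σ0) ≠ 0) : SLP k n :=
  ofT (scl z (fun i => ((hpt v i).det)⁻¹) (hpt v)) (fun i => by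
    rw [scl_det, mul_inv_cancel₀ (hpt_det v hv i)])

theorem toT_gpt (z : ∀ i, Fin (n i)) (v : σ0 ⊕ En n → k) (hv : eval v (wD k n σ0) ≠ 0) :
    toT (gpt z v hv) = scl z (fun i => ((hpt v i).det)⁻¹) (hpt v) := rfl

/-- the generic matrices over the localization -/
noncomputable def gH (k : Type*) [Field k] (n : I → ℕ) (σ0 : Type*) :
    MatT (fun i => Fin (n i)) (Localization.Away (wD k n σ0)) :=
  unpt fun e => algebraMap (MvPolynomial (σ0 ⊕ En n) k) _ (X (Sum.inr e))

theorem gH_prod_det : ∏ i, (gH k n σ0 i).det =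
    algebraMap (MvPolynomial (σ0 ⊕ En n) k) (Localization.Away (wD k n σ0)) (wD k n σ0) := by
  have h0 : wD k n σ0 = ∏ i, rename Sum.inr ((gen (fun i => Fin (n i)) k i).det) := by
    rw [wD_def, omg, map_prod]
  have h2 := congrArg (algebraMap (MvPolynomial (σ0 ⊕ En n) k) (Localization.Away (wD k n σ0))) h0
  rw [h2, map_prod]
  refine Finset.prod_congr rfl fun i _ => ?_
  rw [AlgHom.map_det, RingHom.map_det]
  congr 1
  ext1 p q
  have h1 : (rename Sum.inr (X (⟨i, (p, q)⟩ : En n)) : MvPolynomial (σ0 ⊕ En n) k) =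
      X (Sum.inr (⟨i, (p, q)⟩ : En n)) := rename_X _ _
  change _ = algebraMap (MvPolynomial (σ0 ⊕ En n) k) (Localization.Away (wD k n σ0))
    (rename Sum.inr (X (⟨i, (p, q)⟩ : En n)))
  rw [h1]
  rfl

theorem isUnit_gH_det (i : I) : IsUnit (gH k n σ0 i).det := by
  have h1 : IsUnit (∏ i, (gH k n σ0 i).det) := by
    rw [gH_prod_det]
    exact IsLocalization.Away.algebraMap_isUnit _
  exact isUnit_of_dvd_unit (Finset.dvd_prod_of_mem (fun i => (gH k n σ0 i).det) (Finset.mem_univ i)) h1

/-- the generic element of `∏ SL` -/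
noncomputable def slH (z : ∀ i, Fin (n i)) : MatT (fun i => Fin (n i)) (Localization.Away (wD k n σ0)) :=
  scl z (fun i => Ring.inverse (gH k n σ0 i).det) (gH k n σ0)

theorem map_inverse_of_isUnit {A B : Type*} [CommRing A] [Field B] (φ : A →+* B) (a : A) (ha : IsUnit a) :
    φ (Ring.inverse a) = (φ a)⁻¹ := by
  have h1 : φ a * φ (Ring.inverse a) = 1 := by
    rw [← map_mul, Ring.mul_inverse_cancel _ ha, map_one]
  exact (inv_eq_of_mul_eq_one_right h1).symm

theorem mapT_gH (v : σ0 ⊕ En n → k) (hv : eval v (wD k n σ0) ≠ 0) :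
    mapT (evL (wD k n σ0) v hv) (gH k n σ0) = hpt v := by
  funext i
  ext1 p q
  have h1 := evL_algebraMap (wD k n σ0) v hv (X (Sum.inr (⟨i, (p, q)⟩ : En n)))
  rw [eval_X] at h1
  exact h1

theorem mapT_slH (z : ∀ i, Fin (n i)) (v : σ0 ⊕ En n → k) (hv : eval v (wD k n σ0) ≠ 0) :
    mapT (evL (wD k n σ0) v hv) (slH z) = toT (gpt z v hv) := by
  rw [slH, toT_gpt]
  have h1 := mapT_scl ((evL (wD k n σ0) v hv : Localization.Away (wD k n σ0) →ₐ[k] k) :
    Localization.Away (wD k n σ0) →+* k) z (fun i => Ring.inverse (gH k n σ0 i).det) (gH k n σ0)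
  have h2 : mapT ((evL (wD k n σ0) v hv : Localization.Away (wD k n σ0) →ₐ[k] k) :
    Localization.Away (wD k n σ0) →+* k) (gH k n σ0) = hpt v := mapT_gH v hv
  rw [h2] at h1
  refine h1.trans ?_
  congr 1
  funext i
  rw [map_inverse_of_isUnit _ _ (isUnit_gH_det i)]
  congr 1
  rw [RingHom.map_det]
  congr 1
  exact congrFun h2 i

theorem evL_ev_slH {τ : Type*} [Fintype τ] [DecidableEq τ] (P : Matrix τ τ (MvPolynomial (En n) k))
    (z : ∀ i, Fin (n i)) (v : σ0 ⊕ En n → k) (hv : eval v (wD k n σ0) ≠ 0) (a b : τ) :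
    evL (wD k n σ0) v hv (ev P (slH z) a b) = ev P (toT (gpt z v hv)) a b := by
  have h1 := congrFun (congrFun (ev_map (evL (wD k n σ0) v hv) P (slH z)) a) b
  rw [mapT_slH] at h1
  exact h1

/-- specialization at a group element -/
theorem exists_spec (z : ∀ i, Fin (n i)) (g : SLP k n) :
    ∃ sp : Localization.Away (wD k n σ0) →ₐ[k] MvPolynomial σ0 k,
      (∀ t, sp (algebraMap (MvPolynomial (σ0 ⊕ En n) k) _ (X (Sum.inl t))) = X t) ∧
      mapT sp (slH z) = mapT (C : k →+* MvPolynomial σ0 k) (toT g) := by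
  let φ : MvPolynomial (σ0 ⊕ En n) k →ₐ[k] MvPolynomial σ0 k :=
    aeval (Sum.elim X (fun e => C (pt (toT g) e)))
  have hφr : ∀ p : MvPolynomial (En n) k, φ (rename Sum.inr p) = C (aeval (pt (toT g)) p) := by
    intro p
    have : φ.comp (rename Sum.inr) = (Algebra.ofId k (MvPolynomial σ0 k)).comp (aeval (pt (toT g))) := by
      apply MvPolynomial.algHom_ext
      intro e
      rw [AlgHom.comp_apply, AlgHom.comp_apply, rename_X, aeval_X, aeval_X]
      rfl
    exact DFunLike.congr_fun this p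
  have hφw : φ (wD k n σ0) = 1 := by
    have h1 := omg_eval (S := k) (toT g)
    rw [wD_def, hφr, h1]
    have h2 : ∏ i, (toT g i).det = 1 := Finset.prod_eq_one fun i _ => (g i).2
    rw [h2, map_one]
  have hφu : ∀ y : Submonoid.powers (wD k n σ0), IsUnit (φ y) := by
    rintro ⟨_, N, rfl⟩
    change IsUnit (φ (wD k n σ0 ^ N))
    rw [map_pow, hφw, one_pow]
    exact isUnit_one
  let sp : Localization.Away (wD k n σ0) →ₐ[k] MvPolynomial σ0 k :=
    IsLocalization.liftAlgHom (M := Submonoid.powers (wD k n σ0))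
      (S := Localization.Away (wD k n σ0)) (f := φ) hφu
  have hsp : ∀ p, sp (algebraMap (MvPolynomial (σ0 ⊕ En n) k) (Localization.Away (wD k n σ0)) p) = φ p := by
    intro p
    change IsLocalization.liftAlgHom (M := Submonoid.powers (wD k n σ0))
      (S := Localization.Away (wD k n σ0)) (f := φ) hφu _ = _
    rw [IsLocalization.liftAlgHom_apply, IsLocalization.lift_eq]
    rfl
  refine ⟨sp, ?_, ?_⟩
  · intro t
    rw [hsp, aeval_X]
    rfl
  · have hg : mapT ((sp : Localization.Away (wD k n σ0) →ₐ[k] MvPolynomial σ0 k) :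
        Localization.Away (wD k n σ0) →+* MvPolynomial σ0 k) (gH k n σ0) =
        mapT (C : k →+* MvPolynomial σ0 k) (toT g) := by
      funext i
      ext1 p q
      have h1 := hsp (X (Sum.inr (⟨i, (p, q)⟩ : En n)))
      rw [aeval_X] at h1
      exact h1
    have h1 := mapT_scl ((sp : Localization.Away (wD k n σ0) →ₐ[k] MvPolynomial σ0 k) :
        Localization.Away (wD k n σ0) →+* MvPolynomial σ0 k) z
      (fun i => Ring.inverse (gH k n σ0 i).det) (gH k n σ0)
    rw [hg] at h1
    refine h1.trans (scl_one z _ ?_ _)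
    · intro i
      have h2 : (sp : Localization.Away (wD k n σ0) →+* MvPolynomial σ0 k) ((gH k n σ0 i).det) = 1 := by
        rw [RingHom.map_det]
        have h3 := congrFun hg i
        have h4 : (sp : Localization.Away (wD k n σ0) →+* MvPolynomial σ0 k).mapMatrix (gH k n σ0 i) =
            (C : k →+* MvPolynomial σ0 k).mapMatrix (toT g i) := h3
        rw [h4, ← RingHom.map_det]
        have h5 : (toT g i).det = 1 := (g i).2
        rw [h5, map_one]
      have h3 : (sp : Localization.Away (wD k n σ0) →+* MvPolynomial σ0 k) ((gH k n σ0 i).det) *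
          (sp : Localization.Away (wD k n σ0) →+* MvPolynomial σ0 k) (Ring.inverse (gH k n σ0 i).det) = 1 := by
        rw [← map_mul, Ring.mul_inverse_cancel _ (isUnit_gH_det i), map_one]
      rw [h2, one_mul] at h3
      exact h3

theorem spec_ev {τ : Type*} [Fintype τ] [DecidableEq τ] (P : Matrix τ τ (MvPolynomial (En n) k))
    (z : ∀ i, Fin (n i)) (g : SLP k n) (sp : Localization.Away (wD k n σ0) →ₐ[k] MvPolynomial σ0 k)
    (h2 : mapT sp (slH z) = mapT (C : k →+* MvPolynomial σ0 k) (toT g)) (a b : τ) :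
    sp (ev P (slH z) a b) = C (ev P (toT g) a b) := by
  have h4 := congrFun (congrFun (ev_map sp P (slH z)) a) b
  rw [h2] at h4
  have h5 := congrFun (congrFun (ev_map (Algebra.ofId k (MvPolynomial σ0 k)) P (toT g)) a) b
  exact h4.trans h5.symm

end

/-- **no-name lemma** for quotients of `∏ SL_{n_i}(k)` -/
theorem noname_SL [IsAlgClosed k] [CharZero k] (hn : ∀ i, n i ≠ 0)
    (R : SLP k n →* GL ι k) (RW : SLP k n →* GL κ k) (hR : IsRt R) (hRW : IsRt RW)
    (D : MvPolynomial ι k) (hD : D ≠ 0)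
    (hfree : ∀ v : ι → k, eval v D ≠ 0 → ∀ g, (R g : Matrix ι ι k) *ᵥ v = v → RW g = 1) :
    Bir (dsum R RW) (dsum R (1 : SLP k n →* GL κ k)) := by
  classical
  haveI : Infinite k := CharZero.infinite k
  obtain ⟨PU, hPU⟩ := hR
  obtain ⟨PW, hPW⟩ := hRW
  let z : ∀ i, Fin (n i) := fun i => ⟨0, Nat.pos_of_ne_zero (hn i)⟩
  have hw : wD k n ι ≠ 0 := wD_ne_zero k n ι
  let xS : ι → Localization.Away (wD k n ι) :=
    fun t => algebraMap (MvPolynomial (ι ⊕ En n) k) (Localization.Away (wD k n ι)) (X (Sum.inl t))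
  let yS : ι → Localization.Away (wD k n ι) := ev PU (slH z) *ᵥ xS
  let zS' : ι ⊕ ι → Localization.Away (wD k n ι) := Sum.elim xS yS
  have hx : ∀ v hv t, evL (wD k n ι) v hv (xS t) = v (Sum.inl t) := by
    intro v hv t
    rw [evL_algebraMap, eval_X]
  have hy : ∀ v hv t, evL (wD k n ι) v hv (yS t) =
      ((R (gpt z v hv) : Matrix ι ι k) *ᵥ (fun t => v (Sum.inl t))) t := by
    intro v hv t
    simp only [yS, mulVec, dotProduct, map_sum, map_mul, hx]
    refine Finset.sum_congr rfl fun j _ => ?_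
    rw [evL_ev_slH, hPU]
  have key : ∀ a b : κ, ∃ P Q : MvPolynomial (ι ⊕ ι) k, aeval zS' Q ≠ 0 ∧
      ev PW (slH z) a b * aeval zS' Q = aeval zS' P := by
    intro a b
    apply claimR (wD k n ι) (rename Sum.inl D) hw
    · intro h0
      exact hD (rename_injective _ Sum.inl_injective (by rw [h0, map_zero]))
    · intro v v' hv hv' h1 h2 h3
      have hxx : (fun t => v (Sum.inl t)) = fun t => v' (Sum.inl t) := by
        funext t
        have := h3 (Sum.inl t)
        simp only [zS', Sum.elim_inl, hx] at this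
        exact this
      have hyy : (R (gpt z v hv) : Matrix ι ι k) *ᵥ (fun t => v (Sum.inl t)) =
          (R (gpt z v' hv') : Matrix ι ι k) *ᵥ (fun t => v (Sum.inl t)) := by
        funext t
        have := h3 (Sum.inr t)
        simp only [zS', Sum.elim_inr] at this
        rw [hy, hy, ← hxx] at this
        exact this
      rw [eval_rename] at h1
      have h4 := hfree _ h1 ((gpt z v' hv')⁻¹ * gpt z v hv) (by
        rw [map_mul, Units.val_mul, ← Matrix.mulVec_mulVec]
        change (R (gpt z v' hv')⁻¹ : Matrix ι ι k) *ᵥ ((R (gpt z v hv) : Matrix ι ι k) *ᵥ (fun t => v (Sum.inl t))) =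
          fun t => v (Sum.inl t)
        rw [hyy, Matrix.mulVec_mulVec, ← Units.val_mul, ← map_mul, inv_mul_cancel, map_one,
          Units.val_one, Matrix.one_mulVec])
      have h5 : RW (gpt z v hv) = RW (gpt z v' hv') := by
        rw [map_mul, map_inv, inv_mul_eq_one] at h4
        exact h4.symm
      rw [evL_ev_slH, evL_ev_slH, ← hPW, ← hPW, h5]
  have hspP : ∀ (g : SLP k n) (sp : Localization.Away (wD k n ι) →ₐ[k] MvPolynomial ι k),
      (∀ t, sp (xS t) = X t) →
      mapT sp (slH z) = mapT (C : k →+* MvPolynomial ι k) (toT g) →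
      ∀ p : MvPolynomial (ι ⊕ ι) k, algebraMap (MvPolynomial ι k) (FF k ι) (sp (aeval zS' p)) =
        Fn R p (op g) := by
    intro g sp h1 h2 p
    have h4 : ((IsScalarTower.toAlgHom k (MvPolynomial ι k) (FF k ι)).comp sp).comp (aeval zS') =
        aeval (Sum.elim (xc k ι) (fun t => ffSub (R g) (xc k ι t))) := by
      apply MvPolynomial.algHom_ext
      intro t
      rw [AlgHom.comp_apply, aeval_X, aeval_X]
      rcases t with t | t
      · simp only [zS', Sum.elim_inl]
        rw [AlgHom.comp_apply, h1]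
        rfl
      · simp only [zS', Sum.elim_inr]
        rw [AlgHom.comp_apply, ffSub_xc]
        simp only [yS, mulVec, dotProduct, map_sum, map_mul, h1, spec_ev PU z g sp h2, hPU]
        refine Finset.sum_congr rfl fun j _ => ?_
        congr 1
    exact DFunLike.congr_fun h4 p
  have hne : ∀ Q : MvPolynomial (ι ⊕ ι) k, aeval zS' Q ≠ 0 → ∃ g, Fn R Q g ≠ 0 := by
    intro Q hQ
    obtain ⟨v, hv, hvQ⟩ := exists_evL_ne_zero (wD k n ι) hw _ hQ
    obtain ⟨sp, h1', h2⟩ := exists_spec (σ0 := ι) z (gpt z v hv)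
    have h1 : ∀ t, sp (xS t) = X t := h1'
    have h4 := hspP _ sp h1 h2
    refine ⟨op (gpt z v hv), ?_⟩
    rw [← h4]
    intro h0
    have h5 : sp (aeval zS' Q) = 0 :=
      (IsFractionRing.injective (MvPolynomial ι k) (FF k ι)) (by rw [h0, map_zero])
    apply hvQ
    have h6 : (evL (wD k n ι) v hv).comp (aeval zS') =
        ((aeval (fun t => v (Sum.inl t)) : MvPolynomial ι k →ₐ[k] k).comp sp).comp (aeval zS') := by
      apply MvPolynomial.algHom_ext
      intro t
      rw [AlgHom.comp_apply, AlgHom.comp_apply, AlgHom.comp_apply, aeval_X]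
      rcases t with t | t
      · simp only [zS', Sum.elim_inl]
        rw [hx, h1, aeval_X]
      · simp only [zS', Sum.elim_inr]
        rw [hy]
        simp only [yS, mulVec, dotProduct, map_sum, map_mul, h1, spec_ev PU z _ sp h2, hPU, aeval_X, aeval_C]
        rfl
    have h7 := DFunLike.congr_fun h6 Q
    rw [AlgHom.comp_apply, AlgHom.comp_apply, AlgHom.comp_apply, h5, map_zero] at h7
    exact h7
  have hne' : ∀ Q : MvPolynomial (ι ⊕ ι) k, (∃ g, Fn R Q g ≠ 0) → aeval zS' Q ≠ 0 := by
    rintro Q ⟨g, hg⟩ h0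
    obtain ⟨sp, h1, h2⟩ := exists_spec (σ0 := ι) z g.unop
    have h5 := hspP _ sp h1 h2 Q
    rw [h0, map_zero, map_zero] at h5
    exact hg h5.symm
  haveI : IsDomain (Localization.Away (wD k n ι)) := away_isDomain (wD k n ι) hw
  obtain ⟨B, B', hB, hcov⟩ := exists_covariants R RW (by
    intro a b
    obtain ⟨P, Q, hQ, hPQ⟩ := key a b
    refine ⟨P, Q, hne Q hQ, ?_⟩
    intro g
    obtain ⟨sp, h1, h2⟩ := exists_spec (σ0 := ι) z g
    have h4 := hspP _ sp h1 h2
    rw [← h4, ← h4, ← hPQ, map_mul, map_mul, spec_ev PW z g sp h2, hPW]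
    congr 1) (by
    intro s Q hQ
    apply hne
    rw [map_prod, Finset.prod_ne_zero_iff]
    intro e _
    exact hne' _ (hQ e))
  exact noname_of_covariants R RW B B' hB hcov

end VSum
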