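import Mathlib
import Pool.Agent.Helper59.VSum.Weights

/-!
# The inversion `φ(y) = ∑ P_ν y / q_ν(y)`
-/

set_option linter.unusedSectionVars false
set_option linter.style.haveILetI false

open MvPolynomial Matrix VDual

namespace VSum

variable {k : Type*} [Field k]
variable {I : Type*} [Fintype I] [DecidableEq I] {n : I → ℕ}
variable {ι : Type*} [Fintype ι] [DecidableEq ι]
variable (ρ : PolyRep k (fun i => Fin (n i)) ι)

/-- `J` intertwines `ρ` and its transposed -/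
def IsJ (J : Matrix ι ι k) : Prop :=
  ∀ g : MatT (fun i => Fin (n i)) k, J * ev ρ.P (trT g) = (ev ρ.P g)ᵀ * J

theorem IsJ.Pw [Infinite k] {J : Matrix ι ι k} (hJ : IsJ ρ J) (ν : Tn n →₀ ℕ) :
    J * Pw ρ ν = (Pw ρ ν)ᵀ * J := by
  have h1 : J.map (C : k →+* MvPolynomial (Tn n) k) * FX ρ =
      (FX ρ)ᵀ * J.map (C : k →+* MvPolynomial (Tn n) k) := by
    refine Matrix.ext fun a b => ?_
    apply MvPolynomial.funext
    intro s
    have h2 := congrFun (congrFun (hJ (diagT s)) a) b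
    rw [trT_diagT, ← FX_eval, Matrix.mul_apply, Matrix.mul_apply] at h2
    rw [Matrix.mul_apply, Matrix.mul_apply, map_sum, map_sum]
    refine (Eq.trans ?_ h2).trans ?_
    · refine Finset.sum_congr rfl fun c _ => ?_
      rw [map_mul, Matrix.map_apply, eval_C]
      rfl
    · refine Finset.sum_congr rfl fun c _ => ?_
      rw [map_mul, Matrix.map_apply, eval_C]
      rfl
  ext a b
  have h2 := congrArg (coeff ν) (congrFun (congrFun h1 a) b)
  rw [Matrix.mul_apply, Matrix.mul_apply, coeff_sum, coeff_sum] at h2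
  rw [Matrix.mul_apply, Matrix.mul_apply]
  refine (Eq.trans ?_ h2).trans ?_
  · refine Finset.sum_congr rfl fun c _ => ?_
    rw [Matrix.map_apply, coeff_C_mul]
    rfl
  · refine Finset.sum_congr rfl fun c _ => ?_
    rw [Matrix.map_apply, mul_comm, coeff_C_mul, mul_comm]
    rfl

/-- the quadratic forms -/
noncomputable def qf (J : Matrix ι ι k) (ν : Tn n →₀ ℕ) (y : ι → k) : k :=
  y ⬝ᵥ ((J * Pw ρ ν) *ᵥ y)

/-- the inversion -/
noncomputable def phi (J : Matrix ι ι k) (y : ι → k) : ι → k :=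
  ∑ ν ∈ wts ρ, (qf ρ J ν y)⁻¹ • (Pw ρ ν *ᵥ y)

theorem Pw_phi [Infinite k] (J : Matrix ι ι k) (y : ι → k) (ν : Tn n →₀ ℕ) :
    Pw ρ ν *ᵥ phi ρ J y = (qf ρ J ν y)⁻¹ • (Pw ρ ν *ᵥ y) := by
  classical
  rw [phi, Matrix.mulVec_sum]
  by_cases hν : ν ∈ wts ρ
  · rw [Finset.sum_eq_single ν]
    · rw [Matrix.mulVec_smul, Matrix.mulVec_mulVec, Pw_mul_self]
    · intro μ _ hμ
      rw [Matrix.mulVec_smul, Matrix.mulVec_mulVec, Pw_mul_ne ρ hμ, Matrix.zero_mulVec, smul_zero]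
    · intro h
      exact absurd hν h
  · rw [mem_wts, not_not] at hν
    rw [hν, Matrix.zero_mulVec, smul_zero]
    apply Finset.sum_eq_zero
    intro μ _
    rw [Matrix.zero_mulVec]

theorem qf_eq {J : Matrix ι ι k} [Infinite k] (hJ : IsJ ρ J) (ν : Tn n →₀ ℕ) (y : ι → k) :
    qf ρ J ν y = (Pw ρ ν *ᵥ y) ⬝ᵥ (J *ᵥ (Pw ρ ν *ᵥ y)) := by
  rw [qf]
  have h1 : J * Pw ρ ν = (Pw ρ ν)ᵀ * (J * Pw ρ ν) := by
    conv_lhs => rw [← Pw_mul_self, ← Matrix.mul_assoc, hJ.Pw, Matrix.mul_assoc]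
  conv_lhs => rw [h1]
  rw [Matrix.mulVec_mulVec, ← Matrix.mulVec_mulVec y (Pw ρ ν)ᵀ, Matrix.dotProduct_mulVec,
    Matrix.vecMul_transpose]

theorem qf_phi {J : Matrix ι ι k} [Infinite k] (hJ : IsJ ρ J) (ν : Tn n →₀ ℕ) (y : ι → k)
    (h : qf ρ J ν y ≠ 0) : qf ρ J ν (phi ρ J y) = (qf ρ J ν y)⁻¹ := by
  rw [qf_eq ρ hJ, Pw_phi, Matrix.mulVec_smul, smul_dotProduct, dotProduct_smul, ← qf_eq ρ hJ]
  simp only [smul_eq_mul]
  field_simp

theorem phi_phi {J : Matrix ι ι k} [Infinite k] (hJ : IsJ ρ J) (y : ι → k)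
    (h : ∀ ν ∈ wts ρ, qf ρ J ν y ≠ 0) : phi ρ J (phi ρ J y) = y := by
  have h1 : phi ρ J (phi ρ J y) = ∑ ν ∈ wts ρ, Pw ρ ν *ᵥ y := by
    rw [phi]
    refine Finset.sum_congr rfl fun ν hν => ?_
    rw [Pw_phi, qf_phi ρ hJ ν y (h ν hν), inv_inv, smul_smul, mul_inv_cancel₀ (h ν hν), one_smul]
  rw [h1, ← Matrix.sum_mulVec, sum_Pw, Matrix.one_mulVec]

section monomial

variable (m : MatT (fun i => Fin (n i)) k) (π : ∀ i, Equiv.Perm (Fin (n i))) (d : Tn n → k)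

theorem ev_trT_mul (hmd : trT m * m = diagT d) [Infinite k] :
    ev ρ.P (trT m) * ev ρ.P m = ev ρ.P (diagT d) := by
  rw [← ρ.mul', hmd]

theorem qf_monomial [Infinite k] {J : Matrix ι ι k} (hJ : IsJ ρ J)
    (hm : ∀ i p q, m i p q ≠ 0 → q = π i p) (hmd : trT m * m = diagT d) (ν : Tn n →₀ ℕ) (y : ι → k) :
    qf ρ J ν (ev ρ.P m *ᵥ y) =
      ((ν.mapDomain (permT π)).prod fun e c => d e ^ c) * qf ρ J (ν.mapDomain (permT π)) y := by
  have h1 : (ev ρ.P m)ᵀ * (J * Pw ρ ν) * ev ρ.P m =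
      ((ν.mapDomain (permT π)).prod fun e c => d e ^ c) • (J * Pw ρ (ν.mapDomain (permT π))) := by
    rw [← Matrix.mul_assoc, ← hJ m, Matrix.mul_assoc, Matrix.mul_assoc, Pw_monomial ρ m π hm,
      ← Matrix.mul_assoc (ev ρ.P (trT m)), ev_trT_mul ρ m d hmd, ev_mul_Pw, Matrix.mul_smul]
  rw [qf, qf, Matrix.mulVec_mulVec, Matrix.dotProduct_mulVec, ← Matrix.vecMul_transpose,
    Matrix.vecMul_vecMul, ← Matrix.dotProduct_mulVec, ← Matrix.mul_assoc, h1, Matrix.smul_mulVec,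
    dotProduct_smul, smul_eq_mul]

theorem prod_pow_ne_zero (hd : ∀ e, d e ≠ 0) (μ : Tn n →₀ ℕ) : (μ.prod fun e c => d e ^ c) ≠ 0 :=
  Finset.prod_ne_zero_iff.mpr fun e _ => pow_ne_zero _ (hd e)

theorem mem_wts_mapDomain [Infinite k] (hm : ∀ i p q, m i p q ≠ 0 → q = π i p) (m' : MatT (fun i => Fin (n i)) k)
    (hmm : m * m' = 1) (ν : Tn n →₀ ℕ) : ν.mapDomain (permT π) ∈ wts ρ ↔ ν ∈ wts ρ := by
  rw [mem_wts, mem_wts, not_iff_not]
  have h1 := Pw_monomial ρ m π hm ν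
  have h2 : ev ρ.P m * ev ρ.P m' = 1 := by
    rw [← ρ.mul', hmm, ρ.one]
  have h3 : ev ρ.P m' * ev ρ.P m = 1 := mul_eq_one_comm.mp h2
  constructor
  · intro h
    rw [h, mul_zero] at h1
    calc Pw ρ ν = Pw ρ ν * (ev ρ.P m * ev ρ.P m') := by rw [h2, mul_one]
      _ = 0 := by rw [← mul_assoc, h1, zero_mul]
  · intro h
    rw [h, zero_mul] at h1
    calc Pw ρ (ν.mapDomain (permT π)) = (ev ρ.P m' * ev ρ.P m) * Pw ρ (ν.mapDomain (permT π)) := by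
          rw [h3, one_mul]
      _ = 0 := by rw [mul_assoc, ← h1, mul_zero]

theorem phi_monomial [Infinite k] {J : Matrix ι ι k} (hJ : IsJ ρ J)
    (hm : ∀ i p q, m i p q ≠ 0 → q = π i p) (m' : MatT (fun i => Fin (n i)) k) (hmm : m * m' = 1)
    (hmd : trT m * m = diagT d) (hd : ∀ e, d e ≠ 0) (y : ι → k) :
    (ev ρ.P m)ᵀ *ᵥ (J *ᵥ phi ρ J (ev ρ.P m *ᵥ y)) = J *ᵥ phi ρ J y := by
  rw [Matrix.mulVec_mulVec, ← hJ m, ← Matrix.mulVec_mulVec]
  congr 1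
  have h1 : phi ρ J (ev ρ.P m *ᵥ y) = ∑ ν ∈ wts ρ,
      (((ν.mapDomain (permT π)).prod fun e c => d e ^ c) * qf ρ J (ν.mapDomain (permT π)) y)⁻¹ •
        (ev ρ.P m *ᵥ (Pw ρ (ν.mapDomain (permT π)) *ᵥ y)) := by
    rw [phi]
    refine Finset.sum_congr rfl fun ν _ => ?_
    rw [qf_monomial ρ m π d hJ hm hmd, Matrix.mulVec_mulVec, Pw_monomial ρ m π hm,
      ← Matrix.mulVec_mulVec]
  rw [h1, Matrix.mulVec_sum]
  have h2 : ∀ ν : Tn n →₀ ℕ, ev ρ.P (trT m) *ᵥ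
      ((((ν.mapDomain (permT π)).prod fun e c => d e ^ c) * qf ρ J (ν.mapDomain (permT π)) y)⁻¹ •
        (ev ρ.P m *ᵥ (Pw ρ (ν.mapDomain (permT π)) *ᵥ y))) =
      (qf ρ J (ν.mapDomain (permT π)) y)⁻¹ • (Pw ρ (ν.mapDomain (permT π)) *ᵥ y) := by
    intro ν
    rw [Matrix.mulVec_smul, Matrix.mulVec_mulVec, ev_trT_mul ρ m d hmd, Matrix.mulVec_mulVec, ev_mul_Pw,
      Matrix.smul_mulVec, smul_smul]
    congr 1
    have := prod_pow_ne_zero d hd (ν.mapDomain (permT π))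
    rw [mul_inv, mul_comm, ← mul_assoc, mul_inv_cancel₀ this, one_mul]
  rw [Finset.sum_congr rfl (fun ν _ => h2 ν), phi]
  refine Finset.sum_nbij' (fun ν => ν.mapDomain (permT π)) (fun μ => μ.mapDomain (permT π).symm) ?_ ?_ ?_ ?_ ?_
  · intro ν hν
    exact (mem_wts_mapDomain ρ m π hm m' hmm ν).mpr hν
  · intro μ hμ
    rw [← mem_wts_mapDomain ρ m π hm m' hmm, ← Finsupp.mapDomain_comp, Equiv.self_comp_symm,
      Finsupp.mapDomain_id]
    exact hμ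
  · intro ν _
    rw [← Finsupp.mapDomain_comp, Equiv.symm_comp_self, Finsupp.mapDomain_id]
  · intro μ _
    rw [← Finsupp.mapDomain_comp, Equiv.self_comp_symm, Finsupp.mapDomain_id]
  · intro ν _
    rfl

end monomial

/-- the quadratic forms are non-zero -/
theorem exists_qf_ne_zero [CharZero k] {J : Matrix ι ι k} (hJ : IsJ ρ J) (hsym : Jᵀ = J)
    (J' : Matrix ι ι k) (hJJ : J' * J = 1) (ν : Tn n →₀ ℕ) (hν : ν ∈ wts ρ) :
    ∃ y, qf ρ J ν y ≠ 0 := by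
  by_contra hcon
  push Not at hcon
  rw [mem_wts] at hν
  apply hν
  -- polarisation
  have hs : (J * Pw ρ ν)ᵀ = J * Pw ρ ν := by
    rw [Matrix.transpose_mul, hsym, hJ.Pw]
  have h1 : J * Pw ρ ν = 0 := by
    ext a b
    have h2 := hcon (Pi.single a 1 + Pi.single b 1)
    have h3 := hcon (Pi.single a 1)
    have h4 := hcon (Pi.single b 1)
    have h5 : ∀ a b, Pi.single a (1 : k) ⬝ᵥ ((J * Pw ρ ν) *ᵥ Pi.single b 1) = (J * Pw ρ ν) a b := by
      intro a b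
      rw [single_dotProduct, one_mul, Matrix.mulVec_single_one]
      rfl
    rw [qf, Matrix.mulVec_add, dotProduct_add, add_dotProduct, add_dotProduct, h5, h5, h5, h5] at h2
    rw [qf, h5] at h3 h4
    have h6 : (J * Pw ρ ν) b a = (J * Pw ρ ν) a b := congrFun (congrFun hs a) b
    rw [h3, h4, h6] at h2
    rw [Matrix.zero_apply]
    have h7 : (2 : k) * (J * Pw ρ ν) a b = 0 := by linear_combination h2
    exact (mul_eq_zero.mp h7).resolve_left two_ne_zero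
  calc Pw ρ ν = J' * (J * Pw ρ ν) := by rw [← Matrix.mul_assoc, hJJ, Matrix.one_mul]
    _ = 0 := by rw [h1, Matrix.mul_zero]

end VSum
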