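import Mathlib
import Pool.Agent.Helper59.VSum.Diag
import Pool.Agent.Helper59.VSum.Phi
import Pool.Agent.Helper59.VSum.NoNameSL

/-!
# The parametrization of `U ⊕ 𝔤` over an arbitrary commutative algebra
-/

set_option linter.unusedSectionVars false
set_option linter.style.haveILetI false

open MvPolynomial Matrix VDual

namespace VSum

variable {k : Type*} [Field k]
variable {I : Type*} [Fintype I] [DecidableEq I] {n : I → ℕ}
variable {ι : Type*} [Fintype ι] [DecidableEq ι]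
variable (ρ : PolyRep k (fun i => Fin (n i)) ι) (J : Matrix ι ι k)

section data

variable {T : Type*} [CommRing T] [Algebra k T]

/-- the point `ρ(h) y` -/
noncomputable def uF (h : MatT (fun i => Fin (n i)) T) (y : ι → T) : ι → T := ev ρ.P h *ᵥ y

/-- the quadratic forms -/
noncomputable def qF (ν : Tn n →₀ ℕ) (y : ι → T) : T :=
  y ⬝ᵥ ((J * Pw ρ ν).map (algebraMap k T) *ᵥ y)

/-- the inversion -/
noncomputable def phF (y : ι → T) : ι → T :=
  ∑ ν ∈ wts ρ, Ring.inverse (qF ρ J ν y) • ((Pw ρ ν).map (algebraMap k T) *ᵥ y)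

/-- the dual point -/
noncomputable def psF (h' : MatT (fun i => Fin (n i)) T) (y : ι → T) : ι → T :=
  (ev ρ.P h')ᵀ *ᵥ (J.map (algebraMap k T) *ᵥ phF ρ J y)

/-- the coordinates of the semisimple element -/
def aF (z : ∀ i, Fin (n i)) (h h' : MatT (fun i => Fin (n i)) T) (l : Tn n → T) (e : E0 z) : T :=
  co z (h * diagT l * h') e.1

end data

section nat

variable {T T' : Type*} [CommRing T] [Algebra k T] [CommRing T'] [Algebra k T'] (χ : T →ₐ[k] T')

theorem map_mulVec' (M : Matrix ι ι T) (y : ι → T) (a : ι) :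
    χ ((M *ᵥ y) a) = (M.map χ *ᵥ (fun a => χ (y a))) a := by
  simp only [mulVec, dotProduct, map_sum, map_mul, Matrix.map_apply]

theorem map_uF (h : MatT (fun i => Fin (n i)) T) (y : ι → T) (a : ι) :
    χ (uF ρ h y a) = uF ρ (mapT χ h) (fun a => χ (y a)) a := by
  rw [uF, uF, map_mulVec', ev_map]

theorem map_algebraMap' (M : Matrix ι ι k) : (M.map (algebraMap k T)).map χ = M.map (algebraMap k T') := by
  ext a b
  rw [Matrix.map_apply, Matrix.map_apply, Matrix.map_apply, AlgHom.commutes]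

theorem map_qF (ν : Tn n →₀ ℕ) (y : ι → T) :
    χ (qF ρ J ν y) = qF ρ J ν (fun a => χ (y a)) := by
  rw [qF, qF, dotProduct, dotProduct, map_sum]
  refine Finset.sum_congr rfl fun a _ => ?_
  rw [map_mul, map_mulVec', map_algebraMap']

theorem map_phF (y : ι → T) (hy : ∀ ν ∈ wts ρ, IsUnit (qF ρ J ν y)) (a : ι) :
    χ (phF ρ J y a) = phF ρ J (fun a => χ (y a)) a := by
  rw [phF, phF, Finset.sum_apply, Finset.sum_apply, map_sum]
  refine Finset.sum_congr rfl fun ν hν => ?_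
  rw [Pi.smul_apply, Pi.smul_apply, smul_eq_mul, smul_eq_mul, map_mul, map_mulVec', map_algebraMap']
  congr 1
  have h1 : χ (qF ρ J ν y) * χ (Ring.inverse (qF ρ J ν y)) = 1 := by
    rw [← map_mul, Ring.mul_inverse_cancel _ (hy ν hν), map_one]
  rw [← map_qF]
  exact (Ring.eq_mul_inverse_iff_mul_eq _ _ _ (IsUnit.of_mul_eq_one _ h1)).mpr (by rw [mul_comm]; exact h1) |>.trans
    (one_mul _)

theorem map_psF (h' : MatT (fun i => Fin (n i)) T) (y : ι → T) (hy : ∀ ν ∈ wts ρ, IsUnit (qF ρ J ν y))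
    (a : ι) : χ (psF ρ J h' y a) = psF ρ J (mapT χ h') (fun a => χ (y a)) a := by
  rw [psF, psF, map_mulVec']
  congr 1
  · rw [← ev_map, Matrix.transpose_map]
  · funext b
    rw [map_mulVec', map_algebraMap']
    congr 1
    funext c
    exact map_phF ρ J χ y hy c

theorem map_aF (z : ∀ i, Fin (n i)) (h h' : MatT (fun i => Fin (n i)) T) (l : Tn n → T) (e : E0 z) :
    χ (aF z h h' l e) = aF z (mapT χ h) (mapT χ h') (fun e => χ (l e)) e := by
  have h1 := map_co (χ : T →+* T') z (h * diagT l * h') e.1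
  rw [mapT_mul, mapT_mul, mapT_diagT] at h1
  exact h1

end nat

theorem qF_field (ν : Tn n →₀ ℕ) (y : ι → k) : qF ρ J ν y = qf ρ J ν y := by
  rw [qF, qf]
  congr 1

theorem phF_field (y : ι → k) : phF ρ J y = phi ρ J y := by
  rw [phF, phi]
  refine Finset.sum_congr rfl fun ν _ => ?_
  rw [qF_field, Ring.inverse_eq_inv']
  congr 1

theorem psF_field (h' : MatT (fun i => Fin (n i)) k) (y : ι → k) :
    psF ρ J h' y = (ev ρ.P h')ᵀ *ᵥ (J *ᵥ phi ρ J y) := by
  rw [psF, phF_field]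
  congr 1

section comparison

variable {ρ J}

/-- two parameters giving the same semisimple element modulo scalars differ by a monomial tuple -/
theorem exists_monomial (z : ∀ i, Fin (n i)) (h h' h1 h1' : MatT (fun i => Fin (n i)) k) (l l1 : Tn n → k)
    (hh : h * h' = 1) (hh1 : h1 * h1' = 1)
    (hl : ∀ i, Function.Injective fun p => l ⟨i, p⟩) (hl1 : ∀ i, Function.Injective fun p => l1 ⟨i, p⟩)
    (ha : ∀ e, aF z h h' l e = aF z h1 h1' l1 e) :
    ∃ π : ∀ i, Equiv.Perm (Fin (n i)), ∀ i p q, (h1' * h) i p q ≠ 0 → q = π i p := by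
  have hh' : h' * h = 1 := mul_eq_one_comm.mp hh
  have hh1' : h1' * h1 = 1 := mul_eq_one_comm.mp hh1
  have e1 := eq_sum_co z (h * diagT l * h')
  have e2 := eq_sum_co z (h1 * diagT l1 * h1')
  have e3 : ∑ f : E0 z, co z (h * diagT l * h') f.1 • unitT k f.1 =
      ∑ f : E0 z, co z (h1 * diagT l1 * h1') f.1 • unitT k f.1 := by
    refine Finset.sum_congr rfl fun f _ => ?_
    have := ha f
    simp only [aF] at this
    rw [this]
  rw [e3] at e1
  have e4 : h * diagT l * h' = h1 * diagT l1 * h1' +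
      scal (fun i => (h * diagT l * h') i (z i) (z i) - (h1 * diagT l1 * h1') i (z i) (z i)) := by
    have e5 : (scal (fun i => (h * diagT l * h') i (z i) (z i) - (h1 * diagT l1 * h1') i (z i) (z i)) :
        MatT (fun i => Fin (n i)) k) = scal (fun i => (h * diagT l * h') i (z i) (z i)) -
        scal (fun i => (h1 * diagT l1 * h1') i (z i) (z i)) := by
      funext i
      exact sub_smul _ _ _
    rw [e5]
    calc h * diagT l * h' = ∑ f : E0 z, co z (h1 * diagT l1 * h1') f.1 • unitT k f.1 +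
          scal (fun i => (h * diagT l * h') i (z i) (z i)) := e1
      _ = (∑ f : E0 z, co z (h1 * diagT l1 * h1') f.1 • unitT k f.1 +
            scal (fun i => (h1 * diagT l1 * h1') i (z i) (z i))) +
          (scal (fun i => (h * diagT l * h') i (z i) (z i)) -
            scal (fun i => (h1 * diagT l1 * h1') i (z i) (z i))) := by abel
      _ = _ := by rw [← e2]
  have key : ∀ i, ∃ c : k, (h1' * h) i * Matrix.diagonal (fun p => l ⟨i, p⟩) =
      Matrix.diagonal (fun p => l1 ⟨i, p⟩ + c) * (h1' * h) i := by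
    intro i
    refine ⟨(h * diagT l * h') i (z i) (z i) - (h1 * diagT l1 * h1') i (z i) (z i), ?_⟩
    have e6 := congrFun e4 i
    have e7 : h i * Matrix.diagonal (fun p => l ⟨i, p⟩) * h' i = h1 i * Matrix.diagonal (fun p => l1 ⟨i, p⟩) * h1' i +
        ((h * diagT l * h') i (z i) (z i) - (h1 * diagT l1 * h1') i (z i) (z i)) •
          (1 : Matrix (Fin (n i)) (Fin (n i)) k) := e6
    generalize (h * diagT l * h') i (z i) (z i) - (h1 * diagT l1 * h1') i (z i) (z i) = c at e7 ⊢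
    have f1 : h' i * h i = 1 := congrFun hh' i
    have f2 : h1' i * h1 i = 1 := congrFun hh1' i
    have e8 : Matrix.diagonal (fun p => l1 ⟨i, p⟩ + c) = Matrix.diagonal (fun p => l1 ⟨i, p⟩) +
        c • (1 : Matrix (Fin (n i)) (Fin (n i)) k) := by
      rw [Matrix.smul_one_eq_diagonal, Matrix.diagonal_add]
    rw [e8]
    change h1' i * h i * _ = _ * (h1' i * h i)
    calc h1' i * h i * Matrix.diagonal (fun p => l ⟨i, p⟩)
        = h1' i * (h i * Matrix.diagonal (fun p => l ⟨i, p⟩) * h' i) * h i := by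
          rw [Matrix.mul_assoc (h1' i) (h i), Matrix.mul_assoc (h1' i) (_ * h' i) (h i),
            Matrix.mul_assoc (h i * _) (h' i) (h i), f1, Matrix.mul_one]
      _ = (h1' i * h1 i) * Matrix.diagonal (fun p => l1 ⟨i, p⟩) * (h1' i * h i) + c • (h1' i * h i) := by
          rw [e7, Matrix.mul_add, Matrix.add_mul]
          congr 1
          · simp only [Matrix.mul_assoc]
          · rw [Matrix.mul_smul, Matrix.smul_mul, Matrix.mul_one]
      _ = _ := by
          rw [f2, Matrix.one_mul, Matrix.add_mul, Matrix.smul_mul, Matrix.one_mul]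
  choose c hc using key
  have hinv : ∀ i, (h1' * h) i * (h' * h1) i = 1 := by
    intro i
    have f1 : (h1' * h) * (h' * h1) = 1 := by
      rw [mul_assoc, ← mul_assoc h, hh, one_mul, hh1']
    exact congrFun f1 i
  choose π hπ using fun i => exists_perm ((h1' * h) i) ((h' * h1) i) (hinv i) (fun p => l ⟨i, p⟩)
    (fun p => l1 ⟨i, p⟩) (hl i) (hl1 i) (c i) (hc i)
  exact ⟨π, hπ⟩

variable [Infinite k]

/-- the dual point is determined by the point and the semisimple element -/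
theorem psF_eq (hJ : IsJ ρ J) (z : ∀ i, Fin (n i)) (h h' h1 h1' : MatT (fun i => Fin (n i)) k) (l l1 : Tn n → k)
    (hh : h * h' = 1) (hh1 : h1 * h1' = 1)
    (hl : ∀ i, Function.Injective fun p => l ⟨i, p⟩) (hl1 : ∀ i, Function.Injective fun p => l1 ⟨i, p⟩)
    (ha : ∀ e, aF z h h' l e = aF z h1 h1' l1 e) (y y1 : ι → k) (hu : uF ρ h y = uF ρ h1 y1) :
    psF ρ J h' y = psF ρ J h1' y1 := by
  obtain ⟨π, hπ⟩ := exists_monomial z h h' h1 h1' l l1 hh hh1 hl hl1 ha
  have hh' : h' * h = 1 := mul_eq_one_comm.mp hh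
  have hh1' : h1' * h1 = 1 := mul_eq_one_comm.mp hh1
  have hinv : (h1' * h) * (h' * h1) = 1 := by
    rw [mul_assoc, ← mul_assoc h, hh, one_mul, hh1']
  obtain ⟨d, hd, hd0⟩ := monomial_tuple (h1' * h) (h' * h1) hinv π hπ
  have hy1 : y1 = ev ρ.P (h1' * h) *ᵥ y := by
    rw [ρ.mul', ← Matrix.mulVec_mulVec]
    have e1 : ev ρ.P h *ᵥ y = ev ρ.P h1 *ᵥ y1 := hu
    rw [e1, Matrix.mulVec_mulVec, ← ρ.mul', hh1', ρ.one, Matrix.one_mulVec]
  have hphi := phi_monomial ρ (h1' * h) π d hJ hπ (h' * h1) hinv hd hd0 y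
  rw [psF_field, psF_field, ← hphi, ← hy1, Matrix.mulVec_mulVec, ← Matrix.transpose_mul, ← ρ.mul']
  congr 3
  rw [mul_assoc, hh, mul_one]

/-- the point is determined by the dual point and the semisimple element -/
theorem uF_eq (hJ : IsJ ρ J) (J' : Matrix ι ι k) (hJJ : J' * J = 1) (z : ∀ i, Fin (n i))
    (h h' h1 h1' : MatT (fun i => Fin (n i)) k) (l l1 : Tn n → k)
    (hh : h * h' = 1) (hh1 : h1 * h1' = 1)
    (hl : ∀ i, Function.Injective fun p => l ⟨i, p⟩) (hl1 : ∀ i, Function.Injective fun p => l1 ⟨i, p⟩)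
    (ha : ∀ e, aF z h h' l e = aF z h1 h1' l1 e) (y y1 : ι → k)
    (hq : ∀ ν ∈ wts ρ, qf ρ J ν y ≠ 0) (hq1 : ∀ ν ∈ wts ρ, qf ρ J ν y1 ≠ 0)
    (hψ : psF ρ J h' y = psF ρ J h1' y1) :
    uF ρ h y = uF ρ h1 y1 := by
  obtain ⟨π, hπ⟩ := exists_monomial z h h' h1 h1' l l1 hh hh1 hl hl1 ha
  have hh' : h' * h = 1 := mul_eq_one_comm.mp hh
  have hh1' : h1' * h1 = 1 := mul_eq_one_comm.mp hh1
  have hinv : (h1' * h) * (h' * h1) = 1 := by
    rw [mul_assoc, ← mul_assoc h, hh, one_mul, hh1']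
  obtain ⟨d, hd, hd0⟩ := monomial_tuple (h1' * h) (h' * h1) hinv π hπ
  have hphi := phi_monomial ρ (h1' * h) π d hJ hπ (h' * h1) hinv hd hd0 y
  -- cancel `ρ(h')ᵀ`
  have hcan : ∀ v w : ι → k, (ev ρ.P h')ᵀ *ᵥ v = (ev ρ.P h')ᵀ *ᵥ w → v = w := by
    intro v w hvw
    have e1 : (ev ρ.P h)ᵀ * (ev ρ.P h')ᵀ = 1 := by
      rw [← Matrix.transpose_mul, ← ρ.mul', hh', ρ.one, Matrix.transpose_one]
    calc v = ((ev ρ.P h)ᵀ * (ev ρ.P h')ᵀ) *ᵥ v := by rw [e1, Matrix.one_mulVec]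
      _ = ((ev ρ.P h)ᵀ * (ev ρ.P h')ᵀ) *ᵥ w := by
          rw [← Matrix.mulVec_mulVec, hvw, Matrix.mulVec_mulVec]
      _ = w := by rw [e1, Matrix.one_mulVec]
  rw [psF_field, psF_field] at hψ
  have e2 : (ev ρ.P h1')ᵀ = (ev ρ.P h')ᵀ * (ev ρ.P (h1' * h))ᵀ := by
    rw [← Matrix.transpose_mul, ← ρ.mul', mul_assoc, hh, mul_one]
  rw [e2, ← Matrix.mulVec_mulVec] at hψ
  have e3 := hcan _ _ hψ
  -- `J φ(y) = ρ(m)ᵀ J φ(y1)`
  rw [← hphi] at e3
  have e4 : ∀ v w : ι → k, (ev ρ.P (h1' * h))ᵀ *ᵥ v = (ev ρ.P (h1' * h))ᵀ *ᵥ w → v = w := by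
    intro v w hvw
    have e1 : (ev ρ.P (h' * h1))ᵀ * (ev ρ.P (h1' * h))ᵀ = 1 := by
      rw [← Matrix.transpose_mul, ← ρ.mul', hinv, ρ.one, Matrix.transpose_one]
    calc v = ((ev ρ.P (h' * h1))ᵀ * (ev ρ.P (h1' * h))ᵀ) *ᵥ v := by rw [e1, Matrix.one_mulVec]
      _ = ((ev ρ.P (h' * h1))ᵀ * (ev ρ.P (h1' * h))ᵀ) *ᵥ w := by
          rw [← Matrix.mulVec_mulVec, hvw, Matrix.mulVec_mulVec]
      _ = w := by rw [e1, Matrix.one_mulVec]
  have e5 := e4 _ _ e3
  have e6 : ∀ v w : ι → k, J *ᵥ v = J *ᵥ w → v = w := by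
    intro v w hvw
    calc v = (J' * J) *ᵥ v := by rw [hJJ, Matrix.one_mulVec]
      _ = (J' * J) *ᵥ w := by rw [← Matrix.mulVec_mulVec, hvw, Matrix.mulVec_mulVec]
      _ = w := by rw [hJJ, Matrix.one_mulVec]
  have e7 := e6 _ _ e5
  have hq2 : ∀ ν ∈ wts ρ, qf ρ J ν (ev ρ.P (h1' * h) *ᵥ y) ≠ 0 := by
    intro ν hν
    rw [qf_monomial ρ (h1' * h) π d hJ hπ hd]
    refine mul_ne_zero (prod_pow_ne_zero d hd0 _) (hq _ ?_)
    rw [mem_wts_mapDomain ρ (h1' * h) π hπ (h' * h1) hinv]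
    exact hν
  have e8 : ev ρ.P (h1' * h) *ᵥ y = y1 := by
    calc ev ρ.P (h1' * h) *ᵥ y = phi ρ J (phi ρ J (ev ρ.P (h1' * h) *ᵥ y)) := (phi_phi ρ hJ _ hq2).symm
      _ = phi ρ J (phi ρ J y1) := by rw [e7]
      _ = y1 := phi_phi ρ hJ _ hq1
  rw [uF, uF, ← e8, Matrix.mulVec_mulVec, ← ρ.mul', ← mul_assoc, hh1, one_mul]

end comparison

end VSum
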