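import Mathlib
import Pool.Agent.Helper59.VSum.Data

/-!
# `U ⊕ 𝔤` and `U* ⊕ 𝔤` are birationally isomorphic
-/

set_option linter.unusedSectionVars false
set_option linter.style.haveILetI false

open MvPolynomial Matrix VDual

namespace VSum

variable {k : Type*} [Field k]
variable {I : Type*} [Fintype I] [DecidableEq I] {n : I → ℕ}
variable {ι : Type*} [Fintype ι] [DecidableEq ι]
variable (ρ : PolyRep k (fun i => Fin (n i)) ι) (J : Matrix ι ι k)

/-- the parameters: eigenvalues, vector, conjugating matrices -/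
abbrev Sg (n : I → ℕ) (ι : Type*) : Type _ := (Tn n ⊕ ι) ⊕ En n

/-- the denominator -/
noncomputable def wB : MvPolynomial (Sg n ι) k :=
  wD k n (Tn n ⊕ ι) * ∏ ν ∈ wts ρ, qF ρ J ν (fun t => (X (Sum.inl (Sum.inr t)) : MvPolynomial (Sg n ι) k))

/-- the vector part of a point -/
def ypt (v : Sg n ι → k) : ι → k := fun t => v (Sum.inl (Sum.inr t))

/-- the eigenvalue part of a point -/
def lpt (v : Sg n ι → k) : Tn n → k := fun e => v (Sum.inl (Sum.inl e))

theorem eval_qF (v : Sg n ι → k) (ν : Tn n →₀ ℕ) :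
    eval v (qF ρ J ν (fun t => (X (Sum.inl (Sum.inr t)) : MvPolynomial (Sg n ι) k))) = qf ρ J ν (ypt v) := by
  have h1 := map_qF ρ J (aeval v : MvPolynomial (Sg n ι) k →ₐ[k] k) ν
    (fun t => (X (Sum.inl (Sum.inr t)) : MvPolynomial (Sg n ι) k))
  have h2 : (fun a => (aeval v : MvPolynomial (Sg n ι) k →ₐ[k] k)
      (X (Sum.inl (Sum.inr a)) : MvPolynomial (Sg n ι) k)) = ypt v := by
    funext a
    rw [aeval_X]
    rfl
  rw [h2, qF_field] at h1
  exact h1

theorem eval_wB (v : Sg n ι → k) : eval v (wB ρ J) = (∏ i, (hpt v i).det) * ∏ ν ∈ wts ρ, qf ρ J ν (ypt v) := by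
  rw [wB, map_mul, eval_wD, map_prod]
  congr 1
  refine Finset.prod_congr rfl fun ν _ => ?_
  exact eval_qF ρ J v ν

theorem qFX_ne_zero [CharZero k] (hJ : IsJ ρ J) (hsym : Jᵀ = J) (J' : Matrix ι ι k) (hJJ : J' * J = 1)
    (ν : Tn n →₀ ℕ) (hν : ν ∈ wts ρ) : qF ρ J ν (X : ι → MvPolynomial ι k) ≠ 0 := by
  haveI : Infinite k := CharZero.infinite k
  obtain ⟨y, hy⟩ := exists_qf_ne_zero ρ hJ hsym J' hJJ ν hν
  intro h0
  apply hy
  have h1 := map_qF ρ J (aeval y : MvPolynomial ι k →ₐ[k] k) ν X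
  have h2 : (fun a => (aeval y : MvPolynomial ι k →ₐ[k] k) (X a)) = y := by
    funext a
    rw [aeval_X]
  rw [h2, qF_field, h0, map_zero] at h1
  exact h1.symm

theorem wB_ne_zero [CharZero k] (hJ : IsJ ρ J) (hsym : Jᵀ = J) (J' : Matrix ι ι k) (hJJ : J' * J = 1) :
    wB ρ J ≠ 0 := by
  haveI : Infinite k := CharZero.infinite k
  refine mul_ne_zero (wD_ne_zero k n _) ?_
  rw [Finset.prod_ne_zero_iff]
  intro ν hν h0
  obtain ⟨y, hy⟩ := exists_qf_ne_zero ρ hJ hsym J' hJJ ν hν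
  apply hy
  have h1 := eval_qF ρ J (Sum.elim (Sum.elim (fun _ => 0) y) (fun _ => 0)) ν
  rw [h0, map_zero] at h1
  exact h1.symm

/-- the parameter ring -/
abbrev Sw : Type _ := Localization.Away (wB ρ J)

/-- the parameters as elements of the ring -/
noncomputable def xS (x : Sg n ι) : Sw ρ J := algebraMap (MvPolynomial (Sg n ι) k) (Sw ρ J) (X x)

/-- generic matrices -/
noncomputable def HS : MatT (fun i => Fin (n i)) (Sw ρ J) := unpt fun e => xS ρ J (Sum.inr e)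

/-- generic eigenvalues -/
noncomputable def lS (e : Tn n) : Sw ρ J := xS ρ J (Sum.inl (Sum.inl e))

/-- generic vector -/
noncomputable def yS (t : ι) : Sw ρ J := xS ρ J (Sum.inl (Sum.inr t))

theorem prod_det_of_hom {T σ0 : Type*} [CommRing T] (φ : MvPolynomial (σ0 ⊕ En n) k →+* T) :
    ∏ i, ((unpt fun e => φ (X (Sum.inr e)) : MatT (fun i => Fin (n i)) T) i).det = φ (wD k n σ0) := by
  have h0 : wD k n σ0 = ∏ i, rename Sum.inr ((gen (fun i => Fin (n i)) k i).det) := by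
    rw [wD_def, omg, map_prod]
  rw [h0, map_prod]
  refine Finset.prod_congr rfl fun i _ => ?_
  rw [AlgHom.map_det, RingHom.map_det]
  congr 1
  ext1 p q
  have h1 : (rename Sum.inr (X (⟨i, (p, q)⟩ : En n)) : MvPolynomial (σ0 ⊕ En n) k) =
      X (Sum.inr (⟨i, (p, q)⟩ : En n)) := rename_X _ _
  change _ = φ (rename Sum.inr (X (⟨i, (p, q)⟩ : En n)))
  rw [h1]
  rfl

theorem isUnit_wB : IsUnit (algebraMap (MvPolynomial (Sg n ι) k) (Sw ρ J) (wB ρ J)) :=
  IsLocalization.Away.algebraMap_isUnit _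

theorem algebraMap_wB : algebraMap (MvPolynomial (Sg n ι) k) (Sw ρ J) (wB ρ J) =
    algebraMap (MvPolynomial (Sg n ι) k) (Sw ρ J) (wD k n (Tn n ⊕ ι)) *
    algebraMap (MvPolynomial (Sg n ι) k) (Sw ρ J)
      (∏ ν ∈ wts ρ, qF ρ J ν (fun t => (X (Sum.inl (Sum.inr t)) : MvPolynomial (Sg n ι) k))) := by
  rw [← map_mul]
  rfl

theorem isUnit_detHS (i : I) : IsUnit (HS ρ J i).det := by
  have h1 := isUnit_wB ρ J
  rw [algebraMap_wB] at h1
  have h2 := isUnit_of_mul_isUnit_left h1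
  rw [← prod_det_of_hom (algebraMap (MvPolynomial (Sg n ι) k) (Sw ρ J))] at h2
  exact isUnit_of_dvd_unit (Finset.dvd_prod_of_mem (fun i => (HS ρ J i).det) (Finset.mem_univ i)) h2

/-- the inverse generic matrices -/
noncomputable def HS' : MatT (fun i => Fin (n i)) (Sw ρ J) := fun i => (HS ρ J i)⁻¹

theorem HS_mul : HS ρ J * HS' ρ J = 1 := by
  funext i
  exact Matrix.mul_nonsing_inv _ (isUnit_detHS ρ J i)

theorem HS'_mul : HS' ρ J * HS ρ J = 1 := by
  funext i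
  exact Matrix.nonsing_inv_mul _ (isUnit_detHS ρ J i)

theorem qF_yS (ν : Tn n →₀ ℕ) : qF ρ J ν (yS ρ J) = algebraMap (MvPolynomial (Sg n ι) k) (Sw ρ J)
    (qF ρ J ν (fun t => (X (Sum.inl (Sum.inr t)) : MvPolynomial (Sg n ι) k))) :=
  (map_qF ρ J (IsScalarTower.toAlgHom k (MvPolynomial (Sg n ι) k) (Sw ρ J)) ν
    (fun t => (X (Sum.inl (Sum.inr t)) : MvPolynomial (Sg n ι) k))).symm

theorem isUnit_qF (ν : Tn n →₀ ℕ) (hν : ν ∈ wts ρ) : IsUnit (qF ρ J ν (yS ρ J)) := by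
  have h1 := isUnit_wB ρ J
  rw [algebraMap_wB] at h1
  have h2 := isUnit_of_mul_isUnit_right h1
  rw [map_prod] at h2
  rw [qF_yS]
  exact isUnit_of_dvd_unit (Finset.dvd_prod_of_mem (fun ν => algebraMap (MvPolynomial (Sg n ι) k) (Sw ρ J)
    (qF ρ J ν (fun t => (X (Sum.inl (Sum.inr t)) : MvPolynomial (Sg n ι) k)))) hν) h2

/-- homomorphisms out of the parameter ring -/
theorem exists_lift {T : Type*} [CommRing T] [Algebra k T] (f : Sg n ι → T)
    (hf : IsUnit (aeval f (wB ρ J))) : ∃ α : Sw ρ J →ₐ[k] T, ∀ x, α (xS ρ J x) = f x := by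
  have hu : ∀ y : Submonoid.powers (wB ρ J), IsUnit ((aeval f : MvPolynomial (Sg n ι) k →ₐ[k] T) y) := by
    rintro ⟨_, N, rfl⟩
    change IsUnit (aeval f (wB ρ J ^ N))
    rw [map_pow]
    exact hf.pow N
  refine ⟨IsLocalization.liftAlgHom (M := Submonoid.powers (wB ρ J)) (S := Sw ρ J) (f := aeval f) hu, ?_⟩
  intro x
  change IsLocalization.liftAlgHom (M := Submonoid.powers (wB ρ J)) (S := Sw ρ J) (f := aeval f) hu
    (algebraMap (MvPolynomial (Sg n ι) k) (Sw ρ J) (X x)) = f x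
  rw [IsLocalization.liftAlgHom_apply, IsLocalization.lift_eq]
  exact aeval_X f x

/-- the action of a group element on the parameters -/
theorem exists_act (g : SLP k n) : ∃ α : Sw ρ J →ₐ[k] Sw ρ J,
    mapT α (HS ρ J) = mapT (algebraMap k (Sw ρ J)) (toT g) * HS ρ J ∧
    mapT α (HS' ρ J) = HS' ρ J * mapT (algebraMap k (Sw ρ J)) (toT g⁻¹) ∧
    (∀ e, α (lS ρ J e) = lS ρ J e) ∧ (∀ t, α (yS ρ J t) = yS ρ J t) := by
  let gS : MatT (fun i => Fin (n i)) (Sw ρ J) := mapT (algebraMap k (Sw ρ J)) (toT g)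
  let gS' : MatT (fun i => Fin (n i)) (Sw ρ J) := mapT (algebraMap k (Sw ρ J)) (toT g⁻¹)
  have hgg : gS * gS' = 1 := by
    simp only [gS, gS']
    rw [← mapT_mul, ← toT_mul, mul_inv_cancel, toT_one]
    funext i
    exact Matrix.map_one _ (map_zero _) (map_one _)
  have hgg' : gS' * gS = 1 := by
    simp only [gS, gS']
    rw [← mapT_mul, ← toT_mul, inv_mul_cancel, toT_one]
    funext i
    exact Matrix.map_one _ (map_zero _) (map_one _)
  let f : Sg n ι → Sw ρ J := Sum.elim (fun x => xS ρ J (Sum.inl x)) (fun e => pt (gS * HS ρ J) e)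
  have hdet : ∀ i, (gS i).det = 1 := by
    intro i
    have h1 : (gS i).det = algebraMap k (Sw ρ J) ((toT g i).det) := by
      rw [RingHom.map_det]
      rfl
    rw [h1]
    have h2 : (toT g i).det = 1 := (g i).2
    rw [h2, map_one]
  have hf : aeval f (wB ρ J) = algebraMap (MvPolynomial (Sg n ι) k) (Sw ρ J) (wB ρ J) := by
    have hw1 : aeval f (wB ρ J) = aeval f (wD k n (Tn n ⊕ ι)) * aeval f
        (∏ ν ∈ wts ρ, qF ρ J ν (fun t => (X (Sum.inl (Sum.inr t)) : MvPolynomial (Sg n ι) k))) := by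
      rw [← map_mul]
      rfl
    rw [hw1, algebraMap_wB, map_prod, map_prod]
    congr 1
    · have h1 := prod_det_of_hom (σ0 := Tn n ⊕ ι) (n := n) ((aeval f : MvPolynomial (Sg n ι) k →ₐ[k] Sw ρ J) :
        MvPolynomial (Sg n ι) k →+* Sw ρ J)
      have h2 := prod_det_of_hom (σ0 := Tn n ⊕ ι) (n := n) (algebraMap (MvPolynomial (Sg n ι) k) (Sw ρ J))
      refine (h1.symm.trans ?_).trans h2
      refine Finset.prod_congr rfl fun i _ => ?_
      have h3 : (unpt fun e => ((aeval f : MvPolynomial (Sg n ι) k →ₐ[k] Sw ρ J) :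
          MvPolynomial (Sg n ι) k →+* Sw ρ J) (X (Sum.inr e)) : MatT (fun i => Fin (n i)) (Sw ρ J)) =
          gS * HS ρ J := by
        rw [← unpt_pt (gS * HS ρ J)]
        congr 1
        funext e
        exact aeval_X f _
      rw [h3, Pi.mul_apply, Matrix.det_mul, hdet, one_mul]
      rfl
    · refine Finset.prod_congr rfl fun ν _ => ?_
      rw [← qF_yS]
      have h1 := map_qF ρ J (aeval f : MvPolynomial (Sg n ι) k →ₐ[k] Sw ρ J) ν
        (fun t => (X (Sum.inl (Sum.inr t)) : MvPolynomial (Sg n ι) k))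
      refine h1.trans ?_
      congr 1
      funext t
      exact aeval_X f _
  obtain ⟨α, hα⟩ := exists_lift ρ J f (by rw [hf]; exact isUnit_wB ρ J)
  have h1 : mapT α (HS ρ J) = gS * HS ρ J := by
    funext i
    ext1 p q
    exact hα (Sum.inr (⟨i, (p, q)⟩ : En n))
  refine ⟨α, h1, ?_, ?_, ?_⟩
  · have h2 : mapT α (HS ρ J) * mapT α (HS' ρ J) = 1 := by
      have h3 := mapT_mul (α : Sw ρ J →+* Sw ρ J) (HS ρ J) (HS' ρ J)
      rw [HS_mul] at h3
      refine h3.symm.trans ?_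
      funext i
      exact Matrix.map_one _ (map_zero _) (map_one _)
    rw [h1] at h2
    calc mapT α (HS' ρ J) = (HS' ρ J * gS') * (gS * HS ρ J) * mapT α (HS' ρ J) := by
          rw [mul_assoc (HS' ρ J), ← mul_assoc gS', hgg', one_mul, HS'_mul, one_mul]
      _ = HS' ρ J * gS' := by
          rw [mul_assoc, h2, mul_one]
  · intro e
    exact hα (Sum.inl (Sum.inl e))
  · intro t
    exact hα (Sum.inl (Sum.inr t))

/-- the coordinates of the first space -/
noncomputable def cU (z : ∀ i, Fin (n i)) : ι ⊕ E0 z → Sw ρ J :=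
  Sum.elim (uF ρ (HS ρ J) (yS ρ J)) (aF z (HS ρ J) (HS' ρ J) (lS ρ J))

/-- the coordinates of the second space -/
noncomputable def cP (z : ∀ i, Fin (n i)) : ι ⊕ E0 z → Sw ρ J :=
  Sum.elim (psF ρ J (HS' ρ J) (yS ρ J)) (aF z (HS ρ J) (HS' ρ J) (lS ρ J))

section eval

variable (v : Sg n ι → k) (hv : eval v (wB ρ J) ≠ 0)

theorem evL_xS (x : Sg n ι) : evL (wB ρ J) v hv (xS ρ J x) = v x := by
  rw [xS, evL_algebraMap, eval_X]

theorem evL_HS : mapT (evL (wB ρ J) v hv) (HS ρ J) = hpt v := by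
  funext i
  ext1 p q
  exact evL_xS ρ J v hv _

theorem hpt_mul_evL : hpt v * mapT (evL (wB ρ J) v hv) (HS' ρ J) = 1 := by
  rw [← evL_HS ρ J v hv]
  have h3 := mapT_mul ((evL (wB ρ J) v hv : Sw ρ J →ₐ[k] k) : Sw ρ J →+* k) (HS ρ J) (HS' ρ J)
  rw [HS_mul] at h3
  refine h3.symm.trans ?_
  funext i
  exact Matrix.map_one _ (map_zero _) (map_one _)

theorem evL_uS (t : ι) : evL (wB ρ J) v hv (uF ρ (HS ρ J) (yS ρ J) t) = uF ρ (hpt v) (ypt v) t := by
  rw [map_uF, evL_HS]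
  congr 1
  funext a
  exact evL_xS ρ J v hv _

theorem evL_aS (z : ∀ i, Fin (n i)) (e : E0 z) :
    evL (wB ρ J) v hv (aF z (HS ρ J) (HS' ρ J) (lS ρ J) e) =
      aF z (hpt v) (mapT (evL (wB ρ J) v hv) (HS' ρ J)) (lpt v) e := by
  rw [map_aF, evL_HS]
  congr 1
  funext a
  exact evL_xS ρ J v hv _

theorem evL_pS (t : ι) : evL (wB ρ J) v hv (psF ρ J (HS' ρ J) (yS ρ J) t) =
    psF ρ J (mapT (evL (wB ρ J) v hv) (HS' ρ J)) (ypt v) t := by
  rw [map_psF _ _ _ _ _ (isUnit_qF ρ J)]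
  congr 1
  funext a
  exact evL_xS ρ J v hv _

end eval

/-- the discriminant of the eigenvalues -/
noncomputable def DB (k : Type*) [Field k] (n : I → ℕ) (ι : Type*) : MvPolynomial (Sg n ι) k :=
  ∏ e : Tn n, ∏ f ∈ Finset.univ.erase e, (X (Sum.inl (Sum.inl e)) - X (Sum.inl (Sum.inl f)))

theorem DB_ne_zero : DB k n ι ≠ 0 := by
  rw [DB, Finset.prod_ne_zero_iff]
  intro e _
  rw [Finset.prod_ne_zero_iff]
  intro f hf h0
  rw [Finset.mem_erase] at hf
  rw [sub_eq_zero] at h0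
  have h1 := X_injective h0
  exact hf.1 (Sum.inl_injective (Sum.inl_injective h1)).symm

theorem lpt_injective (v : Sg n ι → k) (hv : eval v (DB k n ι) ≠ 0) : Function.Injective (lpt v) := by
  intro e f hef
  by_contra hne
  apply hv
  rw [DB, map_prod]
  apply Finset.prod_eq_zero (Finset.mem_univ e)
  rw [map_prod]
  apply Finset.prod_eq_zero (Finset.mem_erase.mpr ⟨Ne.symm hne, Finset.mem_univ f⟩)
  rw [map_sub, eval_X, eval_X, sub_eq_zero]
  exact hef

theorem lpt_injective' (v : Sg n ι → k) (hv : eval v (DB k n ι) ≠ 0) (i : I) :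
    Function.Injective fun p => lpt v ⟨i, p⟩ := by
  intro p q hpq
  have h1 := lpt_injective v hv hpq
  exact eq_of_heq (Sigma.mk.inj h1).2

variable {ρ J}

theorem qf_ypt_ne_zero (v : Sg n ι → k) (hv : eval v (wB ρ J) ≠ 0) (ν : Tn n →₀ ℕ) (hν : ν ∈ wts ρ) :
    qf ρ J ν (ypt v) ≠ 0 := by
  rw [eval_wB] at hv
  exact Finset.prod_ne_zero_iff.mp (right_ne_zero_of_mul hv) ν hν

theorem claim1 [IsAlgClosed k] [CharZero k] (hJ : IsJ ρ J) (hsym : Jᵀ = J) (J' : Matrix ι ι k)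
    (hJJ : J' * J = 1) (z : ∀ i, Fin (n i)) (t : ι) : ∃ P Q : MvPolynomial (ι ⊕ E0 z) k,
      aeval (cU ρ J z) Q ≠ 0 ∧ psF ρ J (HS' ρ J) (yS ρ J) t * aeval (cU ρ J z) Q = aeval (cU ρ J z) P := by
  haveI : Infinite k := CharZero.infinite k
  apply claimR (wB ρ J) (DB k n ι) (wB_ne_zero ρ J hJ hsym J' hJJ) DB_ne_zero
  intro v v' hv hv' hD hD' h
  rw [evL_pS, evL_pS]
  have h1 := psF_eq hJ z (hpt v) (mapT (evL (wB ρ J) v hv) (HS' ρ J)) (hpt v')
    (mapT (evL (wB ρ J) v' hv') (HS' ρ J)) (lpt v) (lpt v') (hpt_mul_evL ρ J v hv)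
    (hpt_mul_evL ρ J v' hv') (lpt_injective' v hD) (lpt_injective' v' hD')
    (by
      intro e
      have h2 := h (Sum.inr e)
      simp only [cU, Sum.elim_inr] at h2
      rw [evL_aS, evL_aS] at h2
      exact h2) (ypt v) (ypt v')
    (by
      funext s
      have h2 := h (Sum.inl s)
      simp only [cU, Sum.elim_inl] at h2
      rw [evL_uS, evL_uS] at h2
      exact h2)
  rw [h1]

theorem claim2 [IsAlgClosed k] [CharZero k] (hJ : IsJ ρ J) (hsym : Jᵀ = J) (J' : Matrix ι ι k)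
    (hJJ : J' * J = 1) (z : ∀ i, Fin (n i)) (t : ι) : ∃ P Q : MvPolynomial (ι ⊕ E0 z) k,
      aeval (cP ρ J z) Q ≠ 0 ∧ uF ρ (HS ρ J) (yS ρ J) t * aeval (cP ρ J z) Q = aeval (cP ρ J z) P := by
  haveI : Infinite k := CharZero.infinite k
  apply claimR (wB ρ J) (DB k n ι) (wB_ne_zero ρ J hJ hsym J' hJJ) DB_ne_zero
  intro v v' hv hv' hD hD' h
  rw [evL_uS, evL_uS]
  have h1 := uF_eq hJ J' hJJ z (hpt v) (mapT (evL (wB ρ J) v hv) (HS' ρ J)) (hpt v')
    (mapT (evL (wB ρ J) v' hv') (HS' ρ J)) (lpt v) (lpt v') (hpt_mul_evL ρ J v hv)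
    (hpt_mul_evL ρ J v' hv') (lpt_injective' v hD) (lpt_injective' v' hD')
    (by
      intro e
      have h2 := h (Sum.inr e)
      simp only [cP, Sum.elim_inr] at h2
      rw [evL_aS, evL_aS] at h2
      exact h2) (ypt v) (ypt v') (qf_ypt_ne_zero v hv) (qf_ypt_ne_zero v' hv')
    (by
      funext s
      have h2 := h (Sum.inl s)
      simp only [cP, Sum.elim_inl] at h2
      rw [evL_pS, evL_pS] at h2
      exact h2)
  rw [h1]

/-- the parametrization is dominant -/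
theorem dominant [IsAlgClosed k] [CharZero k] (hJ : IsJ ρ J) (hsym : Jᵀ = J) (J' : Matrix ι ι k)
    (hJJ : J' * J = 1) (z : ∀ i, Fin (n i)) (p : MvPolynomial (ι ⊕ E0 z) k)
    (hp : aeval (cU ρ J z) p = 0) : p = 0 := by
  classical
  haveI : Infinite k := CharZero.infinite k
  by_contra hne
  have hd0 : (rename Sum.inr (disc0 k z) : MvPolynomial (ι ⊕ E0 z) k) ≠ 0 := by
    intro h0
    exact disc0_ne_zero z (rename_injective _ Sum.inr_injective (by rw [h0, map_zero]))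
  obtain ⟨x, hx⟩ : ∃ x, eval x (p * rename Sum.inr (disc0 k z)) ≠ 0 := by
    by_contra hcon
    push Not at hcon
    exact (mul_ne_zero hne hd0) (MvPolynomial.funext fun v => by rw [hcon v, map_zero])
  rw [map_mul] at hx
  have hxp := left_ne_zero_of_mul hx
  have hxd := right_ne_zero_of_mul hx
  rw [eval_rename] at hxd
  obtain ⟨h, h', l, hh, _, hemb⟩ := exists_diagT z (x ∘ Sum.inr) hxd
  have hh' : h' * h = 1 := mul_eq_one_comm.mp hh
  -- the polynomial in `y`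
  let Fy : MvPolynomial ι k := aeval (Sum.elim
    ((ev ρ.P h).map (C : k →+* MvPolynomial ι k) *ᵥ (X : ι → MvPolynomial ι k))
    (fun e => C (x (Sum.inr e))) : ι ⊕ E0 z → MvPolynomial ι k) p
  have hFy : ∀ y, eval y Fy = eval (Sum.elim (ev ρ.P h *ᵥ y) (fun e => x (Sum.inr e))) p := by
    intro y
    have h1 : (aeval y : MvPolynomial ι k →ₐ[k] k).comp (aeval (Sum.elim
        ((ev ρ.P h).map (C : k →+* MvPolynomial ι k) *ᵥ (X : ι → MvPolynomial ι k))
        (fun e => C (x (Sum.inr e))) : ι ⊕ E0 z → MvPolynomial ι k)) =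
        aeval (Sum.elim (ev ρ.P h *ᵥ y) (fun e => x (Sum.inr e))) := by
      apply MvPolynomial.algHom_ext
      rintro (t | e)
      · rw [AlgHom.comp_apply, aeval_X, aeval_X, Sum.elim_inl, Sum.elim_inl]
        simp only [mulVec, dotProduct, map_sum, map_mul, Matrix.map_apply, aeval_X, aeval_C]
        rfl
      · rw [AlgHom.comp_apply, aeval_X, aeval_X, Sum.elim_inr, Sum.elim_inr, aeval_C]
        rfl
    exact DFunLike.congr_fun h1 p
  have hFy0 : Fy ≠ 0 := by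
    intro h0
    have h1 := hFy (ev ρ.P h' *ᵥ (x ∘ Sum.inl))
    rw [h0, map_zero, Matrix.mulVec_mulVec, ← ρ.mul', hh, ρ.one, Matrix.one_mulVec] at h1
    apply hxp
    rw [h1]
    congr 2
    funext s
    rcases s with s | s <;> rfl
  have hQ0 : (∏ ν ∈ wts ρ, qF ρ J ν (X : ι → MvPolynomial ι k)) ≠ 0 := by
    rw [Finset.prod_ne_zero_iff]
    intro ν hν
    exact qFX_ne_zero ρ J hJ hsym J' hJJ ν hν
  obtain ⟨y, hy⟩ : ∃ y, eval y (Fy * ∏ ν ∈ wts ρ, qF ρ J ν (X : ι → MvPolynomial ι k)) ≠ 0 := by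
    by_contra hcon
    push Not at hcon
    exact (mul_ne_zero hFy0 hQ0) (MvPolynomial.funext fun v => by rw [hcon v, map_zero])
  rw [map_mul] at hy
  have hyF := left_ne_zero_of_mul hy
  have hyQ := right_ne_zero_of_mul hy
  -- the point of the parameter space
  let v : Sg n ι → k := Sum.elim (Sum.elim l y) (pt h)
  have hhv : hpt v = h := unpt_pt h
  have hyv : ypt v = y := rfl
  have hlv : lpt v = l := rfl
  have hv : eval v (wB ρ J) ≠ 0 := by
    rw [eval_wB, hhv, hyv]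
    refine mul_ne_zero ?_ ?_
    · rw [Finset.prod_ne_zero_iff]
      intro i _ h0
      have h1 : (h i * h' i).det = 1 := by
        have h2 : h i * h' i = 1 := congrFun hh i
        rw [h2, Matrix.det_one]
      rw [Matrix.det_mul, h0, zero_mul] at h1
      exact zero_ne_one h1
    · rw [map_prod] at hyQ
      rw [Finset.prod_ne_zero_iff] at hyQ ⊢
      intro ν hν
      have h1 := hyQ ν hν
      have h2 := map_qF ρ J (aeval y : MvPolynomial ι k →ₐ[k] k) ν X
      have h3 : (fun a => (aeval y : MvPolynomial ι k →ₐ[k] k) (X a)) = y := by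
        funext a
        rw [aeval_X]
      rw [h3, qF_field] at h2
      rw [← h2]
      exact h1
  have hev' : mapT (evL (wB ρ J) v hv) (HS' ρ J) = h' := by
    have h1 := hpt_mul_evL ρ J v hv
    rw [hhv] at h1
    calc mapT (evL (wB ρ J) v hv) (HS' ρ J) = h' * h * mapT (evL (wB ρ J) v hv) (HS' ρ J) := by
          rw [hh', one_mul]
      _ = h' := by rw [mul_assoc, h1, mul_one]
  have hcomp : (evL (wB ρ J) v hv).comp (aeval (cU ρ J z)) =
      aeval (Sum.elim (ev ρ.P h *ᵥ y) (fun e => x (Sum.inr e))) := by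
    apply MvPolynomial.algHom_ext
    rintro (t | e)
    · rw [AlgHom.comp_apply, aeval_X, aeval_X, Sum.elim_inl]
      simp only [cU, Sum.elim_inl]
      rw [evL_uS, hhv, hyv, uF]
    · rw [AlgHom.comp_apply, aeval_X, aeval_X, Sum.elim_inr]
      simp only [cU, Sum.elim_inr]
      rw [evL_aS, hhv, hev', hlv, aF, ← hemb, co_embT]
      rfl
  have h1 := DFunLike.congr_fun hcomp p
  rw [AlgHom.comp_apply, hp, map_zero] at h1
  apply hyF
  rw [hFy]
  exact h1.symm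

theorem map_ev (g : MatT (fun i => Fin (n i)) k) (T : Type*) [CommRing T] [Algebra k T] :
    ev ρ.P (mapT (algebraMap k T) g) = (ev ρ.P g).map (algebraMap k T) :=
  (ev_map (Algebra.ofId k T) ρ.P g).symm

theorem gS_mul (g : SLP k n) : mapT (algebraMap k (Sw ρ J)) (toT g) * mapT (algebraMap k (Sw ρ J)) (toT g⁻¹) = 1 := by
  rw [← mapT_mul, ← toT_mul, mul_inv_cancel, toT_one]
  funext i
  exact Matrix.map_one _ (map_zero _) (map_one _)

theorem act_aF (z : ∀ i, Fin (n i)) (g : SLP k n) (α : Sw ρ J →ₐ[k] Sw ρ J)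
    (hα1 : mapT α (HS ρ J) = mapT (algebraMap k (Sw ρ J)) (toT g) * HS ρ J)
    (hα2 : mapT α (HS' ρ J) = HS' ρ J * mapT (algebraMap k (Sw ρ J)) (toT g⁻¹))
    (hα3 : ∀ e, α (lS ρ J e) = lS ρ J e) (e : E0 z) :
    α (aF z (HS ρ J) (HS' ρ J) (lS ρ J) e) =
      ∑ f, algebraMap k (Sw ρ J) ((Ad0 k z g : Matrix (E0 z) (E0 z) k) e f) *
        aF z (HS ρ J) (HS' ρ J) (lS ρ J) f := by
  have hl : (fun e => α (lS ρ J e)) = lS ρ J := by
    funext e
    exact hα3 e
  rw [map_aF, hα1, hα2, hl]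
  have h1 := AdM_apply z _ _ (gS_mul (ρ := ρ) (J := J) g) (HS ρ J * diagT (lS ρ J) * HS' ρ J) e
  have h2 : mapT (algebraMap k (Sw ρ J)) (toT g) * (HS ρ J * diagT (lS ρ J) * HS' ρ J) *
      mapT (algebraMap k (Sw ρ J)) (toT g⁻¹) = mapT (algebraMap k (Sw ρ J)) (toT g) * HS ρ J *
      diagT (lS ρ J) * (HS' ρ J * mapT (algebraMap k (Sw ρ J)) (toT g⁻¹)) := by
    simp only [mul_assoc]
  rw [h2] at h1
  refine h1.trans ?_
  refine Finset.sum_congr rfl fun f _ => ?_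
  rw [Ad0_val, ← map_AdM]
  rfl

theorem act_uF [Infinite k] (RU : SLP k n →* GL ι k)
    (hRU : ∀ g, (RU g : Matrix ι ι k) = ev ρ.P (toT g)) (g : SLP k n) (α : Sw ρ J →ₐ[k] Sw ρ J)
    (hα1 : mapT α (HS ρ J) = mapT (algebraMap k (Sw ρ J)) (toT g) * HS ρ J)
    (hα4 : ∀ e, α (yS ρ J e) = yS ρ J e) (t : ι) :
    α (uF ρ (HS ρ J) (yS ρ J) t) =
      ∑ f, algebraMap k (Sw ρ J) ((RU g : Matrix ι ι k) t f) * uF ρ (HS ρ J) (yS ρ J) f := by
  have hy : (fun e => α (yS ρ J e)) = yS ρ J := by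
    funext e
    exact hα4 e
  rw [map_uF, hα1, hy, uF, ρ.mul', ← Matrix.mulVec_mulVec, map_ev, hRU]
  rfl

theorem act_psF [Infinite k] (RU' : SLP k n →* GL ι k)
    (hRU' : ∀ g, (RU' g : Matrix ι ι k) = (ev ρ.P (toT g⁻¹))ᵀ) (g : SLP k n) (α : Sw ρ J →ₐ[k] Sw ρ J)
    (hα2 : mapT α (HS' ρ J) = HS' ρ J * mapT (algebraMap k (Sw ρ J)) (toT g⁻¹))
    (hα4 : ∀ e, α (yS ρ J e) = yS ρ J e) (t : ι) :
    α (psF ρ J (HS' ρ J) (yS ρ J) t) =
      ∑ f, algebraMap k (Sw ρ J) ((RU' g : Matrix ι ι k) t f) * psF ρ J (HS' ρ J) (yS ρ J) f := by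
  have hy : (fun e => α (yS ρ J e)) = yS ρ J := by
    funext e
    exact hα4 e
  rw [map_psF _ _ _ _ _ (isUnit_qF ρ J), hα2, hy]
  have h1 : psF ρ J (HS' ρ J * mapT (algebraMap k (Sw ρ J)) (toT g⁻¹)) (yS ρ J) =
      (ev ρ.P (mapT (algebraMap k (Sw ρ J)) (toT g⁻¹)))ᵀ *ᵥ psF ρ J (HS' ρ J) (yS ρ J) := by
    rw [psF, psF, ρ.mul', Matrix.transpose_mul, ← Matrix.mulVec_mulVec]
  rw [h1, map_ev, hRU']
  rfl

end VSum
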