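import Mathlib
import Pool.Agent.Helper59.VSum.BZeroA

/-!
# `U ⊕ 𝔤` and `U* ⊕ 𝔤` are birationally isomorphic
-/

set_option linter.unusedSectionVars false
set_option linter.style.haveILetI false

open MvPolynomial Matrix VDual

namespace VSum

variable {k : Type*} [Field k]
variable {I : Type*} [Fintype I] [DecidableEq I] {n : I → ℕ}
variable {ι : Type*} [Fintype ι] [DecidableEq ι]
variable {ρ : PolyRep k (fun i => Fin (n i)) ι} {J : Matrix ι ι k}

theorem cP_inr (z : ∀ i, Fin (n i)) (e : E0 z) : cP ρ J z (Sum.inr e) = cU ρ J z (Sum.inr e) := by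
  simp only [cP, cU, Sum.elim_inr]

theorem triv_claim {T : Type*} [CommRing T] [Nontrivial T] [Algebra k T] {κ : Type*} (f : κ → T) (e : κ) (s : T)
    (hs : s = f e) :
    ∃ P Q : MvPolynomial κ k, aeval f Q ≠ 0 ∧ s * aeval f Q = aeval f P := by
  refine ⟨X e, 1, ?_, ?_⟩
  · rw [map_one]
    exact one_ne_zero
  · rw [map_one, mul_one, aeval_X, hs]

/-- **`U ⊕ 𝔤` and `U* ⊕ 𝔤` are birationally isomorphic** -/
theorem bir_zero [IsAlgClosed k] [CharZero k] (hJ : IsJ ρ J) (hsym : Jᵀ = J) (J' : Matrix ι ι k)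
    (hJJ : J' * J = 1) (z : ∀ i, Fin (n i)) (RU RU' : SLP k n →* GL ι k)
    (hRU : ∀ g, (RU g : Matrix ι ι k) = ev ρ.P (toT g))
    (hRU' : ∀ g, (RU' g : Matrix ι ι k) = (ev ρ.P (toT g⁻¹))ᵀ) :
    Bir (dsum RU (Ad0 k z)) (dsum RU' (Ad0 k z)) := by
  classical
  haveI : Infinite k := CharZero.infinite k
  haveI : IsDomain (Sw ρ J) := away_isDomain (wB ρ J) (wB_ne_zero ρ J hJ hsym J' hJJ)
  choose α hα1 hα2 hα3 hα4 using exists_act ρ J
  have hc1 : ∀ t : ι ⊕ E0 z, ∃ P Q : MvPolynomial (ι ⊕ E0 z) k, aeval (cU ρ J z) Q ≠ 0 ∧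
      cP ρ J z t * aeval (cU ρ J z) Q = aeval (cU ρ J z) P := by
    rintro (t | e)
    · exact claim1 hJ hsym J' hJJ z t
    · exact triv_claim (cU ρ J z) (Sum.inr e) _ (cP_inr z e)
  have hc2 : ∀ t : ι ⊕ E0 z, ∃ P Q : MvPolynomial (ι ⊕ E0 z) k, aeval (cP ρ J z) Q ≠ 0 ∧
      cU ρ J z t * aeval (cP ρ J z) Q = aeval (cP ρ J z) P := by
    rintro (t | e)
    · exact claim2 hJ hsym J' hJJ z t
    · exact triv_claim (cP ρ J z) (Sum.inr e) _ (cP_inr z e).symm
  have ha1 : ∀ g (t : ι ⊕ E0 z), α g (cU ρ J z t) =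
      ∑ j, algebraMap k (Sw ρ J) ((dsum RU (Ad0 k z) g : Matrix (ι ⊕ E0 z) (ι ⊕ E0 z) k) t j) * cU ρ J z j := by
    intro g
    rintro (t | e)
    · rw [Fintype.sum_sum_type, dsum_val]
      simp only [Matrix.fromBlocks_apply₁₁, Matrix.fromBlocks_apply₁₂, Matrix.zero_apply, map_zero,
        zero_mul, Finset.sum_const_zero, add_zero]
      exact act_uF RU hRU g (α g) (hα1 g) (hα4 g) t
    · rw [Fintype.sum_sum_type, dsum_val]
      simp only [Matrix.fromBlocks_apply₂₁, Matrix.fromBlocks_apply₂₂, Matrix.zero_apply, map_zero,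
        zero_mul, Finset.sum_const_zero, zero_add]
      exact act_aF z g (α g) (hα1 g) (hα2 g) (hα3 g) e
  have ha2 : ∀ g (t : ι ⊕ E0 z), α g (cP ρ J z t) =
      ∑ j, algebraMap k (Sw ρ J) ((dsum RU' (Ad0 k z) g : Matrix (ι ⊕ E0 z) (ι ⊕ E0 z) k) t j) * cP ρ J z j := by
    intro g
    rintro (t | e)
    · rw [Fintype.sum_sum_type, dsum_val]
      simp only [Matrix.fromBlocks_apply₁₁, Matrix.fromBlocks_apply₁₂, Matrix.zero_apply, map_zero,
        zero_mul, Finset.sum_const_zero, add_zero]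
      exact act_psF RU' hRU' g (α g) (hα2 g) (hα4 g) t
    · rw [Fintype.sum_sum_type, dsum_val]
      simp only [Matrix.fromBlocks_apply₂₁, Matrix.fromBlocks_apply₂₂, Matrix.zero_apply, map_zero,
        zero_mul, Finset.sum_const_zero, zero_add]
      exact act_aF z g (α g) (hα1 g) (hα2 g) (hα3 g) e
  exact bir_of_param (dsum RU (Ad0 k z)) (dsum RU' (Ad0 k z)) rfl (cU ρ J z) (cP ρ J z)
    (dominant hJ hsym J' hJJ z) hc1 hc2 α ha1 ha2

end VSum
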