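import Mathlib
import Pool.Agent.Helper59.VSum.Phi

/-!
# Products of a lower and an upper triangular matrix are dense
-/

set_option linter.unusedSectionVars false
set_option linter.style.haveILetI false

open MvPolynomial Matrix VDual

namespace VSum

variable {k : Type*} [Field k]
variable {I : Type*} [Fintype I] [DecidableEq I] {n : I → ℕ}

/-- upper triangular tuples -/
def IsUp {S : Type*} [CommRing S] (b : MatT (fun i => Fin (n i)) S) : Prop :=
  ∀ i (p q : Fin (n i)), q < p → b i p q = 0

/-- lower triangular tuples -/
def IsLo {S : Type*} [CommRing S] (b : MatT (fun i => Fin (n i)) S) : Prop :=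
  ∀ i (p q : Fin (n i)), p < q → b i p q = 0

/-- the elementary matrix used in one elimination step -/
def elN (r : ℕ) (m : ∀ i, Fin (n i) → k) : MatT (fun i => Fin (n i)) k :=
  fun i => Matrix.of fun p q => if q.val = r ∧ q < p then m i p else 0

/-- the perturbation -/
def perE (S : Type*) [CommRing S] (n : I → ℕ) (r : ℕ) : MatT (fun i => Fin (n i)) S :=
  fun i => Matrix.diagonal fun p => if p.val = r then 1 else 0

theorem IsLo_mul {c d : MatT (fun i => Fin (n i)) k} (hc : IsLo c) (hd : IsLo d) : IsLo (c * d) := by
  intro i p q hpq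
  rw [Pi.mul_apply, Matrix.mul_apply]
  apply Finset.sum_eq_zero
  intro s _
  by_cases h1 : p < s
  · rw [hc i p s h1, zero_mul]
  · rw [hd i s q (lt_of_le_of_lt (not_lt.mp h1) hpq), mul_zero]

theorem elN_mul (r : ℕ) (m : ∀ i, Fin (n i) → k) : elN r m * elN r m = 0 := by
  funext i
  ext1 p q
  rw [Pi.mul_apply, Matrix.mul_apply]
  apply Finset.sum_eq_zero
  intro s _
  simp only [elN, Matrix.of_apply]
  split_ifs with h1 h2
  · exfalso
    have := h2.2
    rw [Fin.lt_def] at this
    omega
  · simp
  · simp
  · simp

theorem IsLo_one_add_elN (r : ℕ) (m : ∀ i, Fin (n i) → k) : IsLo (1 + elN r m) := by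
  intro i p q hpq
  rw [Pi.add_apply, Matrix.add_apply, Pi.one_apply, Matrix.one_apply_ne (ne_of_lt hpq)]
  simp only [elN, Matrix.of_apply]
  rw [if_neg (fun h => absurd h.2 (not_lt.mpr hpq.le)), add_zero]

theorem dense_step [Infinite k] (F : MvPolynomial (En n) k) (r : ℕ)
    (h : ∀ c g : MatT (fun i => Fin (n i)) k, IsLo c →
      (∀ i (p q : Fin (n i)), q.val < r + 1 → q < p → g i p q = 0) → eval (pt (c * g)) F = 0)
    (c g : MatT (fun i => Fin (n i)) k) (hc : IsLo c)
    (hg : ∀ i (p q : Fin (n i)), q.val < r → q < p → g i p q = 0) : eval (pt (c * g)) F = 0 := by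
  classical
  -- the perturbed matrices
  have key : ∀ t : k, t ∉ Set.range (fun e : Tn n => - g e.1 e.2 e.2) →
      eval (pt (c * (g + t • perE k n r))) F = 0 := by
    intro t ht
    let gt : MatT (fun i => Fin (n i)) k := g + t • perE k n r
    have hgt : ∀ i (p q : Fin (n i)), gt i p q = g i p q + t * perE k n r i p q := fun i p q => rfl
    let m : ∀ i, Fin (n i) → k := fun i p =>
      if h : r < n i then gt i p ⟨r, h⟩ / gt i ⟨r, h⟩ ⟨r, h⟩ else 0
    have h1 : gt = (1 + elN r m) * ((1 - elN r m) * gt) := by
      rw [← mul_assoc]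
      have : (1 + elN r m) * (1 - elN r m) = 1 := by
        rw [add_mul, one_mul, mul_sub, mul_one, elN_mul, sub_zero, sub_add_cancel]
      rw [this, one_mul]
    change eval (pt (c * gt)) F = 0
    rw [h1, ← mul_assoc]
    apply h _ _ (IsLo_mul hc (IsLo_one_add_elN r m))
    intro i p q hqr hqp
    have h2 : ((1 - elN r m) * gt) i p q = gt i p q - ∑ s, elN r m i p s * gt i s q := by
      rw [sub_mul, one_mul, Pi.sub_apply, Matrix.sub_apply, Pi.mul_apply, Matrix.mul_apply]
    rw [h2]
    have h3 : ∑ s, elN r m i p s * gt i s q =
        if h : r < n i then (if r < p.val then m i p * gt i ⟨r, h⟩ q else 0) else 0 := by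
      split_ifs with h4 h5
      · rw [Finset.sum_eq_single (⟨r, h4⟩ : Fin (n i))]
        · simp only [elN, Matrix.of_apply]
          rw [if_pos ⟨trivial, by rw [Fin.lt_def]; exact h5⟩]
        · intro s _ hs
          simp only [elN, Matrix.of_apply]
          rw [if_neg, zero_mul]
          rintro ⟨h6, _⟩
          exact hs (Fin.ext h6)
        · intro h6
          exact absurd (Finset.mem_univ _) h6
      · apply Finset.sum_eq_zero
        intro s _
        simp only [elN, Matrix.of_apply]
        rw [if_neg, zero_mul]
        rintro ⟨h6, h7⟩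
        rw [Fin.lt_def] at h7
        omega
      · apply Finset.sum_eq_zero
        intro s _
        simp only [elN, Matrix.of_apply]
        rw [if_neg, zero_mul]
        rintro ⟨h6, h7⟩
        have := s.isLt
        omega
    rw [h3]
    have hqp' : q.val < p.val := hqp
    by_cases hq : q.val < r
    · have h4 : gt i p q = 0 := by
        rw [hgt, hg i p q hq hqp, perE, Matrix.diagonal_apply_ne _ (ne_of_gt hqp), mul_zero, add_zero]
      rw [h4]
      split_ifs with h5 h6
      · have h7 : gt i ⟨r, h5⟩ q = 0 := by
          have h8 : q < (⟨r, h5⟩ : Fin (n i)) := by rw [Fin.lt_def]; exact hq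
          rw [hgt, hg i _ q hq h8, perE, Matrix.diagonal_apply_ne _ (ne_of_gt h8), mul_zero, add_zero]
        rw [h7, mul_zero, sub_zero]
      · rw [sub_zero]
      · rw [sub_zero]
    · have hq' : q.val = r := by omega
      have h5 : r < n i := by have := q.isLt; omega
      have h6 : r < p.val := by omega
      rw [dif_pos h5, if_pos h6]
      have h7 : (⟨r, h5⟩ : Fin (n i)) = q := Fin.ext hq'.symm
      simp only [m]
      rw [dif_pos h5, h7]
      have h8 : gt i q q ≠ 0 := by
        intro h0
        apply ht
        refine ⟨⟨i, q⟩, ?_⟩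
        rw [hgt, perE, Matrix.diagonal_apply_eq, if_pos hq', mul_one] at h0
        change - g i q q = t
        linear_combination -h0
      rw [div_mul_cancel₀ _ h8, sub_self]
  -- the polynomial in `t`
  let T : MatT (fun i => Fin (n i)) (Polynomial k) :=
    mapT (Polynomial.C : k →+* Polynomial k) c *
      (mapT (Polynomial.C : k →+* Polynomial k) g + (Polynomial.X : Polynomial k) • perE (Polynomial k) n r)
  let Q : Polynomial k := aeval (pt T) F
  have hQ : ∀ t : k, Q.eval t = eval (pt (c * (g + t • perE k n r))) F := by
    intro t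
    let φ : Polynomial k →ₐ[k] k := Polynomial.aeval t
    have h1 : φ Q = aeval (fun e => φ (pt T e)) F := by
      change φ (aeval (pt T) F) = _
      rw [← AlgHom.comp_apply, comp_aeval]
    have h2 : (fun e => φ (pt T e)) = pt (c * (g + t • perE k n r)) := by
      have h3 : mapT (φ : Polynomial k →+* k) T = c * (g + t • perE k n r) := by
        simp only [T]
        rw [mapT_mul]
        funext i
        rw [Pi.mul_apply, Pi.mul_apply]
        congr 1
        · ext1 p q
          change φ (Polynomial.C (c i p q)) = _
          simp [φ]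
        · ext1 p q
          change φ (Polynomial.C (g i p q) + Polynomial.X * perE (Polynomial k) n r i p q) =
            g i p q + t * perE k n r i p q
          rw [map_add, map_mul]
          have h4 : φ (perE (Polynomial k) n r i p q) = perE k n r i p q := by
            simp only [perE, Matrix.diagonal_apply]
            split_ifs <;> simp
          rw [h4]
          simp [φ]
      rw [← h3]
      rfl
    rw [h2] at h1
    exact h1
  have hQ0 : Q = 0 := by
    apply Polynomial.eq_zero_of_infinite_isRoot
    apply Set.Infinite.mono (s := (Set.range (fun e : Tn n => - g e.1 e.2 e.2))ᶜ)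
    · intro t ht
      change Q.eval t = 0
      rw [hQ]
      exact key t ht
    · exact (Set.finite_range _).infinite_compl
  have h1 := hQ 0
  rw [hQ0, Polynomial.eval_zero, zero_smul, add_zero] at h1
  exact h1.symm

/-- density of the big cell -/
theorem dense_LU [Infinite k] (F : MvPolynomial (En n) k)
    (h : ∀ c b : MatT (fun i => Fin (n i)) k, IsLo c → IsUp b → eval (pt (c * b)) F = 0)
    (g : MatT (fun i => Fin (n i)) k) : eval (pt g) F = 0 := by
  have h1 : ∀ s r : ℕ, r + s = ∑ i, n i → ∀ c g : MatT (fun i => Fin (n i)) k, IsLo c →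
      (∀ i (p q : Fin (n i)), q.val < r → q < p → g i p q = 0) → eval (pt (c * g)) F = 0 := by
    intro s
    induction s with
    | zero =>
      intro r hr c g hc hg
      apply h c g hc
      intro i p q hqp
      apply hg i p q _ hqp
      have h2 : n i ≤ ∑ i, n i := Finset.single_le_sum (f := n) (fun _ _ => Nat.zero_le _) (Finset.mem_univ i)
      have := q.isLt
      omega
    | succ s ih =>
      intro r hr
      exact dense_step F r (ih (r + 1) (by omega))
  have h2 := h1 (∑ i, n i) 0 (by omega) 1 g (by
    intro i p q hpq
    rw [Pi.one_apply, Matrix.one_apply_ne (ne_of_lt hpq)]) (by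
    intro i p q hq
    omega)
  rw [one_mul] at h2
  exact h2

end VSum
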