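import Mathlib
import Pool.Agent.Helper59.VSum.Dense

/-!
# The intertwiner `J` is symmetric
-/

set_option linter.unusedSectionVars false
set_option linter.style.haveILetI false

open MvPolynomial Matrix VDual

namespace VSum

variable {k : Type*} [Field k]
variable {I : Type*} [Fintype I] [DecidableEq I] {n : I → ℕ}
variable {ι : Type*} [Fintype ι] [DecidableEq ι]
variable (ρ : PolyRep k (fun i => Fin (n i)) ι)

/-- the height function on the diagonal entries -/
def hL (n : I → ℕ) (e : Tn n) : ℕ := n e.1 - e.2.val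

/-- the height of a weight -/
def hgt (ν : Tn n →₀ ℕ) : ℕ := ν.sum fun e c => hL n e * c

/-- the one-parameter degeneration of an upper triangular tuple -/
noncomputable def degB (b : MatT (fun i => Fin (n i)) k) : MatT (fun i => Fin (n i)) (Polynomial k) :=
  fun i => Matrix.of fun p q => if p ≤ q then Polynomial.C (b i p q) * Polynomial.X ^ (q.val - p.val) else 0

theorem degB_mul (b : MatT (fun i => Fin (n i)) k) (hb : IsUp b) :
    degB b * diagT (fun e => (Polynomial.X : Polynomial k) ^ hL n e) =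
      diagT (fun e => (Polynomial.X : Polynomial k) ^ hL n e) * mapT (Polynomial.C : k →+* Polynomial k) b := by
  funext i
  ext1 p q
  change (degB b i * Matrix.diagonal fun p => (Polynomial.X : Polynomial k) ^ hL n (⟨i, p⟩ : Tn n)) p q =
    ((Matrix.diagonal fun p => (Polynomial.X : Polynomial k) ^ hL n (⟨i, p⟩ : Tn n)) *
      (b i).map (Polynomial.C : k →+* Polynomial k)) p q
  rw [Matrix.mul_diagonal, Matrix.diagonal_mul, Matrix.map_apply, degB, Matrix.of_apply]
  split_ifs with h
  · have h1 : p.val ≤ q.val := h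
    have h2 := p.isLt
    have h3 := q.isLt
    have h4 : hL n (⟨i, p⟩ : Tn n) = (q.val - p.val) + hL n (⟨i, q⟩ : Tn n) := by
      change n i - p.val = (q.val - p.val) + (n i - q.val)
      omega
    rw [h4, pow_add]
    ring
  · rw [zero_mul, hb i p q (not_le.mp h), map_zero, mul_zero]

theorem exists_highest [Infinite k] [Nonempty ι] : ∃ (v : ι → k) (μ : Tn n →₀ ℕ), v ≠ 0 ∧
    ∀ b : MatT (fun i => Fin (n i)) k, IsUp b →
      ev ρ.P b *ᵥ v = (μ.prod fun e c => b e.1 e.2 e.2 ^ c) • v := by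
  classical
  have hne : (wts ρ).Nonempty := by
    by_contra h
    rw [Finset.not_nonempty_iff_eq_empty] at h
    have h1 := sum_Pw ρ
    rw [h, Finset.sum_empty] at h1
    exact zero_ne_one h1
  obtain ⟨μ, hμ, hmax⟩ := Finset.exists_max_image (wts ρ) hgt hne
  rw [mem_wts] at hμ
  obtain ⟨x, hx⟩ : ∃ x, Pw ρ μ *ᵥ x ≠ 0 := by
    by_contra hcon
    push Not at hcon
    apply hμ
    apply Matrix.toLin'.injective
    apply LinearMap.ext
    intro x
    rw [Matrix.toLin'_apply, hcon, map_zero, LinearMap.zero_apply]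
  refine ⟨Pw ρ μ *ᵥ x, μ, hx, ?_⟩
  intro b hb
  set v := Pw ρ μ *ᵥ x with hv
  have hPv : Pw ρ μ *ᵥ v = v := by
    rw [hv, Matrix.mulVec_mulVec, Pw_mul_self]
  -- `ρ(diag t) v = t^μ v`
  have hdiag : ∀ t : Tn n → k, ev ρ.P (diagT t) *ᵥ v = (μ.prod fun e c => t e ^ c) • v := by
    intro t
    conv_lhs => rw [← hPv]
    rw [Matrix.mulVec_mulVec, ev_mul_Pw, Matrix.smul_mulVec, hPv]
  -- polynomials in `t`
  let cv : ι → Polynomial k := fun a => Polynomial.C (v a)
  have hmapC : ∀ g : MatT (fun i => Fin (n i)) k,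
      ev ρ.P (mapT (Polynomial.C : k →+* Polynomial k) g) = (ev ρ.P g).map (Polynomial.C : k →+* Polynomial k) := by
    intro g
    have h3 := ev_map (Algebra.ofId k (Polynomial k)) ρ.P g
    exact h3.symm
  have hev : ∀ (t : k) (T : MatT (fun i => Fin (n i)) (Polynomial k)) (a b : ι),
      (ev ρ.P T a b).eval t = ev ρ.P (mapT (Polynomial.evalRingHom t) T) a b := by
    intro t T a b
    have h3 := ev_map (Polynomial.aeval t : Polynomial k →ₐ[k] k) ρ.P T
    have h4 := congrFun (congrFun h3 a) b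
    exact h4
  have hD : ev ρ.P (diagT (fun e => (Polynomial.X : Polynomial k) ^ hL n e)) *ᵥ cv =
      (Polynomial.X ^ hgt μ : Polynomial k) • cv := by
    funext a
    apply Polynomial.funext
    intro t
    have h3 := congrFun (hdiag (fun e => t ^ hL n e)) a
    rw [Pi.smul_apply, smul_eq_mul, Polynomial.eval_mul, Polynomial.eval_pow, Polynomial.eval_X]
    have h4 : (μ.prod fun e c => (t ^ hL n e) ^ c) = t ^ hgt μ := by
      rw [hgt, Finsupp.sum, Finsupp.prod, ← Finset.prod_pow_eq_pow_sum]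
      refine Finset.prod_congr rfl fun e _ => ?_
      rw [pow_mul]
    rw [h4, Pi.smul_apply, smul_eq_mul] at h3
    have h5 : mapT (Polynomial.evalRingHom t) (diagT (fun e => (Polynomial.X : Polynomial k) ^ hL n e)) =
        (diagT (fun e => t ^ hL n e) : MatT (fun i => Fin (n i)) k) := by
      rw [mapT_diagT]
      congr 1
      funext e
      simp
    simp only [cv, mulVec, dotProduct, Polynomial.eval_finsetSum, Polynomial.eval_mul, hev, Polynomial.eval_C, h5]
    exact h3
  -- the constant polynomial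
  let f : ι → Polynomial k := ev ρ.P (degB b) *ᵥ cv
  have hf : (Polynomial.X ^ hgt μ : Polynomial k) • f =
      ev ρ.P (diagT (fun e => (Polynomial.X : Polynomial k) ^ hL n e)) *ᵥ
        ((ev ρ.P b).map (Polynomial.C : k →+* Polynomial k) *ᵥ cv) := by
    rw [← hmapC, Matrix.mulVec_mulVec, ← ρ.mul', ← degB_mul b hb, ρ.mul', ← Matrix.mulVec_mulVec, hD,
      Matrix.mulVec_smul]
  have hdeg : ∀ a, (((Polynomial.X ^ hgt μ : Polynomial k) • f) a).natDegree ≤ hgt μ := by
    intro a
    rw [hf]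
    have h4 : ev ρ.P (diagT (fun e => (Polynomial.X : Polynomial k) ^ hL n e)) =
        ∑ ν ∈ wts ρ, (Polynomial.X ^ hgt ν : Polynomial k) • (Pw ρ ν).map (Polynomial.C : k →+* Polynomial k) := by
      refine Matrix.ext fun a b => ?_
      apply Polynomial.funext
      intro t
      rw [hev]
      have h5 : mapT (Polynomial.evalRingHom t) (diagT (fun e => (Polynomial.X : Polynomial k) ^ hL n e)) =
          (diagT (fun e => t ^ hL n e) : MatT (fun i => Fin (n i)) k) := by
        rw [mapT_diagT]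
        congr 1
        funext e
        simp
      rw [h5, ev_diagT, Matrix.sum_apply, Matrix.sum_apply, Polynomial.eval_finsetSum]
      refine Finset.sum_congr rfl fun ν _ => ?_
      rw [Matrix.smul_apply, Matrix.smul_apply, Matrix.map_apply, smul_eq_mul, smul_eq_mul,
        Polynomial.eval_mul, Polynomial.eval_pow, Polynomial.eval_X, Polynomial.eval_C]
      congr 1
      rw [hgt, Finsupp.sum, Finsupp.prod, ← Finset.prod_pow_eq_pow_sum]
      refine Finset.prod_congr rfl fun e _ => ?_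
      rw [pow_mul]
    rw [h4, Matrix.sum_mulVec, Finset.sum_apply]
    apply Polynomial.natDegree_sum_le_of_forall_le
    intro ν hν
    rw [Matrix.smul_mulVec, Pi.smul_apply, smul_eq_mul]
    have h5 : ∃ c : k, ((Pw ρ ν).map (Polynomial.C : k →+* Polynomial k) *ᵥ
        ((ev ρ.P b).map (Polynomial.C : k →+* Polynomial k) *ᵥ cv)) a = Polynomial.C c := by
      refine ⟨(Pw ρ ν *ᵥ (ev ρ.P b *ᵥ v)) a, ?_⟩
      simp only [mulVec, dotProduct, Matrix.map_apply, cv, map_sum, map_mul]
    obtain ⟨c, hc⟩ := h5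
    rw [hc]
    refine (Polynomial.natDegree_mul_C_le _ _).trans ?_
    rw [Polynomial.natDegree_X_pow]
    exact hmax ν hν
  have hconst : ∀ a, (f a).natDegree ≤ 0 := by
    intro a
    by_cases h0 : f a = 0
    · rw [h0, Polynomial.natDegree_zero]
    · have h1 := hdeg a
      rw [Pi.smul_apply, smul_eq_mul, Polynomial.natDegree_mul (pow_ne_zero _ Polynomial.X_ne_zero) h0,
        Polynomial.natDegree_X_pow] at h1
      omega
  have heval : ∀ a, (f a).eval 1 = (f a).eval 0 := by
    intro a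
    have h1 := Polynomial.eq_C_of_natDegree_le_zero (hconst a)
    rw [h1, Polynomial.eval_C, Polynomial.eval_C]
  funext a
  have h1 := heval a
  have h2 : ∀ t : k, (f a).eval t = (ev ρ.P (mapT (Polynomial.evalRingHom t) (degB b)) *ᵥ v) a := by
    intro t
    simp only [f, cv, mulVec, dotProduct, Polynomial.eval_finsetSum, Polynomial.eval_mul, hev, Polynomial.eval_C]
  have h3 : mapT (Polynomial.evalRingHom (1 : k)) (degB b) = b := by
    funext i
    ext1 p q
    change Polynomial.eval (1 : k) (degB b i p q) = b i p q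
    simp only [degB, Matrix.of_apply]
    split_ifs with h
    · simp
    · rw [Polynomial.eval_zero, hb i p q (not_le.mp h)]
  have h4 : mapT (Polynomial.evalRingHom (0 : k)) (degB b) = diagT (fun e => b e.1 e.2 e.2) := by
    funext i
    ext1 p q
    change Polynomial.eval (0 : k) (degB b i p q) = (Matrix.diagonal fun p => b i p p) p q
    simp only [degB, Matrix.of_apply, Matrix.diagonal_apply]
    by_cases hpq : p = q
    · subst hpq
      simp
    · rw [if_neg hpq]
      split_ifs with h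
      · have h5 : p.val < q.val := lt_of_le_of_ne h (fun h' => hpq (Fin.ext h'))
        have h6 : q.val - p.val ≠ 0 := by omega
        rw [Polynomial.eval_mul, Polynomial.eval_pow, Polynomial.eval_X, zero_pow h6, mul_zero]
      · exact Polynomial.eval_zero
  rw [h2, h2, h3, h4, hdiag] at h1
  exact h1

/-- **the intertwiner is symmetric** -/
theorem J_symm [IsAlgClosed k] [CharZero k]
    (hirr : haveI : Infinite k := CharZero.infinite k; IsIrr (ρ.hom k))
    (J : (Matrix ι ι k)ˣ) (hJ : IsJ ρ (J : Matrix ι ι k)) : (J : Matrix ι ι k)ᵀ = (J : Matrix ι ι k) := by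
  haveI : Infinite k := CharZero.infinite k
  obtain ⟨hne, hirr⟩ := hirr
  -- `J⁻¹ Jᵀ` commutes with `ρ`
  have hJt : ∀ g, (J : Matrix ι ι k)ᵀ * ev ρ.P (trT g) = (ev ρ.P g)ᵀ * (J : Matrix ι ι k)ᵀ := by
    intro g
    have h1 := congrArg Matrix.transpose (hJ (trT g))
    rw [Matrix.transpose_mul, Matrix.transpose_mul, Matrix.transpose_transpose, trT_trT] at h1
    exact h1.symm
  let Z : Matrix ι ι k := ((J⁻¹ : (Matrix ι ι k)ˣ) : Matrix ι ι k) * (J : Matrix ι ι k)ᵀ
  have hZ : ∀ g, Z * ev ρ.P g = ev ρ.P g * Z := by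
    intro g
    have h1 := hJt (trT g)
    have h2 := hJ (trT g)
    rw [trT_trT] at h1 h2
    have h3 : ((J⁻¹ : (Matrix ι ι k)ˣ) : Matrix ι ι k) * (ev ρ.P (trT g))ᵀ =
        ev ρ.P g * ((J⁻¹ : (Matrix ι ι k)ˣ) : Matrix ι ι k) := by
      calc ((J⁻¹ : (Matrix ι ι k)ˣ) : Matrix ι ι k) * (ev ρ.P (trT g))ᵀ
          = ((J⁻¹ : (Matrix ι ι k)ˣ) : Matrix ι ι k) * ((ev ρ.P (trT g))ᵀ * (J : Matrix ι ι k)) *
              ((J⁻¹ : (Matrix ι ι k)ˣ) : Matrix ι ι k) := by
            rw [Matrix.mul_assoc, Matrix.mul_assoc, Units.mul_inv, Matrix.mul_one]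
        _ = _ := by
            rw [← h2, ← Matrix.mul_assoc, Units.inv_mul, Matrix.one_mul]
    calc Z * ev ρ.P g = ((J⁻¹ : (Matrix ι ι k)ˣ) : Matrix ι ι k) * ((J : Matrix ι ι k)ᵀ * ev ρ.P g) := by
          rw [Matrix.mul_assoc]
      _ = _ := by
          rw [h1, ← Matrix.mul_assoc, h3, Matrix.mul_assoc]
  obtain ⟨c, hc⟩ := Module.End.exists_eigenvalue (Matrix.toLin' Z)
  have hZc : Z = c • (1 : Matrix ι ι k) := by
    have h1 := hirr (Module.End.eigenspace (Matrix.toLin' Z) c) (by
      intro g w hw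
      rw [Module.End.mem_eigenspace_iff] at hw ⊢
      rw [Matrix.toLin'_apply] at hw ⊢
      change Z *ᵥ (ev ρ.P g *ᵥ w) = c • (ev ρ.P g *ᵥ w)
      rw [Matrix.mulVec_mulVec, hZ, ← Matrix.mulVec_mulVec, hw, Matrix.mulVec_smul])
    rcases h1 with h1 | h1
    · exact absurd h1 hc
    · apply Matrix.toLin'.injective
      apply LinearMap.ext
      intro w
      have h2 : w ∈ Module.End.eigenspace (Matrix.toLin' Z) c := by rw [h1]; exact Submodule.mem_top
      rw [Module.End.mem_eigenspace_iff] at h2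
      rw [h2, Matrix.toLin'_apply, Matrix.smul_mulVec, Matrix.one_mulVec]
  have hJc : (J : Matrix ι ι k)ᵀ = c • (J : Matrix ι ι k) := by
    calc (J : Matrix ι ι k)ᵀ = (J : Matrix ι ι k) * Z := by
          change _ = (J : Matrix ι ι k) * (((J⁻¹ : (Matrix ι ι k)ˣ) : Matrix ι ι k) * (J : Matrix ι ι k)ᵀ)
          rw [← Matrix.mul_assoc, Units.mul_inv, Matrix.one_mul]
      _ = _ := by rw [hZc, Matrix.mul_smul, Matrix.mul_one]
  have hcc : c * c = 1 := by
    have h1 := congrArg Matrix.transpose hJc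
    rw [Matrix.transpose_transpose, Matrix.transpose_smul, hJc, smul_smul] at h1
    have h2 : (1 : Matrix ι ι k) = (c * c) • (1 : Matrix ι ι k) := by
      calc (1 : Matrix ι ι k) = (J : Matrix ι ι k) * ((J⁻¹ : (Matrix ι ι k)ˣ) : Matrix ι ι k) := by
            rw [Units.mul_inv]
        _ = ((c * c) • (J : Matrix ι ι k)) * ((J⁻¹ : (Matrix ι ι k)ˣ) : Matrix ι ι k) := by rw [← h1]
        _ = _ := by rw [Matrix.smul_mul, Units.mul_inv]
    have x := hne.some
    have h3 := congrFun (congrFun h2 x) x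
    simp only [Matrix.smul_apply, Matrix.one_apply_eq, smul_eq_mul, mul_one] at h3
    exact h3.symm
  rcases mul_self_eq_one_iff.mp hcc with h1 | h1
  · rw [hJc, h1, one_smul]
  · -- the skew case is impossible
    exfalso
    obtain ⟨v, μ, hv, hb⟩ := exists_highest ρ
    have hvv : v ⬝ᵥ ((J : Matrix ι ι k) *ᵥ v) = 0 := by
      have h2 : v ⬝ᵥ ((J : Matrix ι ι k) *ᵥ v) = v ⬝ᵥ ((J : Matrix ι ι k)ᵀ *ᵥ v) := by
        rw [Matrix.mulVec_transpose, dotProduct_comm v (v ᵥ* (J : Matrix ι ι k)), ← Matrix.dotProduct_mulVec]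
      rw [hJc, h1, Matrix.smul_mulVec, dotProduct_smul, smul_eq_mul] at h2
      have h3 : (2 : k) * (v ⬝ᵥ ((J : Matrix ι ι k) *ᵥ v)) = 0 := by linear_combination h2
      exact (mul_eq_zero.mp h3).resolve_left two_ne_zero
    have hlow : ∀ c : MatT (fun i => Fin (n i)) k, IsLo c →
        v ᵥ* ((J : Matrix ι ι k) * ev ρ.P c) = (μ.prod fun e s => c e.1 e.2 e.2 ^ s) • (v ᵥ* (J : Matrix ι ι k)) := by
      intro c hc
      have h2 := hJ (trT c)
      rw [trT_trT] at h2
      have h3 := hb (trT c) (fun i p q hpq => hc i q p hpq)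
      rw [h2, ← Matrix.vecMul_vecMul, Matrix.vecMul_transpose, h3, Matrix.smul_vecMul]
      rfl
    let F : MvPolynomial (En n) k := ∑ a, ∑ b, C ((v ᵥ* (J : Matrix ι ι k)) a) * ρ.P a b * C (v b)
    have hF : ∀ g : MatT (fun i => Fin (n i)) k, eval (pt g) F =
        (v ᵥ* (J : Matrix ι ι k)) ⬝ᵥ (ev ρ.P g *ᵥ v) := by
      intro g
      simp only [F, map_sum, map_mul, eval_C, mulVec, dotProduct, Finset.mul_sum]
      refine Finset.sum_congr rfl fun a _ => Finset.sum_congr rfl fun b _ => ?_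
      rw [mul_assoc]
      rfl
    have hF0 : ∀ g : MatT (fun i => Fin (n i)) k, eval (pt g) F = 0 := by
      apply dense_LU
      intro c b hc hb'
      rw [hF, ρ.mul', ← Matrix.mulVec_mulVec, hb b hb', Matrix.mulVec_smul, dotProduct_smul,
        Matrix.dotProduct_mulVec, Matrix.vecMul_vecMul, hlow c hc, smul_dotProduct,
        ← Matrix.dotProduct_mulVec, hvv, smul_zero, smul_zero]
    let W : Submodule k (ι → k) :=
      { carrier := {x | ∀ g : MatT (fun i => Fin (n i)) k, (v ᵥ* (J : Matrix ι ι k)) ⬝ᵥ (ev ρ.P g *ᵥ x) = 0}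
        zero_mem' := by intro g; rw [Matrix.mulVec_zero, dotProduct_zero]
        add_mem' := by
          intro x y hx hy g
          rw [Matrix.mulVec_add, dotProduct_add, hx g, hy g, add_zero]
        smul_mem' := by
          intro s x hx g
          rw [Matrix.mulVec_smul, dotProduct_smul, hx g, smul_zero] }
    have hvW : v ∈ W := by
      intro g
      rw [← hF, hF0]
    rcases hirr W (by
      intro g x hx g'
      change (v ᵥ* (J : Matrix ι ι k)) ⬝ᵥ (ev ρ.P g' *ᵥ (ev ρ.P g *ᵥ x)) = 0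
      rw [Matrix.mulVec_mulVec, ← ρ.mul']
      exact hx _) with h2 | h2
    · rw [h2, Submodule.mem_bot] at hvW
      exact hv hvW
    · have h3 : v ᵥ* (J : Matrix ι ι k) = 0 := by
        funext a
        have h4 : (Pi.single a (1 : k) : ι → k) ∈ W := by rw [h2]; exact Submodule.mem_top
        have h5 := h4 1
        rw [ρ.one, Matrix.one_mulVec, dotProduct_single, mul_one] at h5
        exact h5
      apply hv
      calc v = v ᵥ* ((J : Matrix ι ι k) * ((J⁻¹ : (Matrix ι ι k)ˣ) : Matrix ι ι k)) := by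
            rw [Units.mul_inv, Matrix.vecMul_one]
        _ = 0 := by rw [← Matrix.vecMul_vecMul, h3, Matrix.zero_vecMul]

end VSum
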