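import Mathlib
import Pool.Agent.Helper59.VDual.Final
import Pool.Agent.Helper59.VSum.BZero
import Pool.Agent.Helper59.VSum.Sym

/-!
# The main theorem: `U ⊕ W` with `U` generically free and `dim W ≥ dim G`
-/

set_option linter.unusedSectionVars false
set_option linter.style.haveILetI false

open MvPolynomial Matrix VDual

namespace VSum

variable {k : Type*} [Field k]
variable {I : Type*} [Fintype I] [DecidableEq I] {n : I → ℕ}

section sumRep

variable {A : Type*} [Fintype A] [DecidableEq A] {τ : A → Type*} [∀ a, Fintype (τ a)]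
  [∀ a, DecidableEq (τ a)]

theorem ev_block {S : Type*} [CommRing S] [Algebra k S] (ρ : ∀ a, PolyRep k (fun i => Fin (n i)) (τ a))
    (g : MatT (fun i => Fin (n i)) S) :
    ev (Matrix.blockDiagonal' fun a => (ρ a).P) g = Matrix.blockDiagonal' fun a => ev (ρ a).P g := by
  rw [ev, Matrix.blockDiagonal'_map _ _ (map_zero _)]
  rfl

/-- direct sum of polynomial representations -/
noncomputable def sumRep (ρ : ∀ a, PolyRep k (fun i => Fin (n i)) (τ a)) :
    PolyRep k (fun i => Fin (n i)) (Σ a, τ a) where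
  P := Matrix.blockDiagonal' fun a => (ρ a).P
  one := by
    rw [ev_block]
    have : (fun a => ev (ρ a).P (1 : MatT (fun i => Fin (n i)) k)) = fun a => (1 : Matrix (τ a) (τ a) k) := by
      funext a
      rw [(ρ a).one]
    rw [this]
    exact Matrix.blockDiagonal'_one
  mul := by
    intro g h
    rw [ev_block, ev_block, ev_block, ← Matrix.blockDiagonal'_mul]
    congr 1
    funext a
    rw [(ρ a).mul]

theorem sumRep_ev (ρ : ∀ a, PolyRep k (fun i => Fin (n i)) (τ a)) (g : MatT (fun i => Fin (n i)) k) :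
    ev (sumRep ρ).P g = Matrix.blockDiagonal' fun a => ev (ρ a).P g := ev_block ρ g

theorem sumRep_isJ (ρ : ∀ a, PolyRep k (fun i => Fin (n i)) (τ a)) (J : ∀ a, Matrix (τ a) (τ a) k)
    (hJ : ∀ a, IsJ (ρ a) (J a)) : IsJ (sumRep ρ) (Matrix.blockDiagonal' J) := by
  intro g
  rw [sumRep_ev, sumRep_ev, Matrix.blockDiagonal'_transpose, ← Matrix.blockDiagonal'_mul,
    ← Matrix.blockDiagonal'_mul]
  congr 1
  funext a
  exact hJ a g

end sumRep

/-- an irreducible rational representation of `∏ SL` extends to a polynomial representation with a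
symmetric intertwiner -/
theorem exists_rho_J [IsAlgClosed k] [CharZero k] (hn : ∀ i, n i ≠ 0) {m : ℕ}
    (R : SLP k n →* Matrix (Fin m) (Fin m) k) (hrat : IsRat R) (hirr : IsIrr R) :
    ∃ ρ : PolyRep k (fun i => Fin (n i)) (Fin m), (∀ g, R g = ev ρ.P (toT g)) ∧
      ∃ J : (Matrix (Fin m) (Fin m) k)ˣ, IsJ ρ (J : Matrix (Fin m) (Fin m) k) ∧
        (J : Matrix (Fin m) (Fin m) k)ᵀ = (J : Matrix (Fin m) (Fin m) k) := by
  classical
  haveI : Infinite k := CharZero.infinite k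
  haveI : ∀ i, Nonempty (Fin (n i)) := fun i => ⟨⟨0, Nat.pos_of_ne_zero (hn i)⟩⟩
  obtain ⟨P, hP⟩ := hrat
  obtain ⟨d, hdlt, hd⟩ := exists_central_char hn R hirr
  let K : ℕ := ∑ x, ∑ y, (P x y).totalDegree
  let e : I → ℕ := fun i => d i + n i * K
  have hpow : ∀ (z : I → kˣ) (_ : ∀ i, z i ^ n i = 1),
      ∏ i, z i ^ e i = ∏ i, z i ^ (d i) := by
    intro z hz
    refine Finset.prod_congr rfl fun i _ => ?_
    rw [pow_add, pow_mul, hz, one_pow, mul_one]
  have hpowk : ∀ (z : I → kˣ) (_ : ∀ i, z i ^ n i = 1),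
      ∏ i, ((z i : kˣ) : k) ^ e i = ∏ i, ((z i : kˣ) : k) ^ (d i) := by
    intro z hz
    have := congrArg (fun u : kˣ => (u : k)) (hpow z hz)
    simp only [Units.coe_prod, Units.val_pow_eq_pow_val] at this
    exact this
  obtain ⟨ρ, hρP, hρ⟩ : ∃ ρ : PolyRep k (fun i => Fin (n i)) (Fin m), ρ.P = P.map (extP e) ∧
      ∀ g : MatT (fun i => Fin (n i)) k, (∀ i, (g i).det = 1) → ev ρ.P g = ev P g := by
    apply exists_polyRep
    · rw [← toT_one, ← hP, map_one]
    · intro g h hg hh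
      have hgh : ∀ i, ((g * h : MatT (fun i => Fin (n i)) k) i).det = 1 := by
        intro i
        rw [Pi.mul_apply, Matrix.det_mul, hg, hh, one_mul]
      have e1 := hP (ofT g hg)
      have e2 := hP (ofT h hh)
      have e3 := hP (ofT g hg * ofT h hh)
      rw [toT_ofT] at e1 e2
      rw [toT_mul, toT_ofT, toT_ofT] at e3
      rw [← e1, ← e2, ← e3, map_mul]
    · intro z
      have hz : ∀ i, ((z i : kˣ)) ^ n i = 1 := by
        intro i
        have h1 := (z i).2
        rw [mem_rootsOfUnity] at h1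
        have aux : ∀ (u : kˣ) (a b : ℕ), a = b → u ^ a = 1 → u ^ b = 1 := by
          rintro u a _ rfl h
          exact h
        exact aux _ _ _ (Fintype.card_fin _) h1
      have e1 := hd (fun i => (z i : kˣ)) hz
      rw [hP, toT_zS] at e1
      have e2 := hpowk (fun i => (z i : kˣ)) hz
      rw [e2]
      exact e1
    · intro x y s hs i
      have h1 := bdeg_le s i (P x y) hs
      have h2 : (P x y).totalDegree ≤ K := by
        calc (P x y).totalDegree ≤ ∑ y, (P x y).totalDegree :=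
              Finset.single_le_sum (f := fun y => (P x y).totalDegree)
                (fun _ _ => Nat.zero_le _) (Finset.mem_univ y)
          _ ≤ K :=
              Finset.single_le_sum (f := fun x => ∑ y, (P x y).totalDegree)
                (fun _ _ => Nat.zero_le _) (Finset.mem_univ x)
      have h3 : K ≤ n i * K := Nat.le_mul_of_pos_left K (Nat.pos_of_ne_zero (hn i))
      change bdeg s i ≤ d i + n i * K
      omega
  have hR : ∀ (g : SLP k n), R g = ev ρ.P (toT g) := by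
    intro g
    rw [hρ (toT g) (fun i => (g i).2), hP]
  have hirr' : IsIrr (ρ.hom k) := by
    refine ⟨hirr.1, ?_⟩
    intro W hW
    apply hirr.2 W
    intro g w hw
    rw [hR]
    exact hW (toT g) w hw
  obtain ⟨J, hJ⟩ := PolyRep.exists_J ρ hirr'
  exact ⟨ρ, hR, J, hJ, J_symm ρ hirr' J hJ⟩

variable {ι : Type*} [Fintype ι] [DecidableEq ι] {κ : Type*} [Fintype κ] [DecidableEq κ]

theorem eval_linSub (M : Matrix ι ι k) (v : ι → k) (p : MvPolynomial ι k) :
    eval v (linSub M p) = eval (M *ᵥ v) p := by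
  have : (aeval v : MvPolynomial ι k →ₐ[k] k).comp (linSub M) = aeval (M *ᵥ v) := by
    apply MvPolynomial.algHom_ext
    intro i
    rw [AlgHom.comp_apply, linSub_X, map_sum, aeval_X]
    simp only [map_mul, aeval_X, aeval_C, mulVec, dotProduct]
    rfl
  exact DFunLike.congr_fun this p

/-- rationality of the dual -/
theorem isRt_dual (R R' : SLP k n →* GL ι k) (hR : IsRt R)
    (h : ∀ g, (R' g : Matrix ι ι k) = (R g⁻¹ : Matrix ι ι k)ᵀ) : IsRt R' := by
  obtain ⟨P, hP⟩ := hR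
  refine ⟨(ev P (adjT (gen (fun i => Fin (n i)) k)))ᵀ, ?_⟩
  intro g
  rw [h, hP, toT_inv]
  have h1 := ev_map (aeval (pt (toT g)) : MvPolynomial (En n) k →ₐ[k] k) P (adjT (gen (fun i => Fin (n i)) k))
  have h2 := mapT_adjT ((aeval (pt (toT g)) : MvPolynomial (En n) k →ₐ[k] k) : MvPolynomial (En n) k →+* k)
    (gen (fun i => Fin (n i)) k)
  have h3 : mapT ((aeval (pt (toT g)) : MvPolynomial (En n) k →ₐ[k] k) : MvPolynomial (En n) k →+* k)
      (gen (fun i => Fin (n i)) k) = toT g := by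
    funext i
    ext1 p q
    change aeval (pt (toT g)) (X (⟨i, (p, q)⟩ : En n)) = toT g i p q
    rw [aeval_X]
    rfl
  rw [h3] at h2
  have h4 : ev P (adjT (toT g)) = (ev P (adjT (gen (fun i => Fin (n i)) k))).map
      (aeval (pt (toT g)) : MvPolynomial (En n) k →ₐ[k] k) := by
    rw [h1]
    congr 1
    exact h2.symm
  rw [h4, ← Matrix.transpose_map]
  rfl

/-- the transposed inverse, on `∏ SL` -/
def sgT (g : SLP k n) : SLP k n := ofT (trT (toT g⁻¹)) (fun i => by
  change ((toT g⁻¹ i)ᵀ).det = 1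
  rw [Matrix.det_transpose]
  exact (g⁻¹ i).2)

theorem toT_sgT (g : SLP k n) : toT (sgT g) = trT (toT g⁻¹) := rfl

/-- splitting off trivial summands -/
theorem bir_split {G : Type*} [Group G] (R : G →* GL ι k) {ε κ' : Type*} [Fintype ε] [DecidableEq ε]
    [Fintype κ'] [DecidableEq κ'] (e : κ ≃ ε ⊕ κ') :
    Bir (dsum R (1 : G →* GL κ k)) (dsum (dsum R (1 : G →* GL ε k)) (1 : G →* GL κ' k)) := by
  refine Bir.of_conj _ _ ((Equiv.sumAssoc ι ε κ').trans (Equiv.sumCongr (Equiv.refl ι) e.symm)) 1 1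
    (Matrix.one_mul _) ?_
  intro g
  rw [Matrix.one_mul, Matrix.mul_one]
  have h1 : (((1 : G →* GL ε k) g : GL ε k) : Matrix ε ε k) = 1 := rfl
  have h1'' : (((1 : G →* GL κ' k) g : GL κ' k) : Matrix κ' κ' k) = 1 := rfl
  have h1' : (((1 : G →* GL κ k) g : GL κ k) : Matrix κ κ k) = 1 := rfl
  ext a b
  rw [Matrix.submatrix_apply, dsum_val, dsum_val, dsum_val, h1', h1, h1'']
  rcases a with (a | a) | a <;> rcases b with (b | b) | b <;>
    simp [Matrix.one_apply]

/-- **the main theorem** -/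
theorem bir_main [IsAlgClosed k] [CharZero k] (hn : ∀ i, n i ≠ 0)
    (ρ : PolyRep k (fun i => Fin (n i)) ι) (J : (Matrix ι ι k)ˣ) (hJ : IsJ ρ (J : Matrix ι ι k))
    (hsym : (J : Matrix ι ι k)ᵀ = (J : Matrix ι ι k))
    (RU RU' : SLP k n →* GL ι k) (RW RW' : SLP k n →* GL κ k)
    (hRU : ∀ g, (RU g : Matrix ι ι k) = ev ρ.P (toT g))
    (hRU' : ∀ g, (RU' g : Matrix ι ι k) = (RU g⁻¹ : Matrix ι ι k)ᵀ)
    (hRW : IsRt RW) (hRW' : ∀ g, (RW' g : Matrix κ κ k) = (RW g⁻¹ : Matrix κ κ k)ᵀ)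
    (hcard : ∑ i, (n i ^ 2 - 1) ≤ Fintype.card κ)
    (hcen : ∀ g, RU g = 1 → RW g = 1 → ∃ c : I → k, toT g = scal c)
    (D : MvPolynomial ι k) (hD : D ≠ 0)
    (hfree : ∀ v : ι → k, eval v D ≠ 0 → ∀ g, (RU g : Matrix ι ι k) *ᵥ v = v → RU g = 1 ∧ RW g = 1) :
    Bir (dsum RU RW) (dsum RU' RW') := by
  classical
  haveI : Infinite k := CharZero.infinite k
  let z : ∀ i, Fin (n i) := fun i => ⟨0, Nat.pos_of_ne_zero (hn i)⟩
  have hRtU : IsRt RU := ⟨ρ.P, hRU⟩
  have hRtU' : IsRt RU' := isRt_dual RU RU' hRtU hRU'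
  have hRtW' : IsRt RW' := isRt_dual RW RW' hRW hRW'
  -- the dual generic point
  let D' : MvPolynomial ι k := linSub ((J⁻¹ : (Matrix ι ι k)ˣ) : Matrix ι ι k) D
  have hD' : D' ≠ 0 := by
    intro h0
    apply hD
    apply MvPolynomial.funext
    intro v
    have h1 := eval_linSub ((J⁻¹ : (Matrix ι ι k)ˣ) : Matrix ι ι k) ((J : Matrix ι ι k) *ᵥ v) D
    change eval _ D' = _ at h1
    rw [h0, map_zero, Matrix.mulVec_mulVec, Units.inv_mul, Matrix.one_mulVec] at h1
    rw [map_zero]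
    exact h1.symm
  have hfree' : ∀ v : ι → k, eval v D' ≠ 0 → ∀ g, (RU' g : Matrix ι ι k) *ᵥ v = v →
      RU g⁻¹ = 1 ∧ RW g⁻¹ = 1 := by
    intro v hv g hg
    rw [eval_linSub] at hv
    set x := ((J⁻¹ : (Matrix ι ι k)ˣ) : Matrix ι ι k) *ᵥ v with hx
    have hvx : v = (J : Matrix ι ι k) *ᵥ x := by
      rw [hx, Matrix.mulVec_mulVec, Units.mul_inv, Matrix.one_mulVec]
    have h1 : (RU (sgT g) : Matrix ι ι k) *ᵥ x = x := by
      rw [hRU, toT_sgT]
      have h2 : (J : Matrix ι ι k) *ᵥ (ev ρ.P (trT (toT g⁻¹)) *ᵥ x) = (J : Matrix ι ι k) *ᵥ x := by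
        rw [Matrix.mulVec_mulVec, hJ, ← Matrix.mulVec_mulVec, ← hvx, ← hRU, ← hRU']
        exact hg
      calc ev ρ.P (trT (toT g⁻¹)) *ᵥ x = (((J⁻¹ : (Matrix ι ι k)ˣ) : Matrix ι ι k) * (J : Matrix ι ι k)) *ᵥ
            (ev ρ.P (trT (toT g⁻¹)) *ᵥ x) := by rw [Units.inv_mul, Matrix.one_mulVec]
        _ = x := by rw [← Matrix.mulVec_mulVec, h2, Matrix.mulVec_mulVec, Units.inv_mul, Matrix.one_mulVec]
    obtain ⟨h2, h3⟩ := hfree x hv _ h1
    obtain ⟨c, hc⟩ := hcen _ h2 h3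
    have h4 : sgT g = g⁻¹ := by
      have h5 : toT (sgT g) = toT g⁻¹ := by
        have h6 := congrArg trT hc
        rw [toT_sgT, trT_trT, trT_scal] at h6
        rw [hc, h6]
      funext i
      apply Subtype.ext
      exact congrFun h5 i
    rw [h4] at h2 h3
    exact ⟨h2, h3⟩
  have hdual1 : ∀ g, RU g⁻¹ = 1 → RU' g = 1 := by
    intro g hg
    apply Units.ext
    rw [hRU', hg, Units.val_one, Matrix.transpose_one]
  have hdualW : ∀ g, RW g⁻¹ = 1 → RW' g = 1 := by
    intro g hg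
    apply Units.ext
    rw [hRW', hg, Units.val_one, Matrix.transpose_one]
  -- sizes
  have hc : Fintype.card (E0 z) ≤ Fintype.card κ := by
    rw [card_E0]
    exact hcard
  let κ' := Fin (Fintype.card κ - Fintype.card (E0 z))
  have heq : Fintype.card κ = Fintype.card (E0 z ⊕ κ') := by
    rw [Fintype.card_sum, Fintype.card_fin]
    omega
  let e : κ ≃ E0 z ⊕ κ' := Fintype.equivOfCardEq heq
  -- the chain
  have s1 : Bir (dsum RU RW) (dsum RU (1 : SLP k n →* GL κ k)) :=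
    noname_SL hn RU RW hRtU hRW D hD (fun v hv g hg => (hfree v hv g hg).2)
  have s2 : Bir (dsum RU (1 : SLP k n →* GL κ k)) (dsum (dsum RU (1 : SLP k n →* GL (E0 z) k)) (1 : SLP k n →* GL κ' k)) :=
    bir_split RU e
  have s3 : Bir (dsum RU (1 : SLP k n →* GL (E0 z) k)) (dsum RU (Ad0 k z)) :=
    (noname_SL hn RU (Ad0 k z) hRtU (Ad0_isRt z) D hD (fun v hv g hg => by
      obtain ⟨h1, h2⟩ := hfree v hv g hg
      obtain ⟨c, hc⟩ := hcen g h1 h2
      exact Ad0_central z g c hc)).symm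
  have s4 : Bir (dsum RU (Ad0 k z)) (dsum RU' (Ad0 k z)) :=
    bir_zero hJ hsym _ (Units.inv_mul J) z RU RU' hRU (fun g => by rw [hRU', hRU])
  have s5 : Bir (dsum RU' (Ad0 k z)) (dsum RU' (1 : SLP k n →* GL (E0 z) k)) :=
    noname_SL hn RU' (Ad0 k z) hRtU' (Ad0_isRt z) D' hD' (fun v hv g hg => by
      obtain ⟨h1, h2⟩ := hfree' v hv g hg
      obtain ⟨c, hc⟩ := hcen g⁻¹ h1 h2
      have h3 := Ad0_central z g⁻¹ c hc
      rw [map_inv, inv_eq_one] at h3
      exact h3)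
  have s6 : Bir (dsum RU' (1 : SLP k n →* GL κ k)) (dsum RU' RW') :=
    (noname_SL hn RU' RW' hRtU' hRtW' D' hD' (fun v hv g hg => hdualW g (hfree' v hv g hg).2)).symm
  have s7 : Bir (dsum RU' (1 : SLP k n →* GL κ k)) (dsum (dsum RU' (1 : SLP k n →* GL (E0 z) k)) (1 : SLP k n →* GL κ' k)) :=
    bir_split RU' e
  have s8 : Bir (dsum (dsum RU (1 : SLP k n →* GL (E0 z) k)) (1 : SLP k n →* GL κ' k))
      (dsum (dsum RU' (1 : SLP k n →* GL (E0 z) k)) (1 : SLP k n →* GL κ' k)) :=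
    Bir.addTriv ((s3.trans s4).trans s5) rfl κ'
  exact ((s1.trans s2).trans s8).trans (s7.symm.trans s6)

end VSum
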