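import Mathlib
import Pool.Agent.Helper59.VSum.Main

/-!
# The adjoint representation on tuples of trace zero matrices
-/

set_option linter.unusedSectionVars false
set_option linter.style.haveILetI false

open MvPolynomial Matrix VDual

namespace VSum

section conj

variable {k : Type*} [Field k] {G : Type*} [Group G]
variable {ι : Type*} [Fintype ι] [DecidableEq ι] {ι' : Type*} [Fintype ι'] [DecidableEq ι']

/-- equivalent representations are birationally isomorphic, rectangular form -/
theorem Bir.of_rect (R : G →* GL ι k) (R' : G →* GL ι' k) (T : Matrix ι' ι k) (T' : Matrix ι ι' k)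
    (hcard : Fintype.card ι' = Fintype.card ι) (hT : T' * T = 1)
    (h : ∀ g, T * (R g : Matrix ι ι k) = (R' g : Matrix ι' ι' k) * T) : Bir R R' := by
  refine Bir.mk R R' (fun i => ∑ j, algebraMap k (FF k ι) (T i j) * xc k ι j) hcard ?_ ?_
  · apply adjoin_eq_top_of_xc_mem
    intro i
    have h1 : xc k ι i = ∑ l, algebraMap k (FF k ι) (T' i l) *
        ∑ j, algebraMap k (FF k ι) (T l j) * xc k ι j := by
      have h2 : ∀ j, ∑ l, T' i l * T l j = (1 : Matrix ι ι k) i j := by
        intro j
        rw [← hT, Matrix.mul_apply]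
      calc xc k ι i = ∑ j, algebraMap k (FF k ι) ((1 : Matrix ι ι k) i j) * xc k ι j := by
            rw [Finset.sum_eq_single i]
            · simp
            · intro j _ hj
              rw [Matrix.one_apply_ne hj.symm, map_zero, zero_mul]
            · simp
        _ = ∑ j, ∑ l, algebraMap k (FF k ι) (T' i l) *
              (algebraMap k (FF k ι) (T l j) * xc k ι j) := by
            refine Finset.sum_congr rfl fun j _ => ?_
            rw [← h2, map_sum, Finset.sum_mul]
            refine Finset.sum_congr rfl fun l _ => ?_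
            rw [map_mul, mul_assoc]
        _ = _ := by
            rw [Finset.sum_comm]
            refine Finset.sum_congr rfl fun l _ => ?_
            rw [Finset.mul_sum]
    rw [h1]
    refine sum_mem fun l _ => mul_mem (IntermediateField.algebraMap_mem _ _) ?_
    exact IntermediateField.subset_adjoin k _ ⟨l, rfl⟩
  · intro g i
    have h1 : ∀ l, ∑ j, T i j * (R g : Matrix ι ι k) j l = ∑ j, (R' g : Matrix ι' ι' k) i j * T j l := by
      intro l
      have := congrFun (congrFun (h g) i) l
      rw [Matrix.mul_apply, Matrix.mul_apply] at this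
      exact this
    calc ffSub (R g) (∑ j, algebraMap k (FF k ι) (T i j) * xc k ι j)
        = ∑ j, algebraMap k (FF k ι) (T i j) *
            ∑ l, algebraMap k (FF k ι) ((R g : Matrix ι ι k) j l) * xc k ι l := by
          rw [map_sum]
          refine Finset.sum_congr rfl fun j _ => ?_
          rw [map_mul, AlgEquiv.commutes, ffSub_xc]
      _ = ∑ l, algebraMap k (FF k ι) (∑ j, T i j * (R g : Matrix ι ι k) j l) * xc k ι l := by
          simp only [Finset.mul_sum, map_sum, Finset.sum_mul, map_mul]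
          rw [Finset.sum_comm]
          refine Finset.sum_congr rfl fun l _ => Finset.sum_congr rfl fun j _ => ?_
          rw [mul_assoc]
      _ = _ := by
          simp only [h1, Finset.mul_sum, map_sum, Finset.sum_mul, map_mul]
          rw [Finset.sum_comm]
          refine Finset.sum_congr rfl fun l _ => Finset.sum_congr rfl fun j _ => ?_
          rw [mul_assoc]

/-- change of the second summand -/
theorem Bir.dsum_right {κ κ' : Type*} [Fintype κ] [DecidableEq κ] [Fintype κ'] [DecidableEq κ']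
    (R : G →* GL ι k) (S : G →* GL κ k) (S' : G →* GL κ' k) (T : Matrix κ' κ k) (T' : Matrix κ κ' k)
    (hcard : Fintype.card κ' = Fintype.card κ) (hT : T' * T = 1)
    (h : ∀ g, T * (S g : Matrix κ κ k) = (S' g : Matrix κ' κ' k) * T) : Bir (dsum R S) (dsum R S') := by
  refine Bir.of_rect _ _ (Matrix.fromBlocks 1 0 0 T) (Matrix.fromBlocks 1 0 0 T')
    (by rw [Fintype.card_sum, Fintype.card_sum, hcard]) ?_ ?_
  · rw [Matrix.fromBlocks_multiply]
    simp [hT]
  · intro g
    rw [dsum_val, dsum_val, Matrix.fromBlocks_multiply, Matrix.fromBlocks_multiply]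
    simp [h]

end conj

variable {k : Type*} [Field k]
variable {I : Type*} [Fintype I] [DecidableEq I] {n : I → ℕ}
variable {ι : Type*} [Fintype ι] [DecidableEq ι] {κ : Type*} [Fintype κ] [DecidableEq κ]

/-- removing the trace -/
noncomputable def tz (A : MatT (fun i => Fin (n i)) k) : MatT (fun i => Fin (n i)) k :=
  A - scal (fun i => (A i).trace / (n i : k))

theorem tz_trace [CharZero k] (hn : ∀ i, n i ≠ 0) (A : MatT (fun i => Fin (n i)) k) (i : I) :
    (tz A i).trace = 0 := by
  change (A i - ((A i).trace / (n i : k)) • (1 : Matrix (Fin (n i)) (Fin (n i)) k)).trace = 0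
  rw [Matrix.trace_sub, Matrix.trace_smul, Matrix.trace_one, Fintype.card_fin, smul_eq_mul,
    div_mul_cancel₀ _ (Nat.cast_ne_zero.mpr (hn i)), sub_self]

theorem co_tz (z : ∀ i, Fin (n i)) (A : MatT (fun i => Fin (n i)) k) (e : En n) :
    co z (tz A) e = co z A e := by
  have h1 := co_add z (tz A) (scal (fun i => (A i).trace / (n i : k))) e
  rw [co_scal, add_zero] at h1
  rw [← h1]
  congr 1
  exact sub_add_cancel _ _

/-- trace zero tuples with vanishing coordinates modulo scalars vanish -/
theorem eq_zero_of_co [CharZero k] (hn : ∀ i, n i ≠ 0) (z : ∀ i, Fin (n i))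
    (A : MatT (fun i => Fin (n i)) k) (hA : ∀ i, (A i).trace = 0) (h : ∀ e : E0 z, co z A e.1 = 0) :
    A = 0 := by
  have h1 := eq_sum_co z A
  rw [Finset.sum_eq_zero (fun f _ => by rw [h f, zero_smul]), zero_add] at h1
  have h2 : ∀ i, A i (z i) (z i) = 0 := by
    intro i
    have h3 := hA i
    have h4 : A i = A i (z i) (z i) • (1 : Matrix (Fin (n i)) (Fin (n i)) k) := congrFun h1 i
    rw [h4, Matrix.trace_smul, Matrix.trace_one, Fintype.card_fin, smul_eq_mul] at h3
    exact (mul_eq_zero.mp h3).resolve_right (Nat.cast_ne_zero.mpr (hn i))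
  rw [h1]
  funext i
  change A i (z i) (z i) • (1 : Matrix (Fin (n i)) (Fin (n i)) k) = 0
  rw [h2, zero_smul]

/-- the trace form is non-degenerate on trace zero tuples -/
theorem eq_zero_of_trace [CharZero k] (hn : ∀ i, n i ≠ 0)
    (A : MatT (fun i => Fin (n i)) k) (hA : ∀ i, (A i).trace = 0)
    (h : ∀ B : MatT (fun i => Fin (n i)) k, (∀ i, (B i).trace = 0) → ∑ i, (A i * B i).trace = 0) :
    A = 0 := by
  have h1 : ∀ Y : MatT (fun i => Fin (n i)) k, ∑ i, (A i * Y i).trace = 0 := by
    intro Y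
    rw [← h (tz Y) (tz_trace hn Y)]
    refine Finset.sum_congr rfl fun i _ => ?_
    change _ = (A i * (Y i - ((Y i).trace / (n i : k)) • (1 : Matrix (Fin (n i)) (Fin (n i)) k))).trace
    rw [Matrix.mul_sub, Matrix.mul_smul, Matrix.mul_one, Matrix.trace_sub, Matrix.trace_smul, hA,
      smul_zero, sub_zero]
  funext i
  ext1 p q
  have h2 := h1 (unitT k (⟨i, (q, p)⟩ : En n))
  rw [Finset.sum_eq_single i] at h2
  · have h3 : (A i * unitT k (⟨i, (q, p)⟩ : En n) i).trace = A i p q := by
      rw [Matrix.trace, Finset.sum_eq_single p]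
      · rw [Matrix.diag_apply, Matrix.mul_apply, Finset.sum_eq_single q]
        · change A i p q * (if (⟨i, (q, p)⟩ : En n) = ⟨i, (q, p)⟩ then (1 : k) else 0) = _
          rw [if_pos rfl, mul_one]
        · intro s _ hs
          change A i p s * (if (⟨i, (s, p)⟩ : En n) = ⟨i, (q, p)⟩ then (1 : k) else 0) = _
          rw [if_neg, mul_zero]
          intro h4
          have h5 := eq_of_heq (Sigma.mk.inj h4).2
          rw [Prod.mk.injEq] at h5
          exact hs h5.1
        · intro h4
          exact absurd (Finset.mem_univ _) h4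
      · intro s _ hs
        rw [Matrix.diag_apply, Matrix.mul_apply]
        apply Finset.sum_eq_zero
        intro r _
        change A i s r * (if (⟨i, (r, s)⟩ : En n) = ⟨i, (q, p)⟩ then (1 : k) else 0) = _
        rw [if_neg, mul_zero]
        intro h4
        have h5 := eq_of_heq (Sigma.mk.inj h4).2
        rw [Prod.mk.injEq] at h5
        exact hs h5.2
      · intro h4
        exact absurd (Finset.mem_univ _) h4
    rw [h3] at h2
    exact h2
  · intro j _ hj
    have h3 : unitT k (⟨i, (q, p)⟩ : En n) j = 0 := by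
      ext1 r s
      change (if (⟨j, (r, s)⟩ : En n) = ⟨i, (q, p)⟩ then (1 : k) else 0) = 0
      rw [if_neg]
      intro h4
      exact hj (Sigma.mk.inj h4).1
    rw [h3, Matrix.mul_zero, Matrix.trace_zero]
  · intro h4
    exact absurd (Finset.mem_univ _) h4

/-- the trace zero tuples -/
def slT (k : Type*) [Field k] (n : I → ℕ) : Submodule k (MatT (fun i => Fin (n i)) k) where
  carrier := {A | ∀ i, (A i).trace = 0}
  zero_mem' := by
    intro i
    exact Matrix.trace_zero _ _
  add_mem' := by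
    intro A B hA hB i
    rw [Pi.add_apply, Matrix.trace_add, hA i, hB i, add_zero]
  smul_mem' := by
    intro c A hA i
    rw [Pi.smul_apply, Matrix.trace_smul, hA i, smul_zero]

section adj

variable (S : SLP k n →* GL κ k) (L : (κ → k) ≃ₗ[k] slT k n)

/-- the change of coordinates -/
def T0 (z : ∀ i, Fin (n i)) : Matrix (E0 z) κ k :=
  Matrix.of fun e j => co z (L (Pi.single j 1)).1 e.1

theorem T0_mulVec (z : ∀ i, Fin (n i)) (v : κ → k) (e : E0 z) :
    (T0 L z *ᵥ v) e = co z (L v).1 e.1 := by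
  have h1 : v = ∑ j, v j • (Pi.single j (1 : k) : κ → k) := by
    funext i
    simp [Finset.sum_apply, Pi.single_apply]
  conv_rhs => rw [h1]
  rw [map_sum, Submodule.coe_sum, co_sum]
  simp only [mulVec, dotProduct, T0, Matrix.of_apply]
  refine Finset.sum_congr rfl fun j _ => ?_
  rw [map_smul, Submodule.coe_smul, co_smul, mul_comm]

theorem T0_intertwines (z : ∀ i, Fin (n i))
    (hL : ∀ (g : SLP k n) (v : κ → k), (L ((S g : Matrix κ κ k) *ᵥ v)).1 = toT g * (L v).1 * toT g⁻¹)
    (g : SLP k n) : T0 L z * (S g : Matrix κ κ k) = (Ad0 k z g : Matrix (E0 z) (E0 z) k) * T0 L z := by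
  have h1 : ∀ v : κ → k, (T0 L z * (S g : Matrix κ κ k)) *ᵥ v =
      ((Ad0 k z g : Matrix (E0 z) (E0 z) k) * T0 L z) *ᵥ v := by
    intro v
    rw [← Matrix.mulVec_mulVec, ← Matrix.mulVec_mulVec]
    funext e
    rw [T0_mulVec, hL, AdM_apply z _ _ (by rw [← toT_mul, mul_inv_cancel, toT_one])]
    simp only [Ad0_val]
    rw [mulVec, dotProduct]
    refine Finset.sum_congr rfl fun f _ => ?_
    rw [T0_mulVec]
  ext e j
  have h2 := congrFun (h1 (Pi.single j 1)) e
  rw [Matrix.mulVec_single_one, Matrix.mulVec_single_one] at h2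
  exact h2

/-- the change of coordinates is invertible -/
theorem T0_inv [CharZero k] (hn : ∀ i, n i ≠ 0) (z : ∀ i, Fin (n i)) :
    Fintype.card (E0 z) = Fintype.card κ ∧ (∃ T' : Matrix κ (E0 z) k, T' * T0 L z = 1) ∧
      ∃ T' : Matrix κ (E0 z) k, T0 L z * T' = 1 := by
  let f : (κ → k) →ₗ[k] (E0 z → k) := Matrix.mulVecLin (T0 L z)
  have hf : ∀ v e, f v e = co z (L v).1 e.1 := fun v e => T0_mulVec L z v e
  have hinj : Function.Injective f := by
    rw [injective_iff_map_eq_zero]
    intro v hv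
    have h1 : (L v).1 = 0 := by
      apply eq_zero_of_co hn z _ (L v).2
      intro e
      rw [← hf, hv]
      rfl
    have h2 : L v = 0 := Subtype.ext h1
    exact (LinearEquiv.map_eq_zero_iff L).mp h2
  have hsurj : Function.Surjective f := by
    intro a
    refine ⟨L.symm ⟨tz (embT z a), tz_trace hn _⟩, ?_⟩
    funext e
    rw [hf, LinearEquiv.apply_symm_apply]
    change co z (tz (embT z a)) e.1 = a e
    rw [co_tz, co_embT]
  let F : (κ → k) ≃ₗ[k] (E0 z → k) := LinearEquiv.ofBijective f ⟨hinj, hsurj⟩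
  have hcard : Fintype.card (E0 z) = Fintype.card κ := by
    have h1 := F.finrank_eq
    rw [Module.finrank_fintype_fun_eq_card, Module.finrank_fintype_fun_eq_card] at h1
    exact h1.symm
  have hF : ∀ v, F v = T0 L z *ᵥ v := fun v => rfl
  refine ⟨hcard, ⟨LinearMap.toMatrix' F.symm.toLinearMap, ?_⟩, ⟨LinearMap.toMatrix' F.symm.toLinearMap, ?_⟩⟩
  · have h1 : T0 L z = LinearMap.toMatrix' F.toLinearMap := by
      apply Matrix.toLin'.injective
      rw [Matrix.toLin'_toMatrix']
      apply LinearMap.ext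
      intro v
      rw [Matrix.toLin'_apply]
      exact (hF v).symm
    conv_lhs => rw [h1]
    rw [← LinearMap.toMatrix'_comp]
    have h2 : F.symm.toLinearMap ∘ₗ F.toLinearMap = LinearMap.id := by
      apply LinearMap.ext
      intro v
      exact F.symm_apply_apply v
    rw [h2, LinearMap.toMatrix'_id]
  · have h1 : T0 L z = LinearMap.toMatrix' F.toLinearMap := by
      apply Matrix.toLin'.injective
      rw [Matrix.toLin'_toMatrix']
      apply LinearMap.ext
      intro v
      rw [Matrix.toLin'_apply]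
      exact (hF v).symm
    conv_lhs => rw [h1]
    rw [← LinearMap.toMatrix'_comp]
    have h2 : F.toLinearMap ∘ₗ F.symm.toLinearMap = LinearMap.id := by
      apply LinearMap.ext
      intro v
      exact F.apply_symm_apply v
    rw [h2, LinearMap.toMatrix'_id]

/-- the trace form -/
def trB : Matrix κ κ k :=
  Matrix.of fun x y => ∑ i, ((L (Pi.single x 1)).1 i * (L (Pi.single y 1)).1 i).trace

theorem trB_apply (v w : κ → k) : v ⬝ᵥ (trB L *ᵥ w) = ∑ i, ((L v).1 i * (L w).1 i).trace := by
  have h1 : ∀ v : κ → k, (L v).1 = ∑ j, v j • (L (Pi.single j (1 : k))).1 := by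
    intro v
    have h1 : v = ∑ j, v j • (Pi.single j (1 : k) : κ → k) := by
      funext i
      simp [Finset.sum_apply, Pi.single_apply]
    conv_lhs => rw [h1]
    rw [map_sum, Submodule.coe_sum]
    refine Finset.sum_congr rfl fun j _ => ?_
    rw [map_smul, Submodule.coe_smul]
  rw [h1 v, h1 w]
  simp only [mulVec, dotProduct, trB, Matrix.of_apply, Finset.mul_sum]
  have h2 : ∀ i : I, (((∑ j, v j • (L (Pi.single j (1 : k))).1) i *
      (∑ j, w j • (L (Pi.single j (1 : k))).1) i).trace) =
      ∑ x, ∑ y, v x * (((L (Pi.single x 1)).1 i * (L (Pi.single y 1)).1 i).trace * w y) := by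
    intro i
    rw [Finset.sum_apply, Finset.sum_apply, Finset.sum_mul, Matrix.trace_sum]
    refine Finset.sum_congr rfl fun x _ => ?_
    rw [Finset.mul_sum, Matrix.trace_sum]
    refine Finset.sum_congr rfl fun y _ => ?_
    rw [Pi.smul_apply, Pi.smul_apply, Matrix.smul_mul, Matrix.mul_smul, Matrix.trace_smul, Matrix.trace_smul,
      smul_eq_mul, smul_eq_mul]
    ring
  simp only [h2]
  symm
  rw [Finset.sum_comm]
  refine Finset.sum_congr rfl fun x _ => ?_
  rw [Finset.sum_comm]
  refine Finset.sum_congr rfl fun y _ => ?_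
  rw [Finset.sum_mul, Finset.mul_sum]

theorem trB_intertwines
    (hL : ∀ (g : SLP k n) (v : κ → k), (L ((S g : Matrix κ κ k) *ᵥ v)).1 = toT g * (L v).1 * toT g⁻¹)
    (g : SLP k n) : trB L * (S g : Matrix κ κ k) = (S g⁻¹ : Matrix κ κ k)ᵀ * trB L := by
  have h1 : ∀ v w : κ → k, v ⬝ᵥ ((trB L * (S g : Matrix κ κ k)) *ᵥ w) =
      v ⬝ᵥ (((S g⁻¹ : Matrix κ κ k)ᵀ * trB L) *ᵥ w) := by
    intro v w
    rw [← Matrix.mulVec_mulVec, trB_apply, ← Matrix.mulVec_mulVec, Matrix.dotProduct_mulVec v,
      Matrix.vecMul_transpose, trB_apply, hL, hL, inv_inv]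
    refine Finset.sum_congr rfl fun i _ => ?_
    simp only [Pi.mul_apply]
    rw [← Matrix.mul_assoc, ← Matrix.mul_assoc, Matrix.trace_mul_comm _ (toT g⁻¹ i)]
    simp only [Matrix.mul_assoc]
  ext x y
  have h2 := h1 (Pi.single x 1) (Pi.single y 1)
  rw [single_dotProduct, single_dotProduct, one_mul, one_mul, Matrix.mulVec_single_one,
    Matrix.mulVec_single_one] at h2
  exact h2

theorem trB_inv [CharZero k] (hn : ∀ i, n i ≠ 0) : ∃ T' : Matrix κ κ k, T' * trB L = 1 := by
  have hker : ∀ v : κ → k, trB L *ᵥ v = 0 → v = 0 := by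
    intro v h3
    have h1 : (L v).1 = 0 := by
      apply eq_zero_of_trace hn _ (L v).2
      intro B hB
      have h2 := trB_apply L (L.symm ⟨B, hB⟩) v
      rw [h3, dotProduct_zero, LinearEquiv.apply_symm_apply] at h2
      rw [h2]
      refine Finset.sum_congr rfl fun i _ => ?_
      rw [Matrix.trace_mul_comm]
    have h2 : L v = 0 := Subtype.ext h1
    exact (LinearEquiv.map_eq_zero_iff L).mp h2
  have hinj : Function.Injective (trB L).mulVec := by
    intro v w hvw
    have h1 := hker (v - w) (by rw [Matrix.mulVec_sub, sub_eq_zero]; exact hvw)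
    exact sub_eq_zero.mp h1
  have hu : IsUnit (trB L) := Matrix.mulVec_injective_iff_isUnit.mp hinj
  obtain ⟨U, hU⟩ := hu
  exact ⟨((U⁻¹ : (Matrix κ κ k)ˣ) : Matrix κ κ k), by rw [← hU, Units.inv_mul]⟩

/-- **`V = U ⊕ 𝔤`** -/
theorem bir_adjoint [IsAlgClosed k] [CharZero k] (hn : ∀ i, n i ≠ 0)
    (hL : ∀ (g : SLP k n) (v : κ → k), (L ((S g : Matrix κ κ k) *ᵥ v)).1 = toT g * (L v).1 * toT g⁻¹)
    (ρ : PolyRep k (fun i => Fin (n i)) ι) (J : (Matrix ι ι k)ˣ) (hJ : IsJ ρ (J : Matrix ι ι k))
    (hsym : (J : Matrix ι ι k)ᵀ = (J : Matrix ι ι k))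
    (RU RU' : SLP k n →* GL ι k) (S' : SLP k n →* GL κ k)
    (hRU : ∀ g, (RU g : Matrix ι ι k) = ev ρ.P (toT g))
    (hRU' : ∀ g, (RU' g : Matrix ι ι k) = (RU g⁻¹ : Matrix ι ι k)ᵀ)
    (hS' : ∀ g, (S' g : Matrix κ κ k) = (S g⁻¹ : Matrix κ κ k)ᵀ) :
    Bir (dsum RU S) (dsum RU' S') := by
  classical
  let z : ∀ i, Fin (n i) := fun i => ⟨0, Nat.pos_of_ne_zero (hn i)⟩
  obtain ⟨hcard, ⟨T', hT'⟩, _⟩ := T0_inv L hn z
  have s1 : Bir (dsum RU S) (dsum RU (Ad0 k z)) :=
    Bir.dsum_right RU S (Ad0 k z) (T0 L z) T' hcard hT' (T0_intertwines S L z hL)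
  have s2 : Bir (dsum RU (Ad0 k z)) (dsum RU' (Ad0 k z)) :=
    bir_zero hJ hsym _ (Units.inv_mul J) z RU RU' hRU (fun g => by rw [hRU', hRU])
  have s3 : Bir (dsum RU' S) (dsum RU' (Ad0 k z)) :=
    Bir.dsum_right RU' S (Ad0 k z) (T0 L z) T' hcard hT' (T0_intertwines S L z hL)
  obtain ⟨B', hB'⟩ := trB_inv L hn
  have s4 : Bir (dsum RU' S) (dsum RU' S') :=
    Bir.dsum_right RU' S S' (trB L) B' rfl hB' (fun g => by rw [hS']; exact trB_intertwines S L hL g)
  exact ((s1.trans s2).trans s3.symm).trans s4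

end adj

end VSum
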